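import Mathlib

set_option autoImplicit false

/-!
# Fourier inversion: from generating functions to point masses
-/

namespace Pool.Agent.H32x.PL

open Finset Filter Topology MeasureTheory

/-- the unit interval measure -/
noncomputable def lam1 : Measure ℝ := volume.restrict (Set.Ioc 0 1)

instance : IsProbabilityMeasure lam1 := by
  constructor
  unfold lam1
  rw [Measure.restrict_apply_univ, Real.volume_Ioc]
  norm_num

/-- the character -/
noncomputable def ee (s : ℝ) : ℂ := Complex.exp (2 * Real.pi * s * Complex.I)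

lemma norm_ee (s : ℝ) : ‖ee s‖ = 1 := by
  unfold ee
  have : (2 * Real.pi * s * Complex.I : ℂ) = ((2 * Real.pi * s : ℝ) : ℂ) * Complex.I := by push_cast; ring
  rw [this, Complex.norm_exp_ofReal_mul_I]

lemma continuous_ee : Continuous ee := by
  unfold ee
  fun_prop

lemma ee_ne (s : ℝ) : ee s ≠ 0 := Complex.exp_ne_zero _

lemma ee_mul (s : ℝ) (m : ℤ) : ee s ^ m = Complex.exp ((2 * Real.pi * Complex.I * m) * s) := by
  unfold ee
  rw [← Complex.exp_int_mul]
  congr 1
  ring

lemma int_ee (m : ℤ) : ∫ s, ee s ^ m ∂lam1 = if m = 0 then 1 else 0 := by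
  unfold lam1
  rw [← intervalIntegral.integral_of_le zero_le_one]
  split_ifs with h
  · subst h
    simp
  · simp only [ee_mul]
    have hc : (2 * Real.pi * Complex.I * m : ℂ) ≠ 0 := by
      have h1 : (Real.pi : ℂ) ≠ 0 := by exact_mod_cast Real.pi_ne_zero
      have h2 : (m : ℂ) ≠ 0 := by exact_mod_cast h
      simp [h1, h2, Complex.I_ne_zero]
    rw [integral_exp_mul_complex hc]
    have h1 : (2 * Real.pi * Complex.I * m : ℂ) * ((1 : ℝ) : ℂ) = m * (2 * Real.pi * Complex.I) := by
      push_cast; ring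
    rw [h1, Complex.exp_int_mul_two_pi_mul_I]
    simp

lemma int_ee' (n k : ℕ) : ∫ s, (ee s)⁻¹ ^ k * ee s ^ n ∂lam1 = if n = k then 1 else 0 := by
  have h : ∀ s, (ee s)⁻¹ ^ k * ee s ^ n = ee s ^ ((n : ℤ) - k) := by
    intro s
    rw [zpow_sub₀ (ee_ne s), zpow_natCast, zpow_natCast, inv_pow]
    field_simp
  simp only [h]
  rw [int_ee]
  simp only [sub_eq_zero, Nat.cast_inj]

/-- point masses of the Poisson distribution -/
noncomputable def Poi (l : ℝ) (k : ℕ) : ℝ := Real.exp (-l) * l ^ k / k.factorial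

lemma int_poi (l : ℝ) (k : ℕ) :
    ∫ s, (ee s)⁻¹ ^ k * Complex.exp (-(l * (1 - ee s))) ∂lam1 = (Poi l k : ℂ) := by
  set F : ℕ → ℝ → ℂ := fun m s => (Complex.exp (-l) * ((l : ℂ) ^ m / m.factorial)) * ((ee s)⁻¹ ^ k * ee s ^ m) with hF
  have hint : ∀ m, Integrable (F m) lam1 := by
    intro m
    refine Integrable.of_bound (C := ‖Complex.exp (-l) * ((l : ℂ) ^ m / m.factorial)‖) ?_ ?_
    · refine Continuous.aestronglyMeasurable ?_
      simp only [hF]
      refine continuous_const.mul (((continuous_ee.inv₀ ee_ne).pow k).mul (continuous_ee.pow m))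
    · refine Filter.Eventually.of_forall fun s => ?_
      simp only [hF]
      rw [norm_mul _ ((ee s)⁻¹ ^ k * ee s ^ m), norm_mul ((ee s)⁻¹ ^ k), norm_pow, norm_pow, norm_inv, norm_ee]
      simp
  have hnorm : ∀ m, ∫ s, ‖F m s‖ ∂lam1 = Real.exp (-l) * (|l| ^ m / m.factorial) := by
    intro m
    have h1 : ∀ s, ‖F m s‖ = Real.exp (-l) * (|l| ^ m / m.factorial) := by
      intro s
      simp only [hF]
      rw [norm_mul _ ((ee s)⁻¹ ^ k * ee s ^ m), norm_mul ((ee s)⁻¹ ^ k), norm_pow, norm_pow, norm_inv, norm_ee,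
        norm_mul, norm_div, norm_pow, Complex.norm_real, Complex.norm_natCast, Real.norm_eq_abs]
      have : ‖Complex.exp (-(l : ℂ))‖ = Real.exp (-l) := by
        rw [Complex.norm_exp]; simp
      rw [this]
      simp
    simp only [h1]
    simp
  have hsum : Summable fun m => ∫ s, ‖F m s‖ ∂lam1 := by
    simp only [hnorm]
    exact (Real.summable_pow_div_factorial |l|).mul_left _
  have h2 := hasSum_integral_of_summable_integral_norm hint hsum
  have h3 : ∀ m, ∫ s, F m s ∂lam1 = if m = k then (Poi l k : ℂ) else 0 := by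
    intro m
    simp only [hF]
    rw [integral_const_mul, int_ee']
    split_ifs with h
    · subst h
      unfold Poi
      push_cast
      ring
    · simp
  simp only [h3] at h2
  have h4 := h2.unique (hasSum_ite_eq k (Poi l k : ℂ))
  rw [← h4]
  refine integral_congr_ae (Filter.Eventually.of_forall fun s => ?_)
  simp only
  have h5 : ∑' m, F m s = (ee s)⁻¹ ^ k * Complex.exp (-l) * ∑' m, (l * ee s) ^ m / (m.factorial : ℂ) := by
    rw [← tsum_mul_left]
    refine tsum_congr fun m => ?_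
    simp only [hF]
    rw [mul_pow]
    ring
  have h6 : ∑' m, (l * ee s) ^ m / (m.factorial : ℂ) = Complex.exp (l * ee s) := by
    rw [Complex.exp_eq_exp_ℂ]
    exact (NormedSpace.expSeries_div_hasSum_exp (𝔸 := ℂ) (l * ee s)).tsum_eq
  rw [h5, h6, mul_assoc, ← Complex.exp_add]
  congr 2
  ring

/-- from generating functions on the torus to point masses, in several variables -/
theorem fourier_inv {ι κ : Type*} [Fintype ι] (Ω : Finset κ) (N : κ → ι → ℕ) (M ε : ℝ) (l : ι → ℝ)
    (h : ∀ s : ι → ℝ, ‖∑ n ∈ Ω, ∏ j, ee (s j) ^ N n j - M * ∏ j, Complex.exp (-(l j * (1 - ee (s j))))‖ ≤ ε)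
    (k : ι → ℕ) [DecidablePred fun n => ∀ j, N n j = k j] :
    |((Ω.filter (fun n => ∀ j, N n j = k j)).card : ℝ) - M * ∏ j, Poi (l j) (k j)| ≤ ε := by
  classical
  set ν : Measure (ι → ℝ) := Measure.pi (fun _ : ι => lam1) with hν
  have hp : IsProbabilityMeasure ν := by rw [hν]; infer_instance
  have hE0 : ∀ (f : ι → ℝ → ℂ), (∀ j, Continuous (f j)) → (∀ j x, ‖f j x‖ ≤ 1) →
      Integrable (fun s : ι → ℝ => ∏ j, f j (s j)) ν := by
    intro f hf hb
    refine Integrable.of_bound (C := 1) ?_ (Filter.Eventually.of_forall fun s => ?_)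
    · refine Continuous.aestronglyMeasurable ?_
      exact continuous_finset_prod _ fun j _ => (hf j).comp (continuous_apply j)
    · rw [norm_prod]
      exact Finset.prod_le_one (fun _ _ => norm_nonneg _) fun j _ => hb j _
  have hne : ∀ (s : ℝ) (m k : ℕ), ‖(ee s)⁻¹ ^ k * ee s ^ m‖ = 1 := by
    intro s m k
    rw [norm_mul, norm_pow, norm_pow, norm_inv, norm_ee]; simp
  have hec : ∀ m k : ℕ, Continuous fun s => (ee s)⁻¹ ^ k * ee s ^ m := fun m k =>
    ((continuous_ee.inv₀ ee_ne).pow k).mul (continuous_ee.pow m)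
  -- the point masses
  have hind : ∀ n, ∫ s, ∏ j, ((ee (s j))⁻¹ ^ k j * ee (s j) ^ N n j) ∂ν =
      if ∀ j, N n j = k j then (1 : ℂ) else 0 := by
    intro n
    rw [hν, integral_fintype_prod_eq_prod (f := fun j x => (ee x)⁻¹ ^ k j * ee x ^ N n j)]
    simp only [int_ee']
    split_ifs with h1
    · exact Finset.prod_eq_one fun j _ => by rw [if_pos (h1 j)]
    · rw [not_forall] at h1
      obtain ⟨j, hj⟩ := h1
      exact Finset.prod_eq_zero (Finset.mem_univ j) (if_neg hj)
  have hpoi : ∫ s, ∏ j, ((ee (s j))⁻¹ ^ k j * Complex.exp (-(l j * (1 - ee (s j))))) ∂ν =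
      ∏ j, (Poi (l j) (k j) : ℂ) := by
    rw [hν, integral_fintype_prod_eq_prod (f := fun j x => (ee x)⁻¹ ^ k j * Complex.exp (-(l j * (1 - ee x))))]
    exact Finset.prod_congr rfl fun j _ => int_poi _ _
  have hpc : ∀ j, Continuous fun x : ℝ => (ee x)⁻¹ ^ k j * Complex.exp (-(l j * (1 - ee x))) := by
    intro j
    refine ((continuous_ee.inv₀ ee_ne).pow _).mul ?_
    refine Complex.continuous_exp.comp ?_
    exact (continuous_const.mul (continuous_const.sub continuous_ee)).neg
  have hIp : Integrable (fun s : ι → ℝ => ∏ j, ((ee (s j))⁻¹ ^ k j *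
      Complex.exp (-(l j * (1 - ee (s j)))))) ν := by
    refine Integrable.of_bound (C := ∏ j, Real.exp (2 * |l j|)) ?_ (Filter.Eventually.of_forall fun s => ?_)
    · refine Continuous.aestronglyMeasurable ?_
      exact continuous_finset_prod _ fun j _ => (hpc j).comp (continuous_apply j)
    · rw [norm_prod]
      refine Finset.prod_le_prod (fun _ _ => norm_nonneg _) fun j _ => ?_
      rw [norm_mul, norm_pow, norm_inv, norm_ee, inv_one, one_pow, one_mul]
      refine (Complex.norm_exp_le_exp_norm _).trans ?_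
      rw [Real.exp_le_exp, norm_neg, norm_mul, Complex.norm_real, Real.norm_eq_abs]
      have h1 : ‖1 - ee (s j)‖ ≤ 2 := by
        refine (norm_sub_le _ _).trans ?_
        rw [norm_ee]; norm_num
      have h2 : 0 ≤ |l j| := abs_nonneg _
      nlinarith
  have hIn : ∀ n, Integrable (fun s : ι → ℝ => ∏ j, ((ee (s j))⁻¹ ^ k j * ee (s j) ^ N n j)) ν :=
    fun n => hE0 (fun j x => (ee x)⁻¹ ^ k j * ee x ^ N n j) (fun j => hec _ _) (fun j x => (hne x _ _).le)
  have key : (((Ω.filter (fun n => ∀ j, N n j = k j)).card : ℝ) - M * ∏ j, Poi (l j) (k j) : ℂ) =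
      ∫ s, (∏ j, (ee (s j))⁻¹ ^ k j) * (∑ n ∈ Ω, ∏ j, ee (s j) ^ N n j -
        M * ∏ j, Complex.exp (-(l j * (1 - ee (s j))))) ∂ν := by
    have h1 : ∀ s : ι → ℝ, (∏ j, (ee (s j))⁻¹ ^ k j) * (∑ n ∈ Ω, ∏ j, ee (s j) ^ N n j -
        M * ∏ j, Complex.exp (-(l j * (1 - ee (s j))))) =
        ∑ n ∈ Ω, ∏ j, ((ee (s j))⁻¹ ^ k j * ee (s j) ^ N n j) -
        M * ∏ j, ((ee (s j))⁻¹ ^ k j * Complex.exp (-(l j * (1 - ee (s j))))) := by
      intro s
      simp only [Finset.prod_mul_distrib]
      rw [mul_sub, Finset.mul_sum]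
      ring
    simp only [h1]
    rw [integral_sub (integrable_finset_sum _ fun n _ => hIn n) (hIp.const_mul _),
      integral_finset_sum _ fun n _ => hIn n, integral_const_mul, hpoi]
    simp only [hind]
    rw [← Finset.sum_filter, Finset.sum_const, nsmul_eq_mul, mul_one]
    push_cast
    rfl
  have hkey2 : (((((Ω.filter (fun n => ∀ j, N n j = k j)).card : ℝ) - M * ∏ j, Poi (l j) (k j) : ℝ)) : ℂ) =
      (((Ω.filter (fun n => ∀ j, N n j = k j)).card : ℝ) - M * ∏ j, Poi (l j) (k j) : ℂ) := by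
    push_cast
    rfl
  rw [← Real.norm_eq_abs, ← Complex.norm_real, hkey2, key]
  have h2 := norm_integral_le_of_norm_le_const (μ := ν) (C := ε)
    (f := fun s : ι → ℝ => (∏ j, (ee (s j))⁻¹ ^ k j) * (∑ n ∈ Ω, ∏ j, ee (s j) ^ N n j -
        M * ∏ j, Complex.exp (-(l j * (1 - ee (s j)))))) (Filter.Eventually.of_forall fun s => by
      rw [norm_mul, norm_prod]
      have : ∏ j, ‖(ee (s j))⁻¹ ^ k j‖ = 1 := Finset.prod_eq_one fun j _ => by
        rw [norm_pow, norm_inv, norm_ee]; simp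
      rw [this, one_mul]
      exact h s)
  refine h2.trans (le_of_eq ?_)
  simp [Measure.real]

end Pool.Agent.H32x.PL
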