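import Mathlib
import Pool.Agent.N176.OW.Stm3

set_option autoImplicit false

/-!
# Products over exponents: one step of the recursion
-/

namespace Pool.Agent.H32x.PL

open Finset Filter Topology
open Pool.Agent.N176.GP (cnt XX XX_nonneg cnt_eq)
open Pool.Agent.N176.OW (cell)
open Pool.Agent.H305R2 (roughPart)

lemma XX_le_one (p n : ℕ) : XX p n ≤ 1 := by unfold XX; split_ifs <;> norm_num

lemma XX_or (p n : ℕ) : XX p n = 0 ∨ XX p n = 1 := by unfold XX; split_ifs <;> simp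

/-- sums over an interval of multiples -/
lemma sum_cells' {M : Type*} [AddCommMonoid M] (B a c : ℕ) (hac : a ≤ c) (g : ℕ → M) :
    ∑ n ∈ Ico (a * B) (c * B), g n = ∑ m ∈ Ico a c, ∑ n ∈ Ico (m * B) ((m + 1) * B), g n := by
  induction c, hac using Nat.le_induction with
  | base => simp
  | succ c hac ih =>
    rw [Finset.sum_Ico_succ_top hac, ← ih,
      ← Finset.sum_Ico_consecutive g (Nat.mul_le_mul_right B hac) (Nat.mul_le_mul_right B (Nat.le_succ c))]

/-- a cell is the union of the cells of the next level -/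
lemma sum_cell' {M : Type*} [AddCommMonoid M] {b : ℕ} {z u t : ℕ} (hzu : z ≤ u) (hut : u ≤ t) (j : ℕ)
    (g : ℕ → M) :
    ∑ n ∈ cell b z t j, g n = ∑ m ∈ cell b z u j, ∑ n ∈ cell b u t m, g n := by
  have e : b ^ (t - z) = b ^ (u - z) * b ^ (t - u) := by rw [← pow_add]; congr 1; omega
  unfold cell
  rw [e, ← mul_assoc, ← mul_assoc, sum_cells' _ _ _ (Nat.mul_le_mul_right _ (Nat.le_succ j))]

/-- a range of cells -/
lemma sum_range_cell' {M : Type*} [AddCommMonoid M] {b : ℕ} {u t : ℕ} (a c : ℕ) (hac : a ≤ c)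
    (g : ℕ → M) :
    ∑ n ∈ Ico (a * b ^ (t - u)) (c * b ^ (t - u)), g n = ∑ m ∈ Ico a c, ∑ n ∈ cell b u t m, g n := by
  unfold cell
  rw [sum_cells' _ _ _ hac]

/-- the product of `1 - a p X_p` over `p ∈ T`, `n` has the level `t` -/
noncomputable def FF (b t : ℕ) (a : ℕ → ℂ) (T : Finset ℕ) (n : ℕ) : ℂ :=
  ∏ p ∈ T, (1 - a p * (XX p (n / b ^ (t - p)) : ℝ))

lemma norm_one_sub {x : ℂ} {y : ℝ} (h : ‖1 - x‖ ≤ 1) (hy : y = 0 ∨ y = 1) :
    ‖1 - x * (y : ℝ)‖ ≤ 1 := by
  rcases hy with hy | hy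
  · subst hy; simp
  · subst hy; simpa using h

lemma norm_FF_le {b t : ℕ} {a : ℕ → ℂ} {T : Finset ℕ} (ha : ∀ p ∈ T, ‖1 - a p‖ ≤ 1) (n : ℕ) :
    ‖FF b t a T n‖ ≤ 1 := by
  unfold FF
  rw [norm_prod]
  exact Finset.prod_le_one (fun _ _ => norm_nonneg _) fun p hp => norm_one_sub (ha p hp) (XX_or _ _)

lemma FF_union {b t : ℕ} {a : ℕ → ℂ} {T U : Finset ℕ} (h : Disjoint T U) (n : ℕ) :
    FF b t a (T ∪ U) n = FF b t a T n * FF b t a U n := by
  unfold FF
  rw [Finset.prod_union h]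

lemma prod_one (U : Finset ℕ) (u : ℕ → ℂ) (h : ∀ p ∈ U, ‖1 - u p‖ ≤ 1) :
    ‖∏ p ∈ U, (1 - u p) - 1‖ ≤ ∑ p ∈ U, ‖u p‖ := by
  induction U using Finset.induction_on_max with
  | empty => simp
  | insert m U hm ih =>
    have hmU : m ∉ U := fun h => lt_irrefl m (hm m h)
    rw [Finset.prod_insert hmU, Finset.sum_insert hmU]
    have ih' := ih fun p hp => h p (Finset.mem_insert_of_mem hp)
    have e : (1 - u m) * ∏ p ∈ U, (1 - u p) - 1 = (1 - u m) * (∏ p ∈ U, (1 - u p) - 1) - u m := by ring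
    rw [e]
    have h1 := h m (Finset.mem_insert_self _ _)
    calc ‖(1 - u m) * (∏ p ∈ U, (1 - u p) - 1) - u m‖ ≤
          ‖(1 - u m) * (∏ p ∈ U, (1 - u p) - 1)‖ + ‖u m‖ := norm_sub_le _ _
      _ ≤ 1 * ‖∏ p ∈ U, (1 - u p) - 1‖ + ‖u m‖ := by
          rw [norm_mul]
          gcongr
      _ ≤ _ := by linarith

lemma prod_two (U : Finset ℕ) (u : ℕ → ℂ) (h : ∀ p ∈ U, ‖1 - u p‖ ≤ 1) :
    ‖∏ p ∈ U, (1 - u p) - 1 + ∑ p ∈ U, u p‖ ≤
      ∑ q ∈ U, ∑ p ∈ U.filter (fun p => p < q), ‖u p‖ * ‖u q‖ := by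
  induction U using Finset.induction_on_max with
  | empty => simp
  | insert m U hm ih =>
    have hmU : m ∉ U := fun h => lt_irrefl m (hm m h)
    rw [Finset.prod_insert hmU, Finset.sum_insert hmU, Finset.sum_insert hmU]
    have ih' := ih fun p hp => h p (Finset.mem_insert_of_mem hp)
    have h1 := prod_one U u fun p hp => h p (Finset.mem_insert_of_mem hp)
    have e : (1 - u m) * ∏ p ∈ U, (1 - u p) - 1 + (u m + ∑ p ∈ U, u p) =
        (∏ p ∈ U, (1 - u p) - 1 + ∑ p ∈ U, u p) - (∏ p ∈ U, (1 - u p) - 1) * u m := by ring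
    rw [e]
    have e1 : (insert m U).filter (fun p => p < m) = U := by
      ext x
      rw [mem_filter, mem_insert]
      constructor
      · rintro ⟨h1 | h1, h2⟩
        · omega
        · exact h1
      · intro h1
        exact ⟨Or.inr h1, hm x h1⟩
    have e2 : ∀ q ∈ U, (insert m U).filter (fun p => p < q) = U.filter (fun p => p < q) := by
      intro q hq
      ext x
      rw [mem_filter, mem_filter, mem_insert]
      constructor
      · rintro ⟨h1 | h1, h2⟩
        · have := hm q hq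
          omega
        · exact ⟨h1, h2⟩
      · rintro ⟨h1, h2⟩
        exact ⟨Or.inr h1, h2⟩
    rw [e1]
    have e3 : ∑ q ∈ U, ∑ p ∈ (insert m U).filter (fun p => p < q), ‖u p‖ * ‖u q‖ =
        ∑ q ∈ U, ∑ p ∈ U.filter (fun p => p < q), ‖u p‖ * ‖u q‖ :=
      Finset.sum_congr rfl fun q hq => by rw [e2 q hq]
    rw [e3]
    calc _ ≤ ‖∏ p ∈ U, (1 - u p) - 1 + ∑ p ∈ U, u p‖ + ‖(∏ p ∈ U, (1 - u p) - 1) * u m‖ :=
          norm_sub_le _ _
      _ ≤ _ := by
          rw [norm_mul, add_comm]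
          refine add_le_add ?_ ih'
          rw [← Finset.sum_mul]
          exact mul_le_mul_of_nonneg_right h1 (norm_nonneg _)

/-- one step of the recursion, within a cell -/
theorem one_step {b t z0 j0 z : ℕ} (hb : 2 ≤ b) (hz0 : z0 ≤ z) (hzt : z ≤ t) (a : ℕ → ℂ)
    (v : ℕ → ℝ) {L I B : Finset ℕ}
    (hL : ∀ p ∈ L, p ≤ z) (hI : ∀ p ∈ I, z < p) (hB : ∀ q ∈ B, z < q ∧ q ≤ t)
    (hIB : ∀ p ∈ I, ∀ q ∈ B, p < q) (ha : ∀ p, ‖1 - a p‖ ≤ 1) :
    ‖∑ n ∈ cell b z0 t j0, FF b t a (L ∪ I ∪ B) n -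
      (1 - ∑ q ∈ B, a q * (v q : ℝ)) * ∑ n ∈ cell b z0 t j0, FF b t a (L ∪ I) n‖ ≤
      ∑ q ∈ B, ∑ p ∈ (I ∪ B).filter (fun p => p < q), ‖a p‖ * ‖a q‖ *
        (∑ n ∈ cell b z0 t j0, XX p (n / b ^ (t - p)) * XX q (n / b ^ (t - q))) +
      ∑ q ∈ B, ‖a q‖ * (∑ c ∈ cell b z0 z j0, |(cnt b z c q : ℝ) * (b : ℝ) ^ (t - q) -
        v q * (b : ℝ) ^ (t - z)|) +
      ‖∑ q ∈ B, a q * (v q : ℝ)‖ * ∑ p ∈ I, ‖a p‖ * ∑ n ∈ cell b z0 t j0, XX p (n / b ^ (t - p)) := by
  classical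
  set Ω := cell b z0 t j0 with hΩ
  set A : ℂ := ∑ q ∈ B, a q * (v q : ℝ) with hA
  set x : ℕ → ℕ → ℝ := fun p n => XX p (n / b ^ (t - p)) with hx
  have hx0 : ∀ p n, 0 ≤ x p n := fun p n => XX_nonneg _ _
  have hx1 : ∀ p n, x p n ≤ 1 := fun p n => XX_le_one _ _
  set SB : ℕ → ℂ := fun n => ∑ q ∈ B, a q * (x q n : ℝ) with hSB
  have hLI : Disjoint L I := by
    rw [Finset.disjoint_left]; intro p h1 h2
    have := hL p h1; have := hI p h2; omega
  have hLIB : Disjoint (L ∪ I) B := by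
    rw [Finset.disjoint_left]; intro p h1 h2
    rcases Finset.mem_union.1 h1 with h | h
    · have := hL p h; have := (hB p h2).1; omega
    · exact lt_irrefl p (hIB p h p h2)
  -- pointwise identity
  have hid : ∀ n, FF b t a (L ∪ I ∪ B) n - (1 - A) * FF b t a (L ∪ I) n =
      FF b t a (L ∪ I) n * (FF b t a B n - 1 + SB n) -
      FF b t a L n * (FF b t a I n - 1) * SB n + A * (FF b t a L n * (FF b t a I n - 1)) -
      FF b t a L n * (SB n - A) := by
    intro n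
    rw [FF_union hLIB, FF_union hLI]
    ring
  rw [Finset.mul_sum, ← Finset.sum_sub_distrib]
  simp only [hid]
  rw [Finset.sum_sub_distrib, Finset.sum_add_distrib, Finset.sum_sub_distrib]
  have hFn : ∀ (T : Finset ℕ) (n : ℕ), ‖FF b t a T n‖ ≤ 1 := fun T n => norm_FF_le (fun p _ => ha p) n
  have hax : ∀ p n, ‖1 - a p * (x p n : ℝ)‖ ≤ 1 := fun p n => norm_one_sub (ha p) (XX_or _ _)
  have hnx : ∀ p n, ‖a p * ((x p n : ℝ) : ℂ)‖ = ‖a p‖ * x p n := by
    intro p n
    rw [norm_mul, Complex.norm_real, Real.norm_of_nonneg (hx0 p n)]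
  -- T1
  have hT1 : ‖∑ n ∈ Ω, FF b t a (L ∪ I) n * (FF b t a B n - 1 + SB n)‖ ≤
      ∑ q ∈ B, ∑ p ∈ B.filter (fun p => p < q), ‖a p‖ * ‖a q‖ * ∑ n ∈ Ω, x p n * x q n := by
    calc _ ≤ ∑ n ∈ Ω, ∑ q ∈ B, ∑ p ∈ B.filter (fun p => p < q), ‖a p‖ * ‖a q‖ * (x p n * x q n) := by
          refine (norm_sum_le _ _).trans (Finset.sum_le_sum fun n _ => ?_)
          rw [norm_mul]
          have h1 := prod_two B (fun p => a p * (x p n : ℝ)) fun p _ => hax p n
          calc ‖FF b t a (L ∪ I) n‖ * ‖FF b t a B n - 1 + SB n‖ ≤ 1 * ‖FF b t a B n - 1 + SB n‖ :=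
                mul_le_mul_of_nonneg_right (hFn _ _) (norm_nonneg _)
            _ = ‖FF b t a B n - 1 + SB n‖ := one_mul _
            _ ≤ _ := h1
            _ = _ := by
                refine Finset.sum_congr rfl fun q _ => Finset.sum_congr rfl fun p _ => ?_
                rw [hnx, hnx]; ring
      _ = _ := by
          rw [Finset.sum_comm]
          refine Finset.sum_congr rfl fun q _ => ?_
          rw [Finset.sum_comm]
          refine Finset.sum_congr rfl fun p _ => ?_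
          rw [Finset.mul_sum]
  -- the difference of the products over `L ∪ I` and `L`
  have hdiff : ∀ n, ‖FF b t a L n * (FF b t a I n - 1)‖ ≤ ∑ p ∈ I, ‖a p‖ * x p n := by
    intro n
    rw [norm_mul]
    have h1 := prod_one I (fun p => a p * (x p n : ℝ)) fun p _ => hax p n
    calc ‖FF b t a L n‖ * ‖FF b t a I n - 1‖ ≤ 1 * ‖FF b t a I n - 1‖ :=
          mul_le_mul_of_nonneg_right (hFn _ _) (norm_nonneg _)
      _ = ‖FF b t a I n - 1‖ := one_mul _
      _ ≤ _ := h1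
      _ = _ := Finset.sum_congr rfl fun p _ => hnx p n
  have hSBn : ∀ n, ‖SB n‖ ≤ ∑ q ∈ B, ‖a q‖ * x q n := by
    intro n
    refine (norm_sum_le _ _).trans (le_of_eq ?_)
    exact Finset.sum_congr rfl fun p _ => hnx p n
  -- T2
  have hT2 : ‖∑ n ∈ Ω, FF b t a L n * (FF b t a I n - 1) * SB n‖ ≤
      ∑ q ∈ B, ∑ p ∈ I, ‖a p‖ * ‖a q‖ * ∑ n ∈ Ω, x p n * x q n := by
    calc _ ≤ ∑ n ∈ Ω, ∑ q ∈ B, ∑ p ∈ I, ‖a p‖ * ‖a q‖ * (x p n * x q n) := by
          refine (norm_sum_le _ _).trans (Finset.sum_le_sum fun n _ => ?_)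
          rw [norm_mul]
          calc _ ≤ (∑ p ∈ I, ‖a p‖ * x p n) * (∑ q ∈ B, ‖a q‖ * x q n) :=
                mul_le_mul (hdiff n) (hSBn n) (norm_nonneg _)
                  (Finset.sum_nonneg fun p _ => mul_nonneg (norm_nonneg _) (hx0 p n))
            _ = _ := by
                rw [Finset.sum_mul_sum, Finset.sum_comm]
                refine Finset.sum_congr rfl fun q _ => Finset.sum_congr rfl fun p _ => ?_
                ring
      _ = _ := by
          rw [Finset.sum_comm]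
          refine Finset.sum_congr rfl fun q _ => ?_
          rw [Finset.sum_comm]
          refine Finset.sum_congr rfl fun p _ => ?_
          rw [Finset.mul_sum]
  -- T3
  have hT3 : ‖∑ n ∈ Ω, A * (FF b t a L n * (FF b t a I n - 1))‖ ≤
      ‖A‖ * ∑ p ∈ I, ‖a p‖ * ∑ n ∈ Ω, x p n := by
    rw [← Finset.mul_sum, norm_mul]
    refine mul_le_mul_of_nonneg_left ?_ (norm_nonneg _)
    calc _ ≤ ∑ n ∈ Ω, ∑ p ∈ I, ‖a p‖ * x p n :=
          (norm_sum_le _ _).trans (Finset.sum_le_sum fun n _ => hdiff n)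
      _ = _ := by
          rw [Finset.sum_comm]
          refine Finset.sum_congr rfl fun p _ => ?_
          rw [Finset.mul_sum]
  -- T4
  have hT4 : ‖∑ n ∈ Ω, FF b t a L n * (SB n - A)‖ ≤
      ∑ q ∈ B, ‖a q‖ * (∑ c ∈ cell b z0 z j0, |(cnt b z c q : ℝ) * (b : ℝ) ^ (t - q) -
        v q * (b : ℝ) ^ (t - z)|) := by
    rw [hΩ, sum_cell' hz0 hzt]
    have hcell : ∀ c, ‖∑ n ∈ cell b z t c, FF b t a L n * (SB n - A)‖ ≤
        ∑ q ∈ B, ‖a q‖ * |(cnt b z c q : ℝ) * (b : ℝ) ^ (t - q) - v q * (b : ℝ) ^ (t - z)| := by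
      intro c
      -- `FF L` is constant in the cell
      have h1 : ∀ n ∈ cell b z t c, FF b t a L n = FF b z a L c := by
        intro n hn
        have h2 := Pool.Agent.N176.OW.div_of_mem_cell hb hn
        unfold FF
        refine Finset.prod_congr rfl fun p hp => ?_
        have h3 : n / b ^ (t - p) = c / b ^ (z - p) := by
          rw [← h2, Nat.div_div_eq_div_mul, ← pow_add]
          congr 2
          have := hL p hp
          omega
        rw [h3]
      have h2 : ∑ n ∈ cell b z t c, FF b t a L n * (SB n - A) =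
          FF b z a L c * ∑ n ∈ cell b z t c, (SB n - A) := by
        rw [Finset.mul_sum]
        exact Finset.sum_congr rfl fun n hn => by rw [h1 n hn]
      rw [h2, norm_mul]
      have h3 : ‖FF b z a L c‖ ≤ 1 := norm_FF_le (fun p _ => ha p) c
      have h4 : ∑ n ∈ cell b z t c, (SB n - A) = ∑ q ∈ B, a q *
          (((cnt b z c q : ℝ) * (b : ℝ) ^ (t - q) - v q * (b : ℝ) ^ (t - z) : ℝ) : ℂ) := by
        rw [Finset.sum_sub_distrib, Finset.sum_const, Pool.Agent.N176.OW.cell_card, hSB, Finset.sum_comm,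
          hA, nsmul_eq_mul, Finset.mul_sum, ← Finset.sum_sub_distrib]
        refine Finset.sum_congr rfl fun q hq => ?_
        have h5 : ∑ n ∈ cell b z t c, a q * ((x q n : ℝ) : ℂ) =
            a q * (((b : ℝ) ^ (t - q) * (cnt b z c q : ℝ) : ℝ) : ℂ) := by
          rw [← Finset.mul_sum]
          congr 1
          rw [← Pool.Agent.N176.GP.sum_one hb (hB q hq).1.le (hB q hq).2]
          push_cast
          rfl
        rw [h5]
        push_cast
        ring
      rw [h4]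
      calc _ ≤ 1 * ‖∑ q ∈ B, a q *
          (((cnt b z c q : ℝ) * (b : ℝ) ^ (t - q) - v q * (b : ℝ) ^ (t - z) : ℝ) : ℂ)‖ :=
            mul_le_mul_of_nonneg_right h3 (norm_nonneg _)
        _ ≤ _ := by
            rw [one_mul]
            refine (norm_sum_le _ _).trans (le_of_eq ?_)
            refine Finset.sum_congr rfl fun q _ => ?_
            rw [norm_mul, Complex.norm_real, Real.norm_eq_abs]
    calc _ ≤ ∑ c ∈ cell b z0 z j0, ∑ q ∈ B, ‖a q‖ * |(cnt b z c q : ℝ) * (b : ℝ) ^ (t - q) -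
          v q * (b : ℝ) ^ (t - z)| := (norm_sum_le _ _).trans (Finset.sum_le_sum fun c _ => hcell c)
      _ = _ := by
          rw [Finset.sum_comm]
          refine Finset.sum_congr rfl fun q _ => ?_
          rw [Finset.mul_sum]
  -- assembly
  have hpairs : ∑ q ∈ B, ∑ p ∈ (I ∪ B).filter (fun p => p < q), ‖a p‖ * ‖a q‖ *
        (∑ n ∈ Ω, x p n * x q n) =
      ∑ q ∈ B, ∑ p ∈ I, ‖a p‖ * ‖a q‖ * ∑ n ∈ Ω, x p n * x q n +
      ∑ q ∈ B, ∑ p ∈ B.filter (fun p => p < q), ‖a p‖ * ‖a q‖ * ∑ n ∈ Ω, x p n * x q n := by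
    rw [← Finset.sum_add_distrib]
    refine Finset.sum_congr rfl fun q hq => ?_
    rw [Finset.filter_union, Finset.sum_union]
    · congr 2
      exact Finset.filter_true_of_mem fun p hp => hIB p hp q hq
    · rw [Finset.disjoint_left]
      intro p h1 h2
      rw [mem_filter] at h1 h2
      exact lt_irrefl p (hIB p h1.1 p h2.1)
  have hpairs' := hpairs
  simp only [hx] at hpairs'
  rw [hpairs']
  calc _ ≤ ‖∑ n ∈ Ω, FF b t a (L ∪ I) n * (FF b t a B n - 1 + SB n)‖ +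
        ‖∑ n ∈ Ω, FF b t a L n * (FF b t a I n - 1) * SB n‖ +
        ‖∑ n ∈ Ω, A * (FF b t a L n * (FF b t a I n - 1))‖ +
        ‖∑ n ∈ Ω, FF b t a L n * (SB n - A)‖ := by
        refine (norm_sub_le _ _).trans ?_
        gcongr
        refine (norm_add_le _ _).trans ?_
        gcongr
        exact norm_sub_le _ _
    _ ≤ _ := by
        have := hT1
        have := hT2
        have := hT3
        have := hT4
        linarith

end Pool.Agent.H32x.PL
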