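import Mathlib
import Pool.Agent.N176.GP.Pair

set_option autoImplicit false

/-!
# Integers with prime rough part in short intervals: upper bound
-/

namespace Pool.Agent.H32x.PL

open Finset Filter Topology
open Pool.Agent.N176.GP (cnt grow)
open Pool.Agent.H305R2 (roughPart roughPart_prime roughPart_mul SM SM_pos SMz mem_SMz VV ZZ VV_nonneg
  ZZ_nonneg ZZ_le_exp VV_tendsto sum_le_VV sum_rough_eq log_nat_tendsto count_inner tail_le)
open Pool.Agent.W66 (VV_le_log)

/-- a smooth number has a divisor of medium size -/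
lemma smooth_div {q s : ℕ} (hq1 : 1 ≤ q) (hs : s ∈ SM q) {S : ℝ} (hS : 1 ≤ S) (hSs : S ≤ s) :
    ∃ d, d ∣ s ∧ d ∈ SM q ∧ S ≤ d ∧ (d : ℝ) ≤ S * q := by
  classical
  have hs0 := SM_pos hs
  have hex : ∃ d, d ∣ s ∧ S ≤ (d : ℝ) := ⟨s, dvd_rfl, hSs⟩
  obtain ⟨hd1, hd2⟩ := Nat.find_spec hex
  set d := Nat.find hex with hd
  have hd0 : 0 < d := Nat.pos_of_dvd_of_pos hd1 hs0
  have hdS : d ∈ SM q := by
    unfold SM at hs ⊢
    rw [Nat.mem_smoothNumbers] at hs ⊢
    refine ⟨hd0.ne', fun p hp => hs.2 p ?_⟩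
    rw [Nat.mem_primeFactorsList hd0.ne'] at hp
    rw [Nat.mem_primeFactorsList hs0.ne']
    exact ⟨hp.1, hp.2.trans hd1⟩
  refine ⟨d, hd1, hdS, hd2, ?_⟩
  rcases Nat.lt_or_ge 1 d with h1 | h1
  · -- prime factor
    obtain ⟨r, hr, hrd⟩ := Nat.exists_prime_and_dvd (show d ≠ 1 by omega)
    have hrq : r ≤ q := by
      unfold SM at hdS
      rw [Nat.mem_smoothNumbers] at hdS
      have := hdS.2 r ((Nat.mem_primeFactorsList hd0.ne').2 ⟨hr, hrd⟩)
      omega
    obtain ⟨e, he⟩ := hrd
    have hed : e < d := by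
      have hr2 := hr.two_le
      have he0 : 0 < e := by
        rcases Nat.eq_zero_or_pos e with h | h
        · rw [h] at he; omega
        · exact h
      nlinarith
    have hes : e ∣ s := (Dvd.intro_left r he.symm).trans hd1
    have h2 := Nat.find_min hex hed
    have h3 : (e : ℝ) < S := by
      by_contra h
      exact h2 ⟨hes, not_lt.1 h⟩
    have h4 : (d : ℝ) = r * e := by exact_mod_cast he
    rw [h4]
    have h5 : (r : ℝ) ≤ q := by exact_mod_cast hrq
    have h6 : (0 : ℝ) ≤ e := Nat.cast_nonneg _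
    have h7 : (0 : ℝ) ≤ r := Nat.cast_nonneg _
    nlinarith
  · have : d = 1 := by omega
    rw [this] at hd2 ⊢
    have hq : (1 : ℝ) ≤ q := by exact_mod_cast hq1
    push_cast
    nlinarith

/-- multiples of `d` in an interval -/
lemma card_mult (A H d : ℕ) (hA : 1 ≤ A) (hd : 0 < d) :
    (((Ico A (A + H)).filter (fun n => d ∣ n)).card : ℝ) ≤ (H : ℝ) * (d : ℝ)⁻¹ + 1 := by
  classical
  have hsub : (Ico A (A + H)).filter (fun n => d ∣ n) ⊆
      (Ioc ((A - 1) / d) ((A + H - 1) / d)).image (fun k => k * d) := by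
    intro n hn
    rw [mem_filter, mem_Ico] at hn
    obtain ⟨⟨h1, h2⟩, k, hk⟩ := hn
    rw [mem_image]
    refine ⟨k, ?_, by rw [hk, mul_comm]⟩
    rw [mem_Ioc, Nat.div_lt_iff_lt_mul hd, Nat.le_div_iff_mul_le hd, mul_comm k d, ← hk]
    omega
  have h1 : (((Ico A (A + H)).filter (fun n => d ∣ n)).card : ℝ) ≤
      (((A + H - 1) / d - (A - 1) / d : ℕ) : ℝ) := by
    have := (Finset.card_le_card hsub).trans Finset.card_image_le
    rw [Nat.card_Ioc] at this
    exact_mod_cast this
  refine h1.trans ?_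
  have hd0 : (0 : ℝ) < d := by exact_mod_cast hd
  have h2 : (A - 1) / d ≤ (A + H - 1) / d := Nat.div_le_div_right (by omega)
  rw [Nat.cast_sub h2]
  have h3 : (((A + H - 1) / d : ℕ) : ℝ) ≤ ((A + H - 1 : ℕ) : ℝ) / d := Nat.cast_div_le
  have h4 : ((A - 1 : ℕ) : ℝ) / d < (((A - 1) / d : ℕ) : ℝ) + 1 := by
    rw [div_lt_iff₀ hd0]
    have := Nat.lt_mul_div_succ (A - 1) hd
    have h6 : ((A - 1 : ℕ) : ℝ) < ((d * ((A - 1) / d + 1) : ℕ) : ℝ) := by exact_mod_cast this
    push_cast at h6 ⊢
    linarith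
  have h5 : ((A + H - 1 : ℕ) : ℝ) = ((A - 1 : ℕ) : ℝ) + H := by
    have : A + H - 1 = (A - 1) + H := by omega
    rw [this]; push_cast; ring
  rw [h5, add_div] at h3
  rw [← div_eq_mul_inv]
  linarith

theorem up_int {c : ℝ} (hc : 0 < c) : ∃ C : ℝ, 0 < C ∧ ∃ P : ℕ, ∀ q ≥ P, ∀ A H : ℕ, 1 ≤ A →
    Real.exp (c * q) ≤ H →
    (((Ico A (A + H)).filter (fun n => (roughPart q n).Prime)).card : ℝ) ≤
      C * (Real.log q / q) * H := by
  classical
  obtain ⟨C0, hC01, hBT⟩ := Pool.Agent.Helper601.brun_titchmarsh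
  obtain ⟨C1, hC1, hV⟩ := VV_le_log
  obtain ⟨P, hP⟩ := ((ZZ_le_exp (c := c / 16) (by positivity)).and (hV.and
    ((grow (c / 16) 1 (by positivity)).and
    ((log_nat_tendsto.eventually_ge_atTop 1).and (eventually_ge_atTop 2))))).exists_forall_of_atTop
  refine ⟨4 * C0 * C1 / c + 2, by positivity, P, fun p hp A H hA1 hHc => ?_⟩
  obtain ⟨hZ, hVp, hg, hlog1, hp2⟩ := hP p hp
  have hp2r : (2 : ℝ) ≤ p := by exact_mod_cast hp2
  have hp0 : (0 : ℝ) < p := by linarith
  have hH0 : (0 : ℝ) < H := lt_of_lt_of_le (Real.exp_pos _) hHc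
  have hHpos : 0 < H := by exact_mod_cast hH0
  set B := A + H - 1 with hB
  set S := Real.exp (Real.log H / 2) with hS
  have hS0 : 0 < S := Real.exp_pos _
  have hSS : S * S = H := by rw [hS, ← Real.exp_add, add_halves, Real.exp_log hH0]
  have hlogH : c * p ≤ Real.log H := by
    rw [Real.le_log_iff_exp_le hH0]; exact hHc
  have hS1 : (1 : ℝ) ≤ S := Real.one_le_exp (by
    have : 0 ≤ c * p := by positivity
    linarith)
  have e : Ico A (A + H) = Ioc (A - 1) B := by
    ext x
    rw [mem_Ico, mem_Ioc]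
    omega
  have hdiv : ∀ s q : ℕ, s ∈ SM p → q.Prime → p < q → s * q / roughPart p (s * q) = s := by
    intro s q hs hq hpq
    rw [roughPart_mul hs hq hpq, Nat.mul_div_cancel _ hq.pos]
  -- the part with a small smooth factor
  have h1 : (((Ioc (A - 1) B).filter (fun n => (roughPart p n).Prime ∧
      ((n / roughPart p n : ℕ) : ℝ) < S)).card : ℝ) ≤ 4 * C0 * H / (p * c) * VV p := by
    have h2 : (((Ioc (A - 1) B).filter (fun n => (roughPart p n).Prime ∧
      ((n / roughPart p n : ℕ) : ℝ) < S)).card : ℝ) =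
        ∑ m ∈ (Ioc (A - 1) B).filter (fun m => (roughPart p m).Prime),
          (if ((m / roughPart p m : ℕ) : ℝ) < S then (1 : ℝ) else 0) := by
      rw [← Finset.sum_filter, Finset.filter_filter, Finset.sum_const, nsmul_eq_mul, mul_one]
    rw [h2, sum_rough_eq]
    calc _ ≤ ∑ s ∈ (SMz p (B : ℝ)).filter (fun s : ℕ => (s : ℝ) < S), 4 * C0 * H / (p * c) * (s : ℝ)⁻¹ := by
          rw [Finset.sum_filter]
          refine Finset.sum_le_sum fun s hs => ?_
          have hs' := (mem_SMz (Nat.cast_nonneg _)).1 hs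
          have hsn := SM_pos hs'.1
          have hs0 : (0 : ℝ) < s := by exact_mod_cast hsn
          have h3 : ∀ q ∈ (Ioc ((A - 1) / s) (B / s)).filter (fun q => q.Prime ∧ p < q),
              (if ((s * q / roughPart p (s * q) : ℕ) : ℝ) < S then (1 : ℝ) else 0) =
              if (s : ℝ) < S then (1 : ℝ) else 0 := by
            intro q hq
            rw [mem_filter] at hq
            rw [hdiv s q hs'.1 hq.2.1 hq.2.2]
          rw [Finset.sum_congr rfl h3]
          split_ifs with hsS
          · rw [Finset.sum_const, nsmul_eq_mul, mul_one]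
            have hD : B - (A - 1) = H := by omega
            obtain ⟨_, hc2⟩ := count_inner hBT p (A - 1) B s hsn (by omega)
            rw [hD] at hc2
            have hHs : S ≤ (H : ℝ) / s := by
              rw [le_div_iff₀ hs0, ← hSS]
              exact mul_le_mul_of_nonneg_left hsS.le hS0.le
            have hHs1 : 1 ≤ H / s := by
              rw [Nat.one_le_div_iff hsn]
              have : (1 : ℝ) ≤ (H : ℝ) / s := hS1.trans hHs
              rw [le_div_iff₀ hs0, one_mul] at this
              exact_mod_cast this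
            refine (hc2 (by omega)).trans ?_
            have hup : ((H / s + 1 : ℕ) : ℝ) ≤ 2 * (H / s) := by
              push_cast
              have := @Nat.cast_div_le ℝ _ _ _ H s
              have : (1 : ℝ) ≤ (H : ℝ) / s := hS1.trans hHs
              linarith
            have hlow : S ≤ ((H / s + 1 : ℕ) : ℝ) := by
              have h5 : (H : ℝ) / s < ((H / s : ℕ) : ℝ) + 1 := by
                rw [div_lt_iff₀ hs0]
                have := Nat.lt_mul_div_succ H hsn
                have h6 : (H : ℝ) < ((s * (H / s + 1) : ℕ) : ℝ) := by exact_mod_cast this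
                push_cast at h6
                linarith
              push_cast
              linarith
            have hlog : (p : ℝ) * c / 2 ≤ Real.log ((H / s + 1 : ℕ) : ℝ) := by
              calc (p : ℝ) * c / 2 ≤ Real.log H / 2 := by nlinarith
                _ = Real.log S := by rw [hS, Real.log_exp]
                _ ≤ _ := Real.log_le_log hS0 hlow
            have hpL : 0 < (p : ℝ) * c / 2 := by positivity
            calc C0 * ((H / s + 1 : ℕ) : ℝ) / Real.log ((H / s + 1 : ℕ) : ℝ) ≤
                C0 * (2 * (H / s)) / ((p : ℝ) * c / 2) := by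
                  gcongr
              _ = _ := by field_simp; ring
          · simp
      _ = 4 * C0 * H / (p * c) * ∑ s ∈ (SMz p (B : ℝ)).filter (fun s : ℕ => (s : ℝ) < S), (s : ℝ)⁻¹ := by
          rw [Finset.mul_sum]
      _ ≤ _ := by
          refine mul_le_mul_of_nonneg_left ?_ (by positivity)
          refine sum_le_VV p _ fun s hs => ?_
          rw [mem_filter, mem_SMz (Nat.cast_nonneg _)] at hs
          exact hs.1.1
  have hlp : (p : ℝ)⁻¹ ≤ Real.log p / p := by
    rw [div_eq_mul_inv]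
    have : 0 < (p : ℝ)⁻¹ := by positivity
    nlinarith
  have h2 : (((Ioc (A - 1) B).filter (fun n => (roughPart p n).Prime ∧
      S ≤ ((n / roughPart p n : ℕ) : ℝ))).card : ℝ) ≤ 2 * H * (Real.log p / p) := by
    set D := (SMz p (S * p)).filter (fun d : ℕ => S ≤ (d : ℝ)) with hD
    have hDm : ∀ d ∈ D, d ∈ SM p ∧ S ≤ (d : ℝ) := by
      intro n hn
      rw [hD, mem_filter, mem_SMz (by positivity)] at hn
      exact ⟨hn.1.1, hn.2⟩
    have hsub : (Ioc (A - 1) B).filter (fun n => (roughPart p n).Prime ∧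
        S ≤ ((n / roughPart p n : ℕ) : ℝ)) ⊆ D.biUnion (fun d => (Ico A (A + H)).filter (fun n => d ∣ n)) := by
      intro n hn
      rw [mem_filter] at hn
      obtain ⟨hn1, hpr, hSm⟩ := hn
      obtain ⟨_, s, hs, he⟩ := roughPart_prime hpr
      have hdiv : n / roughPart p n = s := Nat.div_eq_of_eq_mul_left hpr.pos he
      rw [hdiv] at hSm
      obtain ⟨d, hd1, hd2, hd3, hd4⟩ := smooth_div (by omega) hs hS1 hSm
      rw [mem_biUnion]
      refine ⟨d, ?_, ?_⟩
      · rw [hD, mem_filter, mem_SMz (by positivity)]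
        exact ⟨⟨hd2, hd4⟩, hd3⟩
      · rw [mem_filter, e]
        exact ⟨hn1, hd1.trans ⟨_, he⟩⟩
    have hcardD : (D.card : ℝ) ≤ S * p := by
      have : D ⊆ Icc 1 ⌊S * p⌋₊ := by
        intro d hd
        rw [hD, mem_filter] at hd
        unfold SMz at hd
        rw [mem_filter] at hd
        exact hd.1.1
      calc (D.card : ℝ) ≤ ((Icc 1 ⌊S * p⌋₊).card : ℝ) := by exact_mod_cast Finset.card_le_card this
        _ = (⌊S * p⌋₊ : ℝ) := by rw [Nat.card_Icc]; simp
        _ ≤ S * p := Nat.floor_le (by positivity)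
    calc _ ≤ ((D.biUnion (fun d => (Ico A (A + H)).filter (fun n => d ∣ n))).card : ℝ) := by
          exact_mod_cast Finset.card_le_card hsub
      _ ≤ ∑ d ∈ D, (((Ico A (A + H)).filter (fun n => d ∣ n)).card : ℝ) := by
          exact_mod_cast Finset.card_biUnion_le
      _ ≤ ∑ d ∈ D, ((H : ℝ) * (d : ℝ)⁻¹ + 1) := Finset.sum_le_sum fun d hd =>
          card_mult A H d hA1 (SM_pos (hDm d hd).1)
      _ = H * ∑ d ∈ D, (d : ℝ)⁻¹ + D.card := by
          rw [Finset.sum_add_distrib, ← Finset.mul_sum, Finset.sum_const, nsmul_eq_mul, mul_one]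
      _ ≤ H * (S ^ (-(1 / 2) : ℝ) * ZZ p) + S * p := by
          gcongr
          exact tail_le p hS0 D hDm
      _ ≤ H * (Real.log p / p) + H * (Real.log p / p) := by
          have hexp : Real.exp (-(c / 16 * p)) * (p : ℝ) ^ 2 ≤ 1 := by
            rw [Real.exp_neg, inv_mul_le_iff₀ (Real.exp_pos _)]
            linarith
          have hsm : Real.exp (-(c / 16 * p)) ≤ Real.log p / p := by
            refine le_trans ?_ hlp
            rw [← one_div, le_div_iff₀ hp0]
            refine le_trans ?_ hexp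
            have := Real.exp_pos (-(c / 16 * p))
            have : (p : ℝ) ≤ (p : ℝ) ^ 2 := by nlinarith
            gcongr
          gcongr ?_ + ?_
          · refine mul_le_mul_of_nonneg_left ?_ hH0.le
            refine le_trans ?_ hsm
            rw [hS, ← Real.exp_mul]
            calc Real.exp (Real.log H / 2 * -(1 / 2)) * ZZ p ≤
                Real.exp (Real.log H / 2 * -(1 / 2)) * Real.exp (c / 16 * p) := by gcongr
              _ = Real.exp (Real.log H / 2 * -(1 / 2) + c / 16 * p) := (Real.exp_add _ _).symm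
              _ ≤ Real.exp (-(c / 16 * p)) := by
                  rw [Real.exp_le_exp]
                  nlinarith
          · -- S p ≤ H * (log p / p)
            have h5 : S * p ≤ H * (p : ℝ)⁻¹ := by
              rw [← hSS, mul_assoc]
              refine mul_le_mul_of_nonneg_left ?_ hS0.le
              rw [← div_eq_mul_inv, le_div_iff₀ hp0]
              have h6 : (p : ℝ) ^ 2 ≤ Real.exp (c / 16 * p) := by linarith
              calc (p : ℝ) * p = (p : ℝ) ^ 2 := by ring
                _ ≤ Real.exp (c / 16 * p) := h6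
                _ ≤ S := by
                    rw [hS, Real.exp_le_exp]
                    nlinarith
            exact h5.trans (mul_le_mul_of_nonneg_left hlp hH0.le)
      _ = _ := by ring
  have h3 : (((Ico A (A + H)).filter (fun n => (roughPart p n).Prime)).card : ℝ) ≤
      4 * C0 * H / (p * c) * VV p + 2 * H * (Real.log p / p) := by
    rw [e]
    have hsub : (Ioc (A - 1) B).filter (fun n => (roughPart p n).Prime) ⊆
        (Ioc (A - 1) B).filter (fun n => (roughPart p n).Prime ∧ ((n / roughPart p n : ℕ) : ℝ) < S) ∪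
        (Ioc (A - 1) B).filter (fun n => (roughPart p n).Prime ∧ S ≤ ((n / roughPart p n : ℕ) : ℝ)) := by
      intro n hn
      rw [mem_filter] at hn
      rw [mem_union, mem_filter, mem_filter]
      rcases lt_or_ge ((n / roughPart p n : ℕ) : ℝ) S with h | h
      · left; exact ⟨hn.1, hn.2, h⟩
      · right; exact ⟨hn.1, hn.2, h⟩
    have h4 := (Finset.card_le_card hsub).trans (Finset.card_union_le _ _)
    have h5 : (((Ioc (A - 1) B).filter (fun n => (roughPart p n).Prime)).card : ℝ) ≤
        (((Ioc (A - 1) B).filter (fun n => (roughPart p n).Prime ∧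
          ((n / roughPart p n : ℕ) : ℝ) < S)).card : ℝ) +
        (((Ioc (A - 1) B).filter (fun n => (roughPart p n).Prime ∧
          S ≤ ((n / roughPart p n : ℕ) : ℝ))).card : ℝ) := by exact_mod_cast h4
    linarith
  calc _ ≤ _ := h3
    _ ≤ 4 * C0 * H / (p * c) * (C1 * Real.log p) + 2 * H * (Real.log p / p) := by gcongr
    _ = _ := by field_simp

/-- upper bound in all cells of level up to half the exponent -/
theorem up {b : ℕ} (hb : 2 ≤ b) : ∃ C : ℝ, 0 < C ∧ ∃ P : ℕ, ∀ q ≥ P, ∀ z : ℕ, 2 * z ≤ q →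
    ∀ j : ℕ, 1 ≤ j → (cnt b z j q : ℝ) ≤ C * (Real.log q / q) * (b : ℝ) ^ (q - z) := by
  have hL0 : 0 < Real.log b := Real.log_pos (by exact_mod_cast hb)
  obtain ⟨C, hC, P, hP⟩ := up_int (c := Real.log b / 2) (by positivity)
  refine ⟨C, hC, P, fun q hq z hz j hj => ?_⟩
  have h1 : 1 ≤ j * b ^ (q - z) := Nat.mul_pos hj (by positivity)
  have hzr : (2 : ℝ) * z ≤ q := by exact_mod_cast hz
  have h2 := hP q hq (j * b ^ (q - z)) (b ^ (q - z)) h1 (by
    push_cast
    rw [Pool.Agent.N176.GP.bexp hb, Nat.cast_sub (by omega), Real.exp_le_exp]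
    nlinarith)
  unfold cnt
  have e : (j + 1) * b ^ (q - z) = j * b ^ (q - z) + b ^ (q - z) := by ring
  rw [e]
  push_cast at h2 ⊢
  exact h2

end Pool.Agent.H32x.PL
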