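import Mathlib
import Pool.Agent.H32x.PL.Up
import Pool.Agent.H32x.PL.Step

set_option autoImplicit false

/-!
# One and two exponents in a cell
-/

namespace Pool.Agent.H32x.PL

open Finset Filter Topology
open Pool.Agent.N176.GP (cnt XX XX_nonneg cnt_eq cell_pair sum_one sum_two)
open Pool.Agent.N176.OW (cell)
open Pool.Agent.H305R2 (roughPart)

theorem cell_one_two {b : ℕ} (hb : 2 ≤ b) : ∃ C : ℝ, 0 < C ∧ ∃ P : ℕ, ∀ z j : ℕ, 1 ≤ j →
    j ≤ b ^ (2 * z) → ∀ p ≥ P, 32 * z ≤ p → ∀ t ≥ p,
    (∑ n ∈ cell b z t j, XX p (n / b ^ (t - p)) ≤ C * (Real.log p / p) * (b : ℝ) ^ (t - z)) ∧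
    ∀ q > p, q ≤ t → ∑ n ∈ cell b z t j, XX p (n / b ^ (t - p)) * XX q (n / b ^ (t - q)) ≤
      C * (Real.log p / p * (Real.log q / q) + Real.log p / p / (b : ℝ) ^ (q - p)) * (b : ℝ) ^ (t - z) := by
  obtain ⟨C1, hC1, P1, hup⟩ := up hb
  obtain ⟨C2, hC2, P2, hpair⟩ := cell_pair hb
  refine ⟨C1 + C1 * C1 + 2 * C2, by positivity, max P1 (max P2 2), ?_⟩
  intro z j hj1 hj2 p hp hzp t ht
  have hp1 : P1 ≤ p := (le_max_left _ _).trans hp
  have hp2 : P2 ≤ p := ((le_max_left _ _).trans (le_max_right _ _)).trans hp
  have hp3 : 2 ≤ p := ((le_max_right _ _).trans (le_max_right _ _)).trans hp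
  have hb0 : (0 : ℝ) < b := by positivity
  have hp0 : (0 : ℝ) < p := by
    have : 0 < p := by omega
    exact_mod_cast this
  have hwp : 0 ≤ Real.log p / p := by
    have := Real.log_natCast_nonneg p
    positivity
  have hone : (cnt b z j p : ℝ) ≤ C1 * (Real.log p / p) * (b : ℝ) ^ (p - z) :=
    hup p hp1 z (by omega) j hj1
  constructor
  · unfold cell
    rw [sum_one hb (by omega) ht]
    have e : (b : ℝ) ^ (t - z) = (b : ℝ) ^ (t - p) * (b : ℝ) ^ (p - z) := by
      rw [← pow_add]; congr 1; omega
    calc (b : ℝ) ^ (t - p) * (cnt b z j p : ℝ) ≤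
          (b : ℝ) ^ (t - p) * (C1 * (Real.log p / p) * (b : ℝ) ^ (p - z)) :=
          mul_le_mul_of_nonneg_left hone (by positivity)
      _ = C1 * (Real.log p / p) * (b : ℝ) ^ (t - z) := by rw [e]; ring
      _ ≤ _ := by
          gcongr
          nlinarith
  · intro q hpq hqt
    have hq0 : (0 : ℝ) < q := by
      have : 0 < q := by omega
      exact_mod_cast this
    have hwq : 0 ≤ Real.log q / q := by
      have := Real.log_natCast_nonneg q
      positivity
    unfold cell
    rw [sum_two hb (by omega) hpq.le hqt]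
    have e : (b : ℝ) ^ (t - z) = (b : ℝ) ^ (t - q) * (b : ℝ) ^ (q - z) := by
      rw [← pow_add]; congr 1; omega
    have key : ∑ n ∈ Ico (j * b ^ (q - z)) ((j + 1) * b ^ (q - z)), XX p (n / b ^ (q - p)) * XX q n ≤
        (C1 + C1 * C1 + 2 * C2) * (Real.log p / p * (Real.log q / q) +
          Real.log p / p / (b : ℝ) ^ (q - p)) * (b : ℝ) ^ (q - z) := by
      rcases le_or_gt q (2 * p) with h | h
      · have h1 := hpair p hp2 (q - p) (by omega) (by omega) z hzp j hj1 hj2
        have e1 : p + (q - p) = q := by omega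
        rw [e1] at h1
        refine h1.trans ?_
        have hcmp : Real.log p / p ≤ 2 * (Real.log q / q) := by
          have hlq : Real.log p ≤ Real.log q := Real.log_le_log hp0 (by exact_mod_cast hpq.le)
          have hlp0 := Real.log_natCast_nonneg p
          have h2p : (q : ℝ) ≤ 2 * p := by exact_mod_cast h
          have : 2 * (Real.log q / q) = Real.log q / (q / 2) := by field_simp
          rw [this]
          exact div_le_div₀ (hlp0.trans hlq) hlq (by positivity) (by linarith)
        have hsq : (Real.log p / p) ^ 2 ≤ 2 * (Real.log p / p * (Real.log q / q)) := by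
          calc (Real.log p / p) ^ 2 = Real.log p / p * (Real.log p / p) := sq _
            _ ≤ Real.log p / p * (2 * (Real.log q / q)) := mul_le_mul_of_nonneg_left hcmp hwp
            _ = _ := by ring
        have hinv : ((b : ℝ) ^ (q - p))⁻¹ * (Real.log p / p) = Real.log p / p / (b : ℝ) ^ (q - p) := by
          rw [div_eq_mul_inv _ ((b : ℝ) ^ (q - p))]; ring
        rw [hinv]
        have hr0 : 0 ≤ Real.log p / p / (b : ℝ) ^ (q - p) := by positivity
        have hr1 : 0 ≤ Real.log p / p * (Real.log q / q) := by positivity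
        refine mul_le_mul_of_nonneg_right ?_ (by positivity)
        calc C2 * ((Real.log p / p) ^ 2 + Real.log p / p / (b : ℝ) ^ (q - p)) ≤
              C2 * (2 * (Real.log p / p * (Real.log q / q)) + 2 * (Real.log p / p / (b : ℝ) ^ (q - p))) := by
              refine mul_le_mul_of_nonneg_left ?_ hC2.le
              linarith
          _ = 2 * C2 * (Real.log p / p * (Real.log q / q) + Real.log p / p / (b : ℝ) ^ (q - p)) := by ring
          _ ≤ _ := by
              refine mul_le_mul_of_nonneg_right ?_ (by positivity)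
              nlinarith
      · -- far
        have e1 : b ^ (q - z) = b ^ (p - z) * b ^ (q - p) := by rw [← pow_add]; congr 1; omega
        rw [e1, ← mul_assoc, ← mul_assoc, sum_cells' _ _ _ (Nat.mul_le_mul_right _ (Nat.le_succ j))]
        have hin : ∀ m ∈ Ico (j * b ^ (p - z)) ((j + 1) * b ^ (p - z)),
            ∑ n ∈ Ico (m * b ^ (q - p)) ((m + 1) * b ^ (q - p)), XX p (n / b ^ (q - p)) * XX q n ≤
            XX p m * (C1 * (Real.log q / q) * (b : ℝ) ^ (q - p)) := by
          intro m hm
          have hm1 : 1 ≤ m := by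
            rw [mem_Ico] at hm
            have : 1 ≤ j * b ^ (p - z) := Nat.mul_pos hj1 (by positivity)
            omega
          have h1 : ∀ n ∈ Ico (m * b ^ (q - p)) ((m + 1) * b ^ (q - p)),
              XX p (n / b ^ (q - p)) * XX q n = XX p m * XX q n := by
            intro n hn
            have := Pool.Agent.N176.OW.div_of_mem_cell hb (z := p) (t := q) (j := m) (n := n) hn
            rw [this]
          rw [Finset.sum_congr rfl h1, ← Finset.mul_sum, ← cnt_eq]
          exact mul_le_mul_of_nonneg_left (hup q (by omega) p (by omega) m hm1) (XX_nonneg _ _)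
        refine (Finset.sum_le_sum hin).trans ?_
        rw [← Finset.sum_mul, ← cnt_eq]
        have e2 : ((b ^ (q - z) : ℕ) : ℝ) = ((b ^ (p - z) * b ^ (q - p) : ℕ) : ℝ) := by rw [e1]
        push_cast at e2
        have hr0 : 0 ≤ Real.log p / p / (b : ℝ) ^ (q - p) := by positivity
        have hr1 : 0 ≤ Real.log p / p * (Real.log q / q) := by positivity
        calc (cnt b z j p : ℝ) * (C1 * (Real.log q / q) * (b : ℝ) ^ (q - p)) ≤
              (C1 * (Real.log p / p) * (b : ℝ) ^ (p - z)) * (C1 * (Real.log q / q) * (b : ℝ) ^ (q - p)) :=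
              mul_le_mul_of_nonneg_right hone (by positivity)
          _ = C1 * C1 * (Real.log p / p * (Real.log q / q)) * (b : ℝ) ^ (q - z) := by rw [e2]; ring
          _ ≤ _ := by
              refine mul_le_mul_of_nonneg_right ?_ (by positivity)
              calc C1 * C1 * (Real.log p / p * (Real.log q / q)) ≤
                    (C1 + C1 * C1 + 2 * C2) * (Real.log p / p * (Real.log q / q)) :=
                    mul_le_mul_of_nonneg_right (by linarith) hr1
                _ ≤ _ := mul_le_mul_of_nonneg_left (by linarith) (by positivity)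
    calc _ ≤ (b : ℝ) ^ (t - q) * ((C1 + C1 * C1 + 2 * C2) * (Real.log p / p * (Real.log q / q) +
          Real.log p / p / (b : ℝ) ^ (q - p)) * (b : ℝ) ^ (q - z)) :=
          mul_le_mul_of_nonneg_left key (by positivity)
      _ = _ := by rw [e]; ring

end Pool.Agent.H32x.PL
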