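import Mathlib
import Pool.Agent.H32x.PL.Two

set_option autoImplicit false

/-!
# The generating function of the exponents in a cell
-/

namespace Pool.Agent.H32x.PL

open Finset Filter Topology
open Pool.Agent.N176.GP (cnt XX XX_nonneg cnt_eq)
open Pool.Agent.N176.OW (cell kap VT TL TB cell_card VT_nonneg)
open Pool.Agent.H305R2 (roughPart)

/-- excess of the deviation of the relative number of `q`-hits in the cell `c` of level `z` -/
noncomputable def Exs (b : ℕ) (K : ℝ) (z c q : ℕ) : ℝ :=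
  max 0 (|(cnt b z c q : ℝ) / (b : ℝ) ^ (q - z) -
    Real.exp Real.eulerMascheroniConstant / Real.log b * (Real.log q / q)| - K / q)

lemma Exs_nonneg (b : ℕ) (K : ℝ) (z c q : ℕ) : 0 ≤ Exs b K z c q := le_max_left _ _

/-- mean excess over the subcells of the cell `j0` of level `z0` -/
noncomputable def EXC (b k1 : ℕ) (K : ℝ) (z0 j0 i0 J : ℕ) (T : Finset ℕ) : ℝ :=
  ∑ i ∈ Ico i0 J, ∑ q ∈ TB T i, (∑ c ∈ cell b z0 (2 ^ (i + 1 - k1)) j0, Exs b K (2 ^ (i + 1 - k1)) c q) /
    (b : ℝ) ^ (2 ^ (i + 1 - k1) - z0)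

/-- sum over close pairs -/
noncomputable def CP (b : ℕ) (T : Finset ℕ) : ℝ :=
  ∑ q ∈ T, ∑ p ∈ T.filter (fun p => p < q), Real.log p / p / (b : ℝ) ^ (q - p)

lemma w_nonneg (p : ℕ) : 0 ≤ Real.log p / p := by
  have := Real.log_natCast_nonneg p
  positivity

lemma kap_nonneg (b : ℕ) : 0 ≤ kap b := by
  unfold kap
  have := Real.log_natCast_nonneg b
  positivity

lemma re_nonneg_of {z : ℂ} (h : ‖1 - z‖ ≤ 1) : 0 ≤ z.re := by
  have h1 := (Complex.abs_re_le_norm (1 - z)).trans h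
  rw [Complex.sub_re, Complex.one_re, abs_le] at h1
  linarith

lemma TL_succ {T : Finset ℕ} (i : ℕ) : TL T (i + 1) = TL T i ∪ TB T i := by
  ext p
  unfold TL TB
  simp only [mem_filter, mem_union]
  have h1 : 2 ^ i ≤ 2 ^ (i + 1) := Nat.pow_le_pow_right (by norm_num) (by omega)
  constructor
  · rintro ⟨h2, h3⟩
    rcases le_or_gt p (2 ^ i) with h | h
    · exact Or.inl ⟨h2, h⟩
    · exact Or.inr ⟨h2, h, h3⟩
  · rintro (⟨h2, h3⟩ | ⟨h2, h3, h4⟩)
    · exact ⟨h2, by omega⟩
    · exact ⟨h2, h4⟩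

lemma TL_disj {T : Finset ℕ} (i : ℕ) : Disjoint (TL T i) (TB T i) := by
  rw [Finset.disjoint_left]
  intro p h1 h2
  unfold TL at h1
  unfold TB at h2
  rw [mem_filter] at h1 h2
  omega

lemma sum_blocks {M : Type*} [AddCommMonoid M] (T : Finset ℕ) (i0 : ℕ) (f : ℕ → M)
    (hT : ∀ p ∈ T, 2 ^ i0 < p) : ∀ J, i0 ≤ J → (∀ p ∈ T, p ≤ 2 ^ J) →
    ∑ i ∈ Ico i0 J, ∑ q ∈ TB T i, f q = ∑ q ∈ T, f q := by
  have h : ∀ J, i0 ≤ J → ∑ i ∈ Ico i0 J, ∑ q ∈ TB T i, f q = ∑ q ∈ TL T J, f q := by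
    intro J hJ
    induction J, hJ using Nat.le_induction with
    | base =>
      have : TL T i0 = ∅ := by
        rw [Finset.eq_empty_iff_forall_notMem]
        intro p hp
        unfold TL at hp
        rw [mem_filter] at hp
        have := hT p hp.1
        omega
      rw [this]; simp
    | succ J hJ ih =>
      rw [Finset.sum_Ico_succ_top hJ, ih, TL_succ, Finset.sum_union (TL_disj J)]
  intro J hJ hT2
  rw [h J hJ]
  congr 1
  unfold TL
  exact Finset.filter_true_of_mem hT2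

theorem master {b : ℕ} (hb : 2 ≤ b) : ∃ C : ℝ, 0 < C ∧ ∃ P : ℕ, ∀ k1 ≥ 7, ∀ K : ℝ, 0 ≤ K →
    ∀ z0 j0 : ℕ, 1 ≤ j0 → j0 ≤ b ^ (2 * z0) → ∀ i0 J : ℕ, P ≤ 2 ^ i0 → k1 ≤ i0 + 1 →
    z0 ≤ 2 ^ (i0 + 1 - k1) → i0 ≤ J → ∀ t ≥ 2 ^ J, ∀ T : Finset ℕ,
    (∀ p ∈ T, 2 ^ i0 < p ∧ p ≤ 2 ^ J) → ∀ α δ : ℝ, 0 ≤ α → 0 ≤ δ →
    (∀ i, i0 ≤ i → i < J → VT (T.filter (fun p => 2 ^ (i + 1 - k1) < p ∧ p ≤ 2 ^ (i + 1))) ≤ δ) →
    α * (kap b * δ) ≤ 1 → ∀ a : ℕ → ℂ, (∀ p, ‖1 - a p‖ ≤ 1) → (∀ p, ‖a p‖ ≤ α) →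
    ‖∑ n ∈ cell b z0 t j0, FF b t a T n -
      (b : ℝ) ^ (t - z0) * Complex.exp (-∑ p ∈ T, a p * ((kap b * (Real.log p / p) : ℝ) : ℂ))‖ ≤
      (b : ℝ) ^ (t - z0) * (C * α ^ 2 * (δ * VT T + CP b T) + α * K * ∑ q ∈ T, (q : ℝ)⁻¹ +
        α * EXC b k1 K z0 j0 i0 J T) := by
  classical
  obtain ⟨C1, hC1, P1, h12⟩ := cell_one_two hb
  have hκ0 := kap_nonneg b
  refine ⟨C1 + kap b * C1 + kap b ^ 2, by positivity, P1, ?_⟩
  intro k1 hk1 K hK z0 j0 hj1 hj2 i0 J hP hk1i hz0 hiJ t ht T hT α δ hα hδ hblock hαδ a ha haα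
  have hb0 : (0 : ℝ) < b := by positivity
  set κ := kap b with hκ
  set N : ℝ := (b : ℝ) ^ (t - z0) with hN
  have hN0 : 0 < N := by positivity
  set v : ℕ → ℝ := fun q => κ * (Real.log q / q) with hv
  have hv0 : ∀ q, 0 ≤ v q := fun q => mul_nonneg hκ0 (w_nonneg q)
  set Ω := cell b z0 t j0 with hΩ
  set G : ℕ → ℂ := fun i => ∑ n ∈ Ω, FF b t a (TL T i) n with hG
  set A : ℕ → ℂ := fun i => ∑ q ∈ TB T i, a q * (v q : ℝ) with hA
  set E : ℕ → ℂ := fun i => Complex.exp (-∑ p ∈ TL T i, a p * (v p : ℝ)) with hE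
  set CPi : ℕ → ℝ := fun i => ∑ q ∈ TB T i, ∑ p ∈ T.filter (fun p => p < q),
    Real.log p / p / (b : ℝ) ^ (q - p) with hCPi
  set Xi : ℕ → ℝ := fun i => ∑ q ∈ TB T i, (∑ c ∈ cell b z0 (2 ^ (i + 1 - k1)) j0,
    Exs b K (2 ^ (i + 1 - k1)) c q) / (b : ℝ) ^ (2 ^ (i + 1 - k1) - z0) with hXi
  set C := C1 + κ * C1 + κ ^ 2 with hC
  set err : ℕ → ℝ := fun i => C * α ^ 2 * (δ * VT (TB T i) + CPi i) + α * K * ∑ q ∈ TB T i, (q : ℝ)⁻¹ +
    α * Xi i with herr
  have hΩcard : (Ω.card : ℝ) = N := by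
    rw [hΩ, cell_card, hN]; push_cast; rfl
  have hGN : ∀ i, ‖G i‖ ≤ N := by
    intro i
    calc ‖G i‖ ≤ ∑ n ∈ Ω, ‖FF b t a (TL T i) n‖ := norm_sum_le _ _
      _ ≤ ∑ n ∈ Ω, (1 : ℝ) := Finset.sum_le_sum fun n _ => norm_FF_le (fun p _ => ha p) n
      _ = N := by rw [Finset.sum_const, nsmul_eq_mul, mul_one, hΩcard]
  have hVB : ∀ i, 0 ≤ VT (TB T i) := fun i => VT_nonneg _
  have hAn : ∀ i, ‖A i‖ ≤ α * (κ * VT (TB T i)) := by
    intro i
    calc ‖A i‖ ≤ ∑ q ∈ TB T i, ‖a q * (v q : ℝ)‖ := norm_sum_le _ _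
      _ ≤ ∑ q ∈ TB T i, α * v q := by
          refine Finset.sum_le_sum fun q _ => ?_
          rw [norm_mul, Complex.norm_real, Real.norm_of_nonneg (hv0 q)]
          exact mul_le_mul_of_nonneg_right (haα q) (hv0 q)
      _ = _ := by
          unfold VT
          rw [← Finset.mul_sum, hv, ← Finset.mul_sum]
  have hAre : ∀ i, 0 ≤ (A i).re := by
    intro i
    rw [hA]
    simp only [Complex.re_sum]
    refine Finset.sum_nonneg fun q _ => ?_
    rw [Complex.re_mul_ofReal]
    exact mul_nonneg (re_nonneg_of (ha q)) (hv0 q)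
  -- one block
  have hstep : ∀ i, i0 ≤ i → i < J → ‖G (i + 1) - (1 - A i) * G i‖ ≤
      N * (C1 * α ^ 2 * (δ * VT (TB T i) + CPi i) + (α * K * ∑ q ∈ TB T i, (q : ℝ)⁻¹ + α * Xi i) +
        κ * C1 * α ^ 2 * (δ * VT (TB T i))) := by
    intro i hi hiJ'
    set z := 2 ^ (i + 1 - k1) with hz
    have hzi0 : 2 ^ (i0 + 1 - k1) ≤ z := Nat.pow_le_pow_right (by norm_num) (by omega)
    have hz0z : z0 ≤ z := hz0.trans hzi0
    have hzi : z ≤ 2 ^ i := Nat.pow_le_pow_right (by norm_num) (by omega)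
    have hi1J : 2 ^ (i + 1) ≤ 2 ^ J := Nat.pow_le_pow_right (by norm_num) (by omega)
    have hii : 2 ^ i ≤ 2 ^ (i + 1) := Nat.pow_le_pow_right (by norm_num) (by omega)
    have hzt : z ≤ t := hzi.trans (hii.trans (hi1J.trans ht))
    set L := TL T (i + 1 - k1) with hL
    set I := T.filter (fun p => z < p ∧ p ≤ 2 ^ i) with hI
    set B := TB T i with hB
    have hLI : TL T i = L ∪ I := by
      ext p
      rw [hL, hI]
      unfold TL
      simp only [mem_filter, mem_union]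
      rw [← hz]
      constructor
      · rintro ⟨h1, h2⟩
        rcases le_or_gt p z with h | h
        · exact Or.inl ⟨h1, h⟩
        · exact Or.inr ⟨h1, h, h2⟩
      · rintro (⟨h1, h2⟩ | ⟨h1, h2, h3⟩)
        · exact ⟨h1, by omega⟩
        · exact ⟨h1, h3⟩
    have hIm : ∀ p ∈ I, p ∈ T ∧ z < p ∧ p ≤ 2 ^ i := fun p hp => by rw [hI, mem_filter] at hp; exact hp
    have hBm : ∀ p ∈ B, p ∈ T ∧ 2 ^ i < p ∧ p ≤ 2 ^ (i + 1) := fun p hp => by
      rw [hB] at hp; unfold TB at hp; rw [mem_filter] at hp; exact hp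
    have hos := one_step (b := b) (t := t) (z0 := z0) (j0 := j0) (z := z) hb hz0z hzt a v
      (L := L) (I := I) (B := B)
      (fun p hp => by rw [hL] at hp; unfold TL at hp; rw [mem_filter] at hp; exact hp.2)
      (fun p hp => (hIm p hp).2.1)
      (fun q hq => ⟨by have := (hBm q hq).2.1; omega, by have := (hBm q hq).2.2; omega⟩)
      (fun p hp q hq => by have := (hIm p hp).2.2; have := (hBm q hq).2.1; omega) ha
    have hGi1 : G (i + 1) = ∑ n ∈ cell b z0 t j0, FF b t a (L ∪ I ∪ B) n := by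
      rw [hG]
      simp only
      rw [TL_succ, hLI]
    have hGi : G i = ∑ n ∈ cell b z0 t j0, FF b t a (L ∪ I) n := by
      rw [hG]
      simp only
      rw [hLI]
    rw [hGi1, hGi]
    refine hos.trans ?_
    -- general facts for elements
    have hIB : I ∪ B = T.filter (fun p => 2 ^ (i + 1 - k1) < p ∧ p ≤ 2 ^ (i + 1)) := by
      ext p
      rw [hI, hB]
      unfold TB
      simp only [mem_filter, mem_union]
      rw [← hz]
      constructor
      · rintro (⟨h1, h2, h3⟩ | ⟨h1, h2, h3⟩)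
        · exact ⟨h1, h2, by omega⟩
        · exact ⟨h1, by omega, h3⟩
      · rintro ⟨h1, h2, h3⟩
        rcases le_or_gt p (2 ^ i) with h | h
        · exact Or.inl ⟨h1, h2, h⟩
        · exact Or.inr ⟨h1, h, h3⟩
    have hU : VT (I ∪ B) ≤ δ := by rw [hIB]; exact hblock i hi hiJ'
    have hUI : VT I ≤ δ := by
      refine le_trans ?_ hU
      unfold VT
      exact Finset.sum_le_sum_of_subset_of_nonneg Finset.subset_union_left fun p _ _ => w_nonneg p
    have hTm : ∀ p ∈ I ∪ B, P1 ≤ p ∧ 32 * z0 ≤ p ∧ p ≤ t ∧ p ∈ T := by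
      intro p hp
      rw [mem_union] at hp
      have hpT : p ∈ T := by
        rcases hp with h | h
        · exact (hIm p h).1
        · exact (hBm p h).1
      have h1 := hT p hpT
      refine ⟨by omega, ?_, by omega, hpT⟩
      have h2 : 32 * 2 ^ (i0 + 1 - k1) ≤ 2 ^ i0 := by
        calc 32 * 2 ^ (i0 + 1 - k1) = 2 ^ (5 + (i0 + 1 - k1)) := by rw [pow_add]; norm_num
          _ ≤ 2 ^ i0 := Nat.pow_le_pow_right (by norm_num) (by omega)
      omega
    -- first term
    have h1 : ∑ q ∈ B, ∑ p ∈ (I ∪ B).filter (fun p => p < q), ‖a p‖ * ‖a q‖ *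
        (∑ n ∈ cell b z0 t j0, XX p (n / b ^ (t - p)) * XX q (n / b ^ (t - q))) ≤
        N * (C1 * α ^ 2 * (δ * VT B + CPi i)) := by
      have hpq : ∀ q ∈ B, ∀ p ∈ (I ∪ B).filter (fun p => p < q), ‖a p‖ * ‖a q‖ *
        (∑ n ∈ cell b z0 t j0, XX p (n / b ^ (t - p)) * XX q (n / b ^ (t - q))) ≤
          α ^ 2 * (C1 * (Real.log p / p * (Real.log q / q) + Real.log p / p / (b : ℝ) ^ (q - p)) * N) := by
        intro q hq p hp
        rw [mem_filter] at hp
        obtain ⟨hp1, hp2, hp3, hp4⟩ := hTm p hp.1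
        have hqt := (hTm q (mem_union_right _ hq)).2.2.1
        have h2 := (h12 z0 j0 hj1 hj2 p hp1 hp2 t hp3).2 q hp.2 hqt
        have h3 : ‖a p‖ * ‖a q‖ ≤ α ^ 2 := by
          rw [sq]; exact mul_le_mul (haα p) (haα q) (norm_nonneg _) hα
        refine mul_le_mul h3 h2 ?_ (by positivity)
        exact Finset.sum_nonneg fun n _ => mul_nonneg (XX_nonneg _ _) (XX_nonneg _ _)
      calc _ ≤ ∑ q ∈ B, ∑ p ∈ (I ∪ B).filter (fun p => p < q),
            α ^ 2 * (C1 * (Real.log p / p * (Real.log q / q) + Real.log p / p / (b : ℝ) ^ (q - p)) * N) :=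
            Finset.sum_le_sum fun q hq => Finset.sum_le_sum fun p hp => hpq q hq p hp
        _ = N * (C1 * α ^ 2 * ∑ q ∈ B, (∑ p ∈ (I ∪ B).filter (fun p => p < q),
            Real.log p / p * (Real.log q / q) + ∑ p ∈ (I ∪ B).filter (fun p => p < q),
              Real.log p / p / (b : ℝ) ^ (q - p))) := by
            simp only [Finset.mul_sum, ← Finset.sum_add_distrib]
            refine Finset.sum_congr rfl fun q _ => Finset.sum_congr rfl fun p _ => ?_
            ring
        _ ≤ N * (C1 * α ^ 2 * ∑ q ∈ B, (δ * (Real.log q / q) + ∑ p ∈ T.filter (fun p => p < q),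
              Real.log p / p / (b : ℝ) ^ (q - p))) := by
            refine mul_le_mul_of_nonneg_left (mul_le_mul_of_nonneg_left
              (Finset.sum_le_sum fun q hq => add_le_add ?_ ?_) (by positivity)) hN0.le
            · rw [← Finset.sum_mul]
              refine mul_le_mul_of_nonneg_right ?_ (w_nonneg q)
              refine le_trans ?_ hU
              unfold VT
              exact Finset.sum_le_sum_of_subset_of_nonneg (filter_subset _ _) fun p _ _ => w_nonneg p
            · refine Finset.sum_le_sum_of_subset_of_nonneg ?_ fun p _ _ =>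
                div_nonneg (w_nonneg p) (by positivity)
              intro p hp
              rw [mem_filter] at hp ⊢
              exact ⟨(hTm p hp.1).2.2.2, hp.2⟩
        _ = _ := by
            rw [Finset.sum_add_distrib, ← Finset.mul_sum]
            rfl
    -- second term
    have h2 : ∑ q ∈ B, ‖a q‖ * (∑ c ∈ cell b z0 z j0, |(cnt b z c q : ℝ) * (b : ℝ) ^ (t - q) -
        v q * (b : ℝ) ^ (t - z)|) ≤ N * (α * K * ∑ q ∈ TB T i, (q : ℝ)⁻¹ + α * Xi i) := by
      have hbz : (b : ℝ) ^ (t - z) * (b : ℝ) ^ (z - z0) = N := by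
        rw [hN, ← pow_add]; congr 1; omega
      have hin : ∀ q ∈ B, ∑ c ∈ cell b z0 z j0, |(cnt b z c q : ℝ) * (b : ℝ) ^ (t - q) -
          v q * (b : ℝ) ^ (t - z)| ≤ N * (K * (q : ℝ)⁻¹ +
            (∑ c ∈ cell b z0 z j0, Exs b K z c q) / (b : ℝ) ^ (z - z0)) := by
        intro q hq
        have hqz : z ≤ q := by have := (hBm q hq).2.1; omega
        have hqt : q ≤ t := (hTm q (mem_union_right _ hq)).2.2.1
        have hc : ∀ c ∈ cell b z0 z j0, |(cnt b z c q : ℝ) * (b : ℝ) ^ (t - q) -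
            v q * (b : ℝ) ^ (t - z)| ≤ (b : ℝ) ^ (t - z) * (K * (q : ℝ)⁻¹ + Exs b K z c q) := by
          intro c _
          have e1 : (b : ℝ) ^ (t - z) = (b : ℝ) ^ (t - q) * (b : ℝ) ^ (q - z) := by
            rw [← pow_add]; congr 1; omega
          have e2 : (cnt b z c q : ℝ) * (b : ℝ) ^ (t - q) - v q * (b : ℝ) ^ (t - z) =
              (b : ℝ) ^ (t - z) * ((cnt b z c q : ℝ) / (b : ℝ) ^ (q - z) - v q) := by
            rw [e1]; field_simp
          rw [e2, abs_mul, abs_of_nonneg (by positivity)]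
          refine mul_le_mul_of_nonneg_left ?_ (by positivity)
          have h3 := le_max_right (0 : ℝ) (|(cnt b z c q : ℝ) / (b : ℝ) ^ (q - z) -
            Real.exp Real.eulerMascheroniConstant / Real.log b * (Real.log q / q)| - K / q)
          have h4 : |(cnt b z c q : ℝ) / (b : ℝ) ^ (q - z) - v q| - K / q ≤ Exs b K z c q := h3
          have h5 : K / (q : ℝ) = K * (q : ℝ)⁻¹ := div_eq_mul_inv _ _
          rw [h5] at h4
          linarith
        refine (Finset.sum_le_sum hc).trans (le_of_eq ?_)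
        rw [← Finset.mul_sum, Finset.sum_add_distrib, Finset.sum_const, cell_card, nsmul_eq_mul, ← hbz]
        push_cast
        field_simp
      calc _ ≤ ∑ q ∈ B, α * (N * (K * (q : ℝ)⁻¹ +
            (∑ c ∈ cell b z0 z j0, Exs b K z c q) / (b : ℝ) ^ (z - z0))) := by
            refine Finset.sum_le_sum fun q hq => ?_
            refine mul_le_mul (haα q) (hin q hq) (Finset.sum_nonneg fun _ _ => abs_nonneg _) hα
        _ = _ := by
            rw [hXi]
            simp only [Finset.mul_sum, ← Finset.sum_add_distrib]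
            refine Finset.sum_congr rfl fun q _ => ?_
            ring
    -- third term
    have h3 : ‖∑ q ∈ B, a q * (v q : ℝ)‖ * ∑ p ∈ I, ‖a p‖ * ∑ n ∈ cell b z0 t j0,
        XX p (n / b ^ (t - p)) ≤ N * (κ * C1 * α ^ 2 * (δ * VT (TB T i))) := by
      have h4 : ∑ p ∈ I, ‖a p‖ * ∑ n ∈ cell b z0 t j0, XX p (n / b ^ (t - p)) ≤ α * (C1 * δ * N) := by
        calc _ ≤ ∑ p ∈ I, α * (C1 * (Real.log p / p) * N) := by
              refine Finset.sum_le_sum fun p hp => ?_
              obtain ⟨hp1, hp2, hp3, hp4⟩ := hTm p (mem_union_left _ hp)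
              exact mul_le_mul (haα p) (h12 z0 j0 hj1 hj2 p hp1 hp2 t hp3).1
                (Finset.sum_nonneg fun n _ => XX_nonneg _ _) hα
          _ = α * (C1 * VT I * N) := by
              unfold VT
              simp only [Finset.mul_sum, Finset.sum_mul]
          _ ≤ _ := by gcongr
      calc _ ≤ (α * (κ * VT (TB T i))) * (α * (C1 * δ * N)) :=
            mul_le_mul (hAn i) h4 (Finset.sum_nonneg fun p _ => mul_nonneg (norm_nonneg _)
              (Finset.sum_nonneg fun n _ => XX_nonneg _ _)) (by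
                have := hVB i
                positivity)
        _ = _ := by ring
    calc _ ≤ N * (C1 * α ^ 2 * (δ * VT B + CPi i)) + N * (α * K * ∑ q ∈ TB T i, (q : ℝ)⁻¹ + α * Xi i) +
          N * (κ * C1 * α ^ 2 * (δ * VT (TB T i))) := add_le_add (add_le_add h1 h2) h3
      _ = _ := by rw [hB]; ring
  -- the exponential
  have hexp : ∀ i, i0 ≤ i → i < J → ‖(1 - A i) - Complex.exp (-A i)‖ ≤ κ ^ 2 * α ^ 2 * (δ * VT (TB T i)) := by
    intro i hi hiJ'
    have hVδ : VT (TB T i) ≤ δ := by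
      refine le_trans ?_ (hblock i hi hiJ')
      unfold VT
      refine Finset.sum_le_sum_of_subset_of_nonneg ?_ fun p _ _ => w_nonneg p
      intro p hp
      unfold TB at hp
      rw [mem_filter] at hp ⊢
      have : 2 ^ (i + 1 - k1) ≤ 2 ^ i := Nat.pow_le_pow_right (by norm_num) (by omega)
      exact ⟨hp.1, by omega, hp.2.2⟩
    have hA1 : ‖-A i‖ ≤ 1 := by
      rw [norm_neg]
      refine (hAn i).trans (le_trans ?_ hαδ)
      gcongr
    have h1 := Complex.norm_exp_sub_one_sub_id_le hA1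
    have e : (1 - A i) - Complex.exp (-A i) = -(Complex.exp (-A i) - 1 - -A i) := by ring
    rw [e, norm_neg]
    refine h1.trans ?_
    rw [norm_neg]
    have h2 := hAn i
    have h3 := hVB i
    calc ‖A i‖ ^ 2 ≤ (α * (κ * VT (TB T i))) ^ 2 := pow_le_pow_left₀ (norm_nonneg _) h2 2
      _ = κ ^ 2 * α ^ 2 * (VT (TB T i) * VT (TB T i)) := by ring
      _ ≤ _ := by gcongr
  -- induction
  have hind : ∀ i, i0 ≤ i → i ≤ J → ‖G i - N * E i‖ ≤ N * ∑ l ∈ Ico i0 i, err l := by
    intro i hi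
    induction i, hi using Nat.le_induction with
    | base =>
      intro _
      have hemp : TL T i0 = ∅ := by
        rw [Finset.eq_empty_iff_forall_notMem]
        intro p hp
        unfold TL at hp
        rw [mem_filter] at hp
        have := (hT p hp.1).1
        omega
      have h1 : G i0 = N := by
        rw [hG]
        simp only
        rw [hemp]
        unfold FF
        simp only [Finset.prod_empty, Finset.sum_const, nsmul_eq_mul, mul_one]
        rw [← hΩcard]
        push_cast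
        rfl
      have h2 : E i0 = 1 := by
        rw [hE]
        simp only
        rw [hemp]
        simp
      rw [h1, h2]
      simp
    | succ i hi ih =>
      intro hiJ'
      have ih' := ih (by omega)
      have hs := hstep i hi (by omega)
      have he := hexp i hi (by omega)
      have hEs : E (i + 1) = Complex.exp (-A i) * E i := by
        rw [hE]
        simp only
        rw [TL_succ, Finset.sum_union (TL_disj i), neg_add, Complex.exp_add, mul_comm]
      have hEn : ‖Complex.exp (-A i)‖ ≤ 1 := by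
        rw [Complex.norm_exp, Complex.neg_re]
        have := hAre i
        exact Real.exp_le_one_iff.2 (by linarith)
      have hdec : G (i + 1) - N * E (i + 1) = (G (i + 1) - (1 - A i) * G i) +
          ((1 - A i) - Complex.exp (-A i)) * G i + Complex.exp (-A i) * (G i - N * E i) := by
        rw [hEs]; ring
      rw [hdec, Finset.sum_Ico_succ_top hi]
      have h0 : 0 ≤ ‖G i - N * E i‖ := norm_nonneg _
      calc _ ≤ ‖G (i + 1) - (1 - A i) * G i‖ + ‖((1 - A i) - Complex.exp (-A i)) * G i‖ +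
            ‖Complex.exp (-A i) * (G i - N * E i)‖ :=
            (norm_add_le _ _).trans (add_le_add_left (norm_add_le _ _) _)
        _ ≤ N * (C1 * α ^ 2 * (δ * VT (TB T i) + CPi i) + (α * K * ∑ q ∈ TB T i, (q : ℝ)⁻¹ + α * Xi i) +
            κ * C1 * α ^ 2 * (δ * VT (TB T i))) + (κ ^ 2 * α ^ 2 * (δ * VT (TB T i))) * N +
            1 * (N * ∑ l ∈ Ico i0 i, err l) := by
            rw [norm_mul, norm_mul]
            refine add_le_add (add_le_add hs ?_) ?_
            · exact mul_le_mul he (hGN i) (norm_nonneg _) ((norm_nonneg _).trans he)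
            · exact mul_le_mul hEn ih' (norm_nonneg _) zero_le_one
        _ ≤ _ := by
            have hCP0 : 0 ≤ CPi i := by
              rw [hCPi]
              exact Finset.sum_nonneg fun q _ => Finset.sum_nonneg fun p _ =>
                div_nonneg (w_nonneg p) (by positivity)
            have hdv : 0 ≤ δ * VT (TB T i) := mul_nonneg hδ (hVB i)
            have hkey : C1 * α ^ 2 * (δ * VT (TB T i) + CPi i) +
                κ * C1 * α ^ 2 * (δ * VT (TB T i)) + κ ^ 2 * α ^ 2 * (δ * VT (TB T i)) ≤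
                C * α ^ 2 * (δ * VT (TB T i) + CPi i) := by
              rw [hC]
              have h5 : 0 ≤ α ^ 2 * CPi i := by positivity
              have h6 : 0 ≤ κ * C1 := by positivity
              have h7 : 0 ≤ κ ^ 2 := by positivity
              nlinarith [mul_nonneg h6 h5, mul_nonneg h7 h5]
            rw [herr]
            simp only
            nlinarith
  have hfin := hind J hiJ le_rfl
  have hTJ : TL T J = T := by
    unfold TL
    exact Finset.filter_true_of_mem fun p hp => (hT p hp).2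
  have hG' : G J = ∑ n ∈ cell b z0 t j0, FF b t a T n := by
    rw [hG]; simp only; rw [hTJ]
  have hE' : E J = Complex.exp (-∑ p ∈ T, a p * ((kap b * (Real.log p / p) : ℝ) : ℂ)) := by
    rw [hE]; simp only; rw [hTJ]
  have hcast : ((b : ℂ) ^ (t - z0)) = ((N : ℝ) : ℂ) := by rw [hN]; push_cast; rfl
  rw [hG', hE'] at hfin
  push_cast at hfin hcast ⊢
  rw [hcast]
  refine hfin.trans (mul_le_mul_of_nonneg_left (le_of_eq ?_) hN0.le)
  rw [herr]
  simp only
  rw [Finset.sum_add_distrib, Finset.sum_add_distrib, ← Finset.mul_sum, ← Finset.mul_sum,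
    ← Finset.mul_sum, Finset.sum_add_distrib, ← Finset.mul_sum]
  have hT1 : ∀ p ∈ T, 2 ^ i0 < p := fun p hp => (hT p hp).1
  have hT2 : ∀ p ∈ T, p ≤ 2 ^ J := fun p hp => (hT p hp).2
  have e1 : ∑ i ∈ Ico i0 J, VT (TB T i) = VT T := sum_blocks T i0 _ hT1 J hiJ hT2
  have e2 : ∑ i ∈ Ico i0 J, CPi i = CP b T := sum_blocks T i0 _ hT1 J hiJ hT2
  have e3 : ∑ i ∈ Ico i0 J, ∑ q ∈ TB T i, (q : ℝ)⁻¹ = ∑ q ∈ T, (q : ℝ)⁻¹ :=
    sum_blocks T i0 _ hT1 J hiJ hT2
  rw [e1, e2, e3]
  rfl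

end Pool.Agent.H32x.PL
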