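import Mathlib
import Pool.Agent.H32x.PL.Gen
import Pool.Agent.H32x.PL.Four

set_option autoImplicit false

/-!
# Poisson law in a cell
-/

namespace Pool.Agent.H32x.PL

open Finset Filter Topology
open Pool.Agent.N176.GP (cnt XX XX_nonneg cnt_eq)
open Pool.Agent.N176.OW (cell kap VT TL TB cell_card VT_nonneg hits)
open Pool.Agent.H305R2 (roughPart)

lemma prod_hits (b t n : ℕ) (T : Finset ℕ) (e : ℂ) :
    ∏ p ∈ T, (1 - (1 - e) * (XX p (n / b ^ (t - p)) : ℝ)) = e ^ (hits T b t n).card := by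
  classical
  have h : ∀ p ∈ T, (1 - (1 - e) * ((XX p (n / b ^ (t - p)) : ℝ) : ℂ)) =
      if (roughPart p (n / b ^ (t - p))).Prime then e else 1 := by
    intro p _
    unfold XX
    split_ifs <;> simp
  rw [Finset.prod_congr rfl h, Finset.prod_ite, Finset.prod_const, Finset.prod_const_one, mul_one]
  rfl

theorem cell_poisson {b : ℕ} (hb : 2 ≤ b) : ∃ C : ℝ, 0 < C ∧ ∃ P : ℕ, ∀ k1 ≥ 7, ∀ K : ℝ, 0 ≤ K →
    ∀ z0 j0 : ℕ, 1 ≤ j0 → j0 ≤ b ^ (2 * z0) → ∀ i0 J : ℕ, P ≤ 2 ^ i0 → k1 ≤ i0 + 1 →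
    z0 ≤ 2 ^ (i0 + 1 - k1) → i0 ≤ J → ∀ t ≥ 2 ^ J, ∀ (ι : Type) [Fintype ι] (T : ι → Finset ℕ),
    (∀ i j, i ≠ j → Disjoint (T i) (T j)) →
    (∀ p ∈ univ.biUnion T, 2 ^ i0 < p ∧ p ≤ 2 ^ J) → ∀ δ : ℝ, 0 ≤ δ →
    (∀ i, i0 ≤ i → i < J →
      VT ((univ.biUnion T).filter (fun p => 2 ^ (i + 1 - k1) < p ∧ p ≤ 2 ^ (i + 1))) ≤ δ) →
    2 * (kap b * δ) ≤ 1 → ∀ (k : ι → ℕ) [DecidablePred fun n => ∀ j, (hits (T j) b t n).card = k j],
    |(((cell b z0 t j0).filter (fun n => ∀ j, (hits (T j) b t n).card = k j)).card : ℝ) -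
      (b : ℝ) ^ (t - z0) * ∏ j, Poi (kap b * VT (T j)) (k j)| ≤
      (b : ℝ) ^ (t - z0) * (C * (δ * VT (univ.biUnion T) + CP b (univ.biUnion T)) +
        2 * K * ∑ q ∈ univ.biUnion T, (q : ℝ)⁻¹ + 2 * EXC b k1 K z0 j0 i0 J (univ.biUnion T)) := by
  classical
  obtain ⟨C, hC, P, hmain⟩ := master hb
  refine ⟨C * 2 ^ 2, by positivity, P, ?_⟩
  intro k1 hk1 K hK z0 j0 hj1 hj2 i0 J hP hk1i hz0 hiJ t ht ι _ T hdis hT δ hδ hblock hδ2 k inst
  set U := univ.biUnion T with hU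
  refine fourier_inv (cell b z0 t j0) (fun n j => (hits (T j) b t n).card) ((b : ℝ) ^ (t - z0)) _
    (fun j => kap b * VT (T j)) (fun s => ?_) k
  -- the weights
  set a : ℕ → ℂ := fun p => ∑ j, if p ∈ T j then 1 - ee (s j) else 0 with ha
  have ha1 : ∀ j, ∀ p ∈ T j, a p = 1 - ee (s j) := by
    intro j p hp
    simp only [ha]
    rw [Finset.sum_eq_single j]
    · rw [if_pos hp]
    · intro i _ hij
      rw [if_neg]
      intro h
      exact (Finset.disjoint_left.1 (hdis i j hij)) h hp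
    · intro h; exact absurd (mem_univ j) h
  have ha2 : ∀ p, p ∉ U → a p = 0 := by
    intro p hp
    simp only [ha]
    refine Finset.sum_eq_zero fun j _ => if_neg fun h => hp ?_
    rw [hU, mem_biUnion]
    exact ⟨j, mem_univ j, h⟩
  have ha3 : ∀ p, (∃ j, a p = 1 - ee (s j)) ∨ a p = 0 := by
    intro p
    by_cases hp : p ∈ U
    · left
      rw [hU, mem_biUnion] at hp
      obtain ⟨j, _, hj⟩ := hp
      exact ⟨j, ha1 j p hj⟩
    · right; exact ha2 p hp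
  have hn1 : ∀ p, ‖1 - a p‖ ≤ 1 := by
    intro p
    rcases ha3 p with ⟨j, hj⟩ | hj
    · rw [hj, sub_sub_cancel, norm_ee]
    · rw [hj]; simp
  have hn2 : ∀ p, ‖a p‖ ≤ 2 := by
    intro p
    rcases ha3 p with ⟨j, hj⟩ | hj
    · rw [hj]
      refine (norm_sub_le _ _).trans ?_
      rw [norm_ee]; norm_num
    · rw [hj]; simp
  have hm := hmain k1 hk1 K hK z0 j0 hj1 hj2 i0 J hP hk1i hz0 hiJ t ht U hT 2 δ (by norm_num) hδ hblock
    hδ2 a hn1 hn2
  have e1 : ∀ n, FF b t a U n = ∏ j, ee (s j) ^ (hits (T j) b t n).card := by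
    intro n
    unfold FF
    rw [hU, Finset.prod_biUnion (fun i _ j _ hij => hdis i j hij)]
    refine Finset.prod_congr rfl fun j _ => ?_
    rw [← prod_hits]
    exact Finset.prod_congr rfl fun p hp => by rw [ha1 j p hp]
  have e2 : Complex.exp (-∑ p ∈ U, a p * ((kap b * (Real.log p / p) : ℝ) : ℂ)) =
      ∏ j, Complex.exp (-(((kap b * VT (T j) : ℝ) : ℂ) * (1 - ee (s j)))) := by
    rw [← Complex.exp_sum, hU, Finset.sum_biUnion (fun i _ j _ hij => hdis i j hij),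
      ← Finset.sum_neg_distrib]
    congr 1
    refine Finset.sum_congr rfl fun j _ => ?_
    congr 1
    have : ∀ p ∈ T j, a p * ((kap b * (Real.log p / p) : ℝ) : ℂ) =
        ((kap b * (Real.log p / p) : ℝ) : ℂ) * (1 - ee (s j)) := by
      intro p hp
      rw [ha1 j p hp, mul_comm]
    rw [Finset.sum_congr rfl this, ← Finset.sum_mul]
    congr 1
    unfold VT
    rw [Finset.mul_sum]
    push_cast
    rfl
  simp only [e1] at hm
  rw [e2] at hm
  push_cast at hm ⊢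
  refine hm.trans (mul_le_mul_of_nonneg_left (le_of_eq ?_) (by positivity))
  ring

end Pool.Agent.H32x.PL
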