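import Mathlib
import Pool.Agent.H32x.PL.Poi
import Pool.Agent.N176.OW.Stm3

set_option autoImplicit false

/-!
# Integrals of functions of the digits
-/

namespace Pool.Agent.H32x.PL

open Finset Filter Topology MeasureTheory
open Pool.Agent.N176.GP (cnt XX NB NB_spec NB_div)
open Pool.Agent.N176.OW (cell kap VT TL TB cell_card VT_nonneg hits S_FM)
open Pool.Agent.H305R2 (roughPart)

lemma NB_eq {b : ℕ} (hb : 2 ≤ b) {t n : ℕ} {β : ℝ} (h1 : (n : ℝ) / (b : ℝ) ^ t < β)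
    (h2 : β ≤ ((n : ℝ) + 1) / (b : ℝ) ^ t) : NB b β t = n := by
  have hbt : (0 : ℝ) < (b : ℝ) ^ t := by positivity
  have hβ : 0 < β := lt_of_le_of_lt (by positivity) h1
  obtain ⟨h3, h4⟩ := NB_spec hb hβ t
  rw [div_lt_iff₀ hbt] at h1
  rw [le_div_iff₀ hbt] at h2
  have h5 : (NB b β t : ℝ) < n + 1 := lt_of_lt_of_le h3 h2
  have h6 : (n : ℝ) < NB b β t + 1 := lt_of_lt_of_le h1 h4
  have h7 : NB b β t < n + 1 := by exact_mod_cast h5
  have h8 : n < NB b β t + 1 := by exact_mod_cast h6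
  omega

lemma measurable_NB (b t : ℕ) : Measurable fun β : ℝ => NB b β t := by
  unfold NB
  have h1 : Measurable fun β : ℝ => ⌈β * (b : ℝ) ^ t⌉₊ := Nat.measurable_ceil.comp (measurable_id.mul_const _)
  exact (measurable_from_top (f := fun n : ℕ => n - 1)).comp h1

lemma measurable_digits (b t : ℕ) (f : ℕ → ℝ) : Measurable fun β : ℝ => f (NB b β t) :=
  (measurable_from_top (f := f)).comp (measurable_NB b t)

/-- the range of the digits -/
lemma NB_mem {b : ℕ} (hb : 2 ≤ b) {m0 t : ℕ} (hm : m0 ≤ t) {β : ℝ} (h1 : ((b : ℝ) ^ m0)⁻¹ < β)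
    (h2 : β ≤ (b : ℝ) ^ m0) : b ^ (t - m0) ≤ NB b β t ∧ NB b β t < b ^ (t + m0) := by
  have hb0 : (0 : ℝ) < b := by positivity
  have hbt : (0 : ℝ) < (b : ℝ) ^ t := by positivity
  have hβ : 0 < β := lt_trans (by positivity) h1
  obtain ⟨h4, h5⟩ := NB_spec hb hβ t
  constructor
  · have h6 : ((b ^ (t - m0) : ℕ) : ℝ) < ((NB b β t + 1 : ℕ) : ℝ) := by
      push_cast
      calc (b : ℝ) ^ (t - m0) = ((b : ℝ) ^ m0)⁻¹ * (b : ℝ) ^ t := by
            have : (b : ℝ) ^ t = (b : ℝ) ^ m0 * (b : ℝ) ^ (t - m0) := by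
              rw [← pow_add]; congr 1; omega
            rw [this]; field_simp
        _ < β * (b : ℝ) ^ t := mul_lt_mul_of_pos_right h1 hbt
        _ ≤ _ := h5
    have h7 : b ^ (t - m0) < NB b β t + 1 := by exact_mod_cast h6
    omega
  · have h6 : ((NB b β t : ℕ) : ℝ) < ((b ^ (t + m0) : ℕ) : ℝ) := by
      push_cast
      calc (NB b β t : ℝ) < β * (b : ℝ) ^ t := h4
        _ ≤ (b : ℝ) ^ m0 * (b : ℝ) ^ t := mul_le_mul_of_nonneg_right h2 hbt.le
        _ = _ := by rw [← pow_add, add_comm]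
    exact_mod_cast h6

/-- the window of amplitudes -/
def Win (b m0 : ℕ) : Set ℝ := Set.Ioc (((b : ℝ) ^ m0)⁻¹) ((b : ℝ) ^ m0)

lemma measurableSet_Win (b m0 : ℕ) : MeasurableSet (Win b m0) := measurableSet_Ioc

lemma Win_pos {b m0 : ℕ} {β : ℝ} (hb : 2 ≤ b) (h : β ∈ Win b m0) : 0 < β := by
  have hb0 : (0 : ℝ) < b := by positivity
  exact lt_trans (by positivity) h.1

instance (b m0 : ℕ) : IsFiniteMeasure (volume.restrict (Win b m0)) := by
  unfold Win; infer_instance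

lemma integrable_digits {b : ℕ} (hb : 2 ≤ b) {m0 t : ℕ} (hm : m0 ≤ t) (f : ℕ → ℝ) :
    Integrable (fun β => f (NB b β t)) (volume.restrict (Win b m0)) := by
  refine Integrable.of_bound (C := ∑ n ∈ range (b ^ (t + m0)), |f n|)
    (measurable_digits b t f).aestronglyMeasurable ?_
  rw [ae_restrict_iff' (measurableSet_Win b m0)]
  refine Filter.Eventually.of_forall fun β hβ => ?_
  have h1 := (NB_mem hb hm hβ.1 hβ.2).2
  rw [Real.norm_eq_abs]
  exact Finset.single_le_sum (f := fun n => |f n|) (fun n _ => abs_nonneg _) (mem_range.2 h1)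

lemma int_digits {b : ℕ} (hb : 2 ≤ b) {m0 t : ℕ} (hm : m0 ≤ t) (f : ℕ → ℝ) :
    ∫ β in Win b m0, f (NB b β t) = (∑ n ∈ Ico (b ^ (t - m0)) (b ^ (t + m0)), f n) / (b : ℝ) ^ t := by
  have hb0 : (0 : ℝ) < b := by positivity
  have hbt : (0 : ℝ) < (b : ℝ) ^ t := by positivity
  have hmono : b ^ (t - m0) ≤ b ^ (t + m0) := Nat.pow_le_pow_right (by omega) (by omega)
  have hpiece : ∀ n : ℕ, IntegrableOn (fun β => f (NB b β t))
      (Set.Ioc ((n : ℝ) / (b : ℝ) ^ t) (((n + 1 : ℕ) : ℝ) / (b : ℝ) ^ t)) ∧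
      ∫ β in Set.Ioc ((n : ℝ) / (b : ℝ) ^ t) (((n + 1 : ℕ) : ℝ) / (b : ℝ) ^ t), f (NB b β t) =
        f n / (b : ℝ) ^ t := by
    intro n
    have hc : Set.EqOn (fun _ : ℝ => f n) (fun β => f (NB b β t))
        (Set.Ioc ((n : ℝ) / (b : ℝ) ^ t) (((n + 1 : ℕ) : ℝ) / (b : ℝ) ^ t)) := by
      intro β hβ
      have h2 := hβ.2
      push_cast at h2
      simp only
      rw [NB_eq hb hβ.1 h2]
    refine ⟨(integrableOn_const (by
      rw [Real.volume_Ioc]; exact ENNReal.ofReal_ne_top)).congr_fun hc measurableSet_Ioc, ?_⟩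
    rw [← setIntegral_congr_fun measurableSet_Ioc hc, setIntegral_const, Measure.real, Real.volume_Ioc,
      ENNReal.toReal_ofReal, smul_eq_mul]
    · push_cast
      field_simp
      ring
    · push_cast
      rw [← sub_div]
      have : (n : ℝ) + 1 - n = 1 := by ring
      rw [this]
      positivity
  have hle : ∀ n : ℕ, (n : ℝ) / (b : ℝ) ^ t ≤ ((n + 1 : ℕ) : ℝ) / (b : ℝ) ^ t := by
    intro n
    gcongr
    omega
  have h1 := intervalIntegral.sum_integral_adjacent_intervals_Ico (μ := volume)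
    (f := fun β => f (NB b β t)) (a := fun n : ℕ => (n : ℝ) / (b : ℝ) ^ t) hmono (fun n _ => by
      rw [intervalIntegrable_iff_integrableOn_Ioc_of_le (hle n)]
      exact (hpiece n).1)
  have e1 : ((b ^ (t - m0) : ℕ) : ℝ) / (b : ℝ) ^ t = ((b : ℝ) ^ m0)⁻¹ := by
    push_cast
    have : (b : ℝ) ^ t = (b : ℝ) ^ m0 * (b : ℝ) ^ (t - m0) := by
      rw [← pow_add]; congr 1; omega
    rw [this]; field_simp
  have e2 : ((b ^ (t + m0) : ℕ) : ℝ) / (b : ℝ) ^ t = (b : ℝ) ^ m0 := by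
    push_cast
    rw [pow_add]; field_simp
  rw [e1, e2] at h1
  have hle2 : ((b : ℝ) ^ m0)⁻¹ ≤ (b : ℝ) ^ m0 := by
    rw [← e1, ← e2]
    gcongr
  unfold Win
  rw [intervalIntegral.integral_of_le hle2] at h1
  rw [← h1, Finset.sum_div]
  refine Finset.sum_congr rfl fun n _ => ?_
  rw [intervalIntegral.integral_of_le (hle n)]
  exact (hpiece n).2

end Pool.Agent.H32x.PL
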