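import Mathlib
import Pool.Agent.H32x.PL.Dig

set_option autoImplicit false

/-!
# The mean of the excess
-/

namespace Pool.Agent.H32x.PL

open Finset Filter Topology MeasureTheory
open Pool.Agent.N176.GP (cnt XX NB NB_spec NB_div)
open Pool.Agent.N176.OW (cell kap VT TL TB cell_card VT_nonneg hits S_FM)
open Pool.Agent.H305R2 (roughPart)

/-- sums over sets which are disjoint at distance `R` -/
lemma sum_mult (U : ℕ → Finset ℕ) (R : ℕ) (hdis : ∀ l l', l + R ≤ l' → Disjoint (U l) (U l'))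
    (f : ℕ → ℝ) (hf : ∀ q, 0 ≤ f q) (L : ℕ) (V : Finset ℕ) (hV : ∀ l < L, U l ⊆ V) :
    ∑ l ∈ range L, ∑ q ∈ U l, f q ≤ R * ∑ q ∈ V, f q := by
  classical
  have h1 : ∀ l ∈ range L, ∑ q ∈ U l, f q = ∑ q ∈ V, if q ∈ U l then f q else 0 := by
    intro l hl
    rw [← Finset.sum_filter]
    refine Finset.sum_congr ?_ fun _ _ => rfl
    ext q
    rw [mem_filter]
    exact ⟨fun h => ⟨hV l (mem_range.1 hl) h, h⟩, fun h => h.2⟩
  rw [Finset.sum_congr rfl h1, Finset.sum_comm, Finset.mul_sum]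
  refine Finset.sum_le_sum fun q _ => ?_
  rw [← Finset.sum_filter, Finset.sum_const, nsmul_eq_mul]
  refine mul_le_mul_of_nonneg_right ?_ (hf q)
  set A := (range L).filter (fun l => q ∈ U l) with hA
  have hcard : A.card ≤ R := by
    rcases A.eq_empty_or_nonempty with h | h
    · rw [h]; simp
    · have hsub : A ⊆ Ico (A.min' h) (A.min' h + R) := by
        intro l hl
        rw [mem_Ico]
        refine ⟨Finset.min'_le _ _ hl, ?_⟩
        by_contra hcon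
        have h2 := hdis _ _ (not_lt.1 hcon)
        have h3 := (mem_filter.1 (Finset.min'_mem A h)).2
        have h4 := (mem_filter.1 hl).2
        exact (Finset.disjoint_left.1 h2) h3 h4
      have := Finset.card_le_card hsub
      rw [Nat.card_Ico] at this
      omega
  exact_mod_cast hcard

lemma summable_sq : Summable fun q : ℕ => (Real.log q) ^ 2 / (q : ℝ) ^ 2 := by
  have h1 : Summable fun q : ℕ => 16 * ((q : ℝ) ^ (-(3 / 2) : ℝ)) :=
    (Real.summable_nat_rpow.2 (by norm_num)).mul_left 16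
  refine Summable.of_nonneg_of_le (fun q => by positivity) (fun q => ?_) h1
  rcases Nat.eq_zero_or_pos q with h | h
  · subst h
    simp only [Nat.cast_zero, Real.log_zero]
    have : (0 : ℝ) ≤ 16 * (0 : ℝ) ^ (-(3 / 2) : ℝ) := by positivity
    simpa using this
  · have hq0 : (0 : ℝ) < q := by exact_mod_cast h
    have h2 := Real.log_le_rpow_div hq0.le (show (0 : ℝ) < 1 / 4 by norm_num)
    have h3 : 0 ≤ Real.log q := Real.log_natCast_nonneg q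
    have h4 : (Real.log q) ^ 2 ≤ ((q : ℝ) ^ (1 / 4 : ℝ) / (1 / 4)) ^ 2 := pow_le_pow_left₀ h3 h2 2
    have h5 : ((q : ℝ) ^ (1 / 4 : ℝ) / (1 / 4)) ^ 2 = 16 * (q : ℝ) ^ (1 / 2 : ℝ) := by
      rw [div_pow, ← Real.rpow_natCast, ← Real.rpow_mul hq0.le]
      norm_num
      ring
    have h6 : (q : ℝ) ^ (-(3 / 2) : ℝ) = (q : ℝ) ^ (1 / 2 : ℝ) / (q : ℝ) ^ 2 := by
      rw [← Real.rpow_natCast (q : ℝ) 2, ← Real.rpow_sub hq0]
      norm_num
    rw [h6, ← mul_div_assoc]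
    gcongr
    rw [← h5]
    exact h4

/-- the mean of the excess over the cells of a level -/
theorem sum_EXC (hFM : S_FM) {b : ℕ} (hb : 2 ≤ b) : ∃ k1 ≥ 7, ∃ K : ℝ, 0 ≤ K ∧ ∀ m0 : ℕ, ∃ P : ℕ,
    ∀ i0 z0 J : ℕ, P ≤ i0 → k1 ≤ i0 + 1 → m0 ≤ z0 → z0 ≤ 2 ^ (i0 + 1 - k1) → i0 ≤ J → ∀ T : Finset ℕ,
    (∀ p ∈ T, 2 ^ i0 < p ∧ p ≤ 2 ^ J) →
    ∑ c ∈ Ico (b ^ (z0 - m0)) (b ^ (z0 + m0)), EXC b k1 K z0 c i0 J T ≤
      (b : ℝ) ^ z0 * ∑ q ∈ T, (Real.log q) ^ 2 / (q : ℝ) ^ 2 := by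
  obtain ⟨κ0, K, hκ0, hK, hfm⟩ := hFM b hb
  obtain ⟨k, hk⟩ := exists_pow_lt_of_lt_one hκ0 (by norm_num : (1 / 2 : ℝ) < 1)
  refine ⟨k + 7, by omega, K, hK.le, fun m0 => ?_⟩
  obtain ⟨P, hP⟩ := hfm m0
  refine ⟨P, ?_⟩
  intro i0 z0 J hPi hki hmz hzi hiJ T hT
  have hb0 : (0 : ℝ) < b := by positivity
  unfold EXC
  rw [Finset.sum_comm]
  have hT1 : ∀ p ∈ T, 2 ^ i0 < p := fun p hp => (hT p hp).1
  have hT2 : ∀ p ∈ T, p ≤ 2 ^ J := fun p hp => (hT p hp).2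
  rw [← sum_blocks T i0 _ hT1 J hiJ hT2, Finset.mul_sum]
  refine Finset.sum_le_sum fun i hi => ?_
  rw [mem_Ico] at hi
  rw [Finset.sum_comm, Finset.mul_sum]
  refine Finset.sum_le_sum fun q hq => ?_
  set z := 2 ^ (i + 1 - (k + 7)) with hz
  have hz0z : z0 ≤ z := hzi.trans (Nat.pow_le_pow_right (by norm_num) (by omega))
  unfold TB at hq
  rw [mem_filter] at hq
  obtain ⟨hqT, hq1, hq2⟩ := hq
  have hPq : P ≤ q := by
    have : i < 2 ^ i := Nat.lt_two_pow_self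
    omega
  have hzκ : (z : ℝ) ≤ κ0 * q := by
    have h1 : (2 : ℝ) ^ i ≤ q := by exact_mod_cast hq1.le
    have h2 : (z : ℝ) ≤ κ0 * 2 ^ i := by
      have h3 : (2 : ℝ) ^ i = 2 ^ (i + 1 - (k + 7)) * 2 ^ (k + 6) := by
        rw [← pow_add]
        congr 1
        omega
      have h4 : (1 : ℝ) ≤ κ0 * 2 ^ (k + 6) := by
        have h5 : (1 / 2 : ℝ) ^ k * 2 ^ k = 1 := by
          rw [← mul_pow]
          norm_num
        have h6 : (2 : ℝ) ^ k ≤ 2 ^ (k + 6) := pow_le_pow_right₀ (by norm_num) (by omega)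
        have h7 : (0 : ℝ) < 2 ^ k := by positivity
        calc (1 : ℝ) = (1 / 2 : ℝ) ^ k * 2 ^ k := h5.symm
          _ ≤ κ0 * 2 ^ (k + 6) := mul_le_mul hk.le h6 h7.le hκ0.le
      have hz' : ((2 ^ (i + 1 - (k + 7)) : ℕ) : ℝ) = (2 : ℝ) ^ (i + 1 - (k + 7)) := by
        rw [Nat.cast_pow, Nat.cast_ofNat]
      rw [h3, hz, hz']
      have h5 : (0 : ℝ) < 2 ^ (i + 1 - (k + 7)) := by positivity
      calc (2 : ℝ) ^ (i + 1 - (k + 7)) = 1 * 2 ^ (i + 1 - (k + 7)) := (one_mul _).symm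
        _ ≤ (κ0 * 2 ^ (k + 6)) * 2 ^ (i + 1 - (k + 7)) := mul_le_mul_of_nonneg_right h4 h5.le
        _ = κ0 * (2 ^ (i + 1 - (k + 7)) * 2 ^ (k + 6)) := by ring
    exact h2.trans (mul_le_mul_of_nonneg_left h1 hκ0.le)
  have h1 := hP q hPq z (hmz.trans hz0z) hzκ
  rw [← Finset.sum_div]
  have e1 : b ^ (z - m0) = b ^ (z0 - m0) * b ^ (z - z0) := by rw [← pow_add]; congr 1; omega
  have e2 : b ^ (z + m0) = b ^ (z0 + m0) * b ^ (z - z0) := by rw [← pow_add]; congr 1; omega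
  rw [e1, e2, sum_range_cell' _ _ (Nat.pow_le_pow_right (by omega) (by omega))] at h1
  have e3 : (b : ℝ) ^ z = (b : ℝ) ^ z0 * (b : ℝ) ^ (z - z0) := by rw [← pow_add]; congr 1; omega
  rw [div_le_iff₀ (by positivity)]
  refine le_trans (le_of_eq ?_) (h1.trans (le_of_eq ?_))
  · rfl
  · rw [e3]; ring

end Pool.Agent.H32x.PL
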