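import Mathlib
import Pool.Agent.H32x.PL.Exc
import Pool.Agent.H32x.PL.Poi
import Pool.Agent.H32x.PL.Dig

set_option autoImplicit false

/-!
# The joint generating function of the exponents of a cell, with small weights
-/

namespace Pool.Agent.H32x.PL

open Finset Filter Topology
open Pool.Agent.N176.GP (cnt XX XX_nonneg cnt_eq NB NB_spec)
open Pool.Agent.N176.OW (cell kap VT TL TB cell_card VT_nonneg hits)
open Pool.Agent.H305R2 (roughPart)

theorem cell_gen {b : ℕ} (hb : 2 ≤ b) : ∃ C : ℝ, 0 < C ∧ ∃ P : ℕ, ∀ k1 ≥ 7, ∀ K : ℝ, 0 ≤ K →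
    ∀ z0 j0 : ℕ, 1 ≤ j0 → j0 ≤ b ^ (2 * z0) → ∀ i0 J : ℕ, P ≤ 2 ^ i0 → k1 ≤ i0 + 1 →
    z0 ≤ 2 ^ (i0 + 1 - k1) → i0 ≤ J → ∀ t ≥ 2 ^ J, ∀ (ι : Type) [Fintype ι] (T : ι → Finset ℕ),
    (∀ i j, i ≠ j → Disjoint (T i) (T j)) →
    (∀ p ∈ univ.biUnion T, 2 ^ i0 < p ∧ p ≤ 2 ^ J) → ∀ δ : ℝ, 0 ≤ δ →
    (∀ i, i0 ≤ i → i < J →
      VT ((univ.biUnion T).filter (fun p => 2 ^ (i + 1 - k1) < p ∧ p ≤ 2 ^ (i + 1))) ≤ δ) →
    ∀ α : ℝ, 0 ≤ α → α * (kap b * δ) ≤ 1 → ∀ e : ι → ℂ, (∀ j, ‖e j‖ = 1) → (∀ j, ‖1 - e j‖ ≤ α) →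
    ‖∑ n ∈ cell b z0 t j0, ∏ j, e j ^ (hits (T j) b t n).card -
      (b : ℝ) ^ (t - z0) * ∏ j, Complex.exp (-(((kap b * VT (T j) : ℝ) : ℂ) * (1 - e j)))‖ ≤
      (b : ℝ) ^ (t - z0) * (C * α ^ 2 * (δ * VT (univ.biUnion T) + CP b (univ.biUnion T)) +
        α * K * ∑ q ∈ univ.biUnion T, (q : ℝ)⁻¹ + α * EXC b k1 K z0 j0 i0 J (univ.biUnion T)) := by
  classical
  obtain ⟨C, hC, P, hmain⟩ := master hb
  refine ⟨C, hC, P, ?_⟩
  intro k1 hk1 K hK z0 j0 hj1 hj2 i0 J hP hk1i hz0 hiJ t ht ι _ T hdis hT δ hδ hblock α hα hδ2 e he he2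
  set U := univ.biUnion T with hU
  -- the weights
  set a : ℕ → ℂ := fun p => ∑ j, if p ∈ T j then 1 - e j else 0 with ha
  have ha1 : ∀ j, ∀ p ∈ T j, a p = 1 - e j := by
    intro j p hp
    simp only [ha]
    rw [Finset.sum_eq_single j]
    · rw [if_pos hp]
    · intro i _ hij
      rw [if_neg]
      intro h
      exact (Finset.disjoint_left.1 (hdis i j hij)) h hp
    · intro h; exact absurd (mem_univ j) h
  have ha2 : ∀ p, p ∉ U → a p = 0 := by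
    intro p hp
    simp only [ha]
    refine Finset.sum_eq_zero fun j _ => if_neg fun h => hp ?_
    rw [hU, mem_biUnion]
    exact ⟨j, mem_univ j, h⟩
  have ha3 : ∀ p, (∃ j, a p = 1 - e j) ∨ a p = 0 := by
    intro p
    by_cases hp : p ∈ U
    · left
      rw [hU, mem_biUnion] at hp
      obtain ⟨j, _, hj⟩ := hp
      exact ⟨j, ha1 j p hj⟩
    · right; exact ha2 p hp
  have hn1 : ∀ p, ‖1 - a p‖ ≤ 1 := by
    intro p
    rcases ha3 p with ⟨j, hj⟩ | hj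
    · rw [hj, sub_sub_cancel, he]
    · rw [hj]; simp
  have hn2 : ∀ p, ‖a p‖ ≤ α := by
    intro p
    rcases ha3 p with ⟨j, hj⟩ | hj
    · rw [hj]
      exact he2 j
    · rw [hj]; simpa using hα
  have hm := hmain k1 hk1 K hK z0 j0 hj1 hj2 i0 J hP hk1i hz0 hiJ t ht U hT α δ hα hδ hblock
    hδ2 a hn1 hn2
  have e1 : ∀ n, FF b t a U n = ∏ j, e j ^ (hits (T j) b t n).card := by
    intro n
    unfold FF
    rw [hU, Finset.prod_biUnion (fun i _ j _ hij => hdis i j hij)]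
    refine Finset.prod_congr rfl fun j _ => ?_
    rw [← prod_hits]
    exact Finset.prod_congr rfl fun p hp => by rw [ha1 j p hp]
  have e2 : Complex.exp (-∑ p ∈ U, a p * ((kap b * (Real.log p / p) : ℝ) : ℂ)) =
      ∏ j, Complex.exp (-(((kap b * VT (T j) : ℝ) : ℂ) * (1 - e j))) := by
    rw [← Complex.exp_sum, hU, Finset.sum_biUnion (fun i _ j _ hij => hdis i j hij),
      ← Finset.sum_neg_distrib]
    congr 1
    refine Finset.sum_congr rfl fun j _ => ?_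
    congr 1
    have : ∀ p ∈ T j, a p * ((kap b * (Real.log p / p) : ℝ) : ℂ) =
        ((kap b * (Real.log p / p) : ℝ) : ℂ) * (1 - e j) := by
      intro p hp
      rw [ha1 j p hp, mul_comm]
    rw [Finset.sum_congr rfl this, ← Finset.sum_mul]
    congr 1
    unfold VT
    rw [Finset.mul_sum]
    push_cast
    rfl
  simp only [e1] at hm
  rw [e2] at hm
  exact hm

/-- the interval of the cell `j` of level `z` -/
def Icell (b z j : ℕ) : Set ℝ := Set.Ioc ((j : ℝ) / (b : ℝ) ^ z) (((j : ℝ) + 1) / (b : ℝ) ^ z)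

/-- integrals of functions of the digits over ranges of cells -/
lemma int_Ico {b : ℕ} (hb : 2 ≤ b) (t : ℕ) (f : ℕ → ℂ) {m m' : ℕ} (hm : m ≤ m') :
    ∫ β in Set.Ioc ((m : ℝ) / (b : ℝ) ^ t) ((m' : ℝ) / (b : ℝ) ^ t), f (NB b β t) =
      (∑ n ∈ Ico m m', f n) / (b : ℂ) ^ t := by
  have hb0 : (0 : ℝ) < b := by positivity
  have hbt : (0 : ℝ) < (b : ℝ) ^ t := by positivity
  have hpiece : ∀ n : ℕ, MeasureTheory.IntegrableOn (fun β => f (NB b β t))
      (Set.Ioc ((n : ℝ) / (b : ℝ) ^ t) (((n + 1 : ℕ) : ℝ) / (b : ℝ) ^ t)) ∧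
      ∫ β in Set.Ioc ((n : ℝ) / (b : ℝ) ^ t) (((n + 1 : ℕ) : ℝ) / (b : ℝ) ^ t), f (NB b β t) =
        f n / (b : ℂ) ^ t := by
    intro n
    have hc : Set.EqOn (fun _ : ℝ => f n) (fun β => f (NB b β t))
        (Set.Ioc ((n : ℝ) / (b : ℝ) ^ t) (((n + 1 : ℕ) : ℝ) / (b : ℝ) ^ t)) := by
      intro β hβ
      have h2 := hβ.2
      push_cast at h2
      simp only
      rw [NB_eq hb hβ.1 h2]
    refine ⟨(MeasureTheory.integrableOn_const (by
      rw [Real.volume_Ioc]; exact ENNReal.ofReal_ne_top)).congr_fun hc measurableSet_Ioc, ?_⟩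
    rw [← MeasureTheory.setIntegral_congr_fun measurableSet_Ioc hc, MeasureTheory.setIntegral_const,
      MeasureTheory.Measure.real, Real.volume_Ioc, ENNReal.toReal_ofReal, Complex.real_smul]
    · have hbc : ((b : ℂ)) ^ t ≠ 0 := by
        have : (b : ℂ) ≠ 0 := by exact_mod_cast hb0.ne'
        exact pow_ne_zero _ this
      push_cast
      field_simp
      ring
    · push_cast
      rw [← sub_div]
      have : (n : ℝ) + 1 - n = 1 := by ring
      rw [this]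
      positivity
  have hle : ∀ n : ℕ, (n : ℝ) / (b : ℝ) ^ t ≤ ((n + 1 : ℕ) : ℝ) / (b : ℝ) ^ t := by
    intro n
    gcongr
    omega
  have h1 := intervalIntegral.sum_integral_adjacent_intervals_Ico (μ := MeasureTheory.volume)
    (f := fun β => f (NB b β t)) (a := fun n : ℕ => (n : ℝ) / (b : ℝ) ^ t) hm (fun n _ => by
      rw [intervalIntegrable_iff_integrableOn_Ioc_of_le (hle n)]
      exact (hpiece n).1)
  have hle2 : (m : ℝ) / (b : ℝ) ^ t ≤ (m' : ℝ) / (b : ℝ) ^ t := by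
    gcongr
  rw [intervalIntegral.integral_of_le hle2] at h1
  rw [← h1, Finset.sum_div]
  refine Finset.sum_congr rfl fun n _ => ?_
  rw [intervalIntegral.integral_of_le (hle n)]
  exact (hpiece n).2

lemma int_cell {b : ℕ} (hb : 2 ≤ b) {z t : ℕ} (hzt : z ≤ t) (j : ℕ) (f : ℕ → ℂ) :
    ∫ β in Icell b z j, f (NB b β t) = (∑ n ∈ cell b z t j, f n) / (b : ℂ) ^ t := by
  have hb0 : (0 : ℝ) < b := by positivity
  have e : (b : ℝ) ^ t = (b : ℝ) ^ z * (b : ℝ) ^ (t - z) := by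
    rw [← pow_add]; congr 1; omega
  have e1 : Icell b z j = Set.Ioc (((j * b ^ (t - z) : ℕ) : ℝ) / (b : ℝ) ^ t)
      ((((j + 1) * b ^ (t - z) : ℕ) : ℝ) / (b : ℝ) ^ t) := by
    unfold Icell
    push_cast
    rw [e]
    congr 1 <;> field_simp
  rw [e1]
  exact int_Ico hb t f (Nat.mul_le_mul_right _ (Nat.le_succ j))

end Pool.Agent.H32x.PL
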