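import Mathlib

set_option autoImplicit false

/-!
# A strong law for bounded variables, orthogonal at distance `R`
-/

namespace Pool.Agent.H32x.PL

open Finset Filter Topology MeasureTheory

/-- from the squares to all integers -/
lemma tendsto_of_sq (s : ℕ → ℝ) (h1 : ∀ n, |s (n + 1) - s n| ≤ 1)
    (h2 : Tendsto (fun k : ℕ => s (k ^ 2) / (k : ℝ) ^ 2) atTop (𝓝 0)) :
    Tendsto (fun n : ℕ => s n / n) atTop (𝓝 0) := by
  have h3 : ∀ n m, |s (n + m) - s n| ≤ m := by
    intro n m
    induction m with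
    | zero => simp
    | succ m ih =>
      have e : s (n + (m + 1)) - s n = (s (n + m + 1) - s (n + m)) + (s (n + m) - s n) := by
        rw [← add_assoc]; ring
      rw [e]
      refine (abs_add_le _ _).trans ?_
      push_cast
      linarith [h1 (n + m)]
  have hsq : Tendsto Nat.sqrt atTop atTop := by
    refine tendsto_atTop.2 fun m => ?_
    filter_upwards [eventually_ge_atTop (m ^ 2)] with n hn
    exact Nat.le_sqrt'.2 hn
  have h4 := h2.abs.comp hsq
  rw [abs_zero] at h4
  have h5 : Tendsto (fun n : ℕ => (2 : ℝ) / (Nat.sqrt n : ℝ)) atTop (𝓝 0) :=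
    (tendsto_const_div_atTop_nhds_zero_nat 2).comp hsq
  have h6 := h4.add h5
  rw [add_zero] at h6
  refine squeeze_zero_norm' ?_ h6
  filter_upwards [eventually_ge_atTop 1] with n hn
  have hk1 : 1 ≤ Nat.sqrt n := Nat.le_sqrt'.2 (by simpa using hn)
  set k := Nat.sqrt n with hk
  have hkr : (1 : ℝ) ≤ k := by exact_mod_cast hk1
  have hk0 : (0 : ℝ) < k := by linarith
  have ha : k ^ 2 ≤ n := Nat.sqrt_le' n
  have hb : n ≤ k * k + k + k := Nat.sqrt_le_add n
  have hc := h3 (k ^ 2) (n - k ^ 2)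
  have e : k ^ 2 + (n - k ^ 2) = n := by omega
  rw [e] at hc
  have hd : ((n - k ^ 2 : ℕ) : ℝ) ≤ 2 * k := by
    have : n - k ^ 2 ≤ 2 * k := by
      have : k ^ 2 = k * k := sq k
      omega
    exact_mod_cast this
  have hn0 : (k : ℝ) ^ 2 ≤ n := by exact_mod_cast ha
  have hk2 : (0 : ℝ) < (k : ℝ) ^ 2 := by positivity
  have hs : |s n| ≤ |s (k ^ 2)| + 2 * k := by
    have := abs_sub_abs_le_abs_sub (s n) (s (k ^ 2))
    linarith
  rw [norm_div, Real.norm_eq_abs, Real.norm_of_nonneg (Nat.cast_nonneg n)]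
  simp only [Function.comp]
  rw [abs_div, abs_of_pos hk2]
  calc |s n| / n ≤ |s n| / (k : ℝ) ^ 2 := div_le_div_of_nonneg_left (abs_nonneg _) hk2 hn0
    _ ≤ (|s (k ^ 2)| + 2 * k) / (k : ℝ) ^ 2 := by gcongr
    _ = _ := by rw [add_div]; congr 1; field_simp

/-- nonnegative functions with summable integrals tend to zero almost everywhere -/
lemma ae_tendsto_zero {Ω : Type*} [MeasurableSpace Ω] (μ : Measure Ω) (g : ℕ → Ω → ℝ)
    (hg0 : ∀ k ω, 0 ≤ g k ω) (hgi : ∀ k, Integrable (g k) μ) (c : ℕ → ℝ) (hc : Summable c)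
    (h : ∀ k, ∫ ω, g k ω ∂μ ≤ c k) : ∀ᵐ ω ∂μ, Tendsto (fun k => g k ω) atTop (𝓝 0) := by
  have h1 : ∫⁻ ω, ∑' k, ENNReal.ofReal (g k ω) ∂μ ≠ ⊤ := by
    rw [lintegral_tsum fun k => (hgi k).aestronglyMeasurable.aemeasurable.ennreal_ofReal]
    have hc0 : ∀ k, 0 ≤ c k := fun k => (integral_nonneg (hg0 k)).trans (h k)
    refine ne_top_of_le_ne_top ?_ (ENNReal.tsum_le_tsum (g := fun k => ENNReal.ofReal (c k)) fun k => ?_)
    · rw [← ENNReal.ofReal_tsum_of_nonneg hc0 hc]
      exact ENNReal.ofReal_ne_top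
    · rw [← ofReal_integral_eq_lintegral_ofReal (hgi k) (Filter.Eventually.of_forall (hg0 k))]
      exact ENNReal.ofReal_le_ofReal (h k)
  have h2 := ae_lt_top' (AEMeasurable.tsum fun k =>
    (hgi k).aestronglyMeasurable.aemeasurable.ennreal_ofReal) h1
  filter_upwards [h2] with ω hω
  have h3 := ENNReal.tendsto_atTop_zero_of_tsum_ne_top hω.ne
  have h4 := (ENNReal.tendsto_toReal ENNReal.zero_ne_top).comp h3
  simp only [ENNReal.toReal_zero] at h4
  refine h4.congr fun k => ?_
  simp only [Function.comp]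
  exact ENNReal.toReal_ofReal (hg0 k ω)

theorem slln {Ω : Type*} [MeasurableSpace Ω] (μ : Measure Ω) [IsFiniteMeasure μ] (D : ℕ → Ω → ℝ)
    (hD : ∀ l, Measurable (D l)) (hb : ∀ l ω, |D l ω| ≤ 1) (R : ℕ)
    (horth : ∀ l l', l + R ≤ l' → ∫ ω, D l ω * D l' ω ∂μ = 0) :
    ∀ᵐ ω ∂μ, Tendsto (fun L : ℕ => (∑ l ∈ range L, D l ω) / L) atTop (𝓝 0) := by
  set M := μ.real Set.univ with hM
  have hM0 : 0 ≤ M := measureReal_nonneg
  have hint : ∀ l l', Integrable (fun ω => D l ω * D l' ω) μ := by
    intro l l'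
    refine Integrable.of_bound (C := 1) ((hD l).mul (hD l')).aestronglyMeasurable
      (Filter.Eventually.of_forall fun ω => ?_)
    rw [norm_mul, Real.norm_eq_abs, Real.norm_eq_abs]
    have h1 := hb l ω
    have h2 := hb l' ω
    have h3 := abs_nonneg (D l ω)
    have h4 := abs_nonneg (D l' ω)
    nlinarith
  have hprod : ∀ l l', ∫ ω, D l ω * D l' ω ∂μ ≤ M := by
    intro l l'
    have h1 : ‖∫ ω, D l ω * D l' ω ∂μ‖ ≤ 1 * μ.real Set.univ := by
      refine norm_integral_le_of_norm_le_const (Filter.Eventually.of_forall fun ω => ?_)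
      rw [norm_mul, Real.norm_eq_abs, Real.norm_eq_abs]
      have h1 := hb l ω
      have h2 := hb l' ω
      have h3 := abs_nonneg (D l ω)
      have h4 := abs_nonneg (D l' ω)
      nlinarith
    rw [one_mul] at h1
    exact (Real.le_norm_self _).trans h1
  have hsq : ∀ L : ℕ, ∫ ω, (∑ l ∈ range L, D l ω) ^ 2 ∂μ ≤ L * (2 * R * M) := by
    intro L
    have e : ∀ ω, (∑ l ∈ range L, D l ω) ^ 2 = ∑ l ∈ range L, ∑ l' ∈ range L, D l ω * D l' ω := by
      intro ω
      rw [sq, Finset.sum_mul_sum]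
    simp only [e]
    rw [integral_finsetSum _ fun l _ => integrable_finsetSum _ fun l' _ => hint l l']
    have h1 : ∀ l ∈ range L, ∫ ω, ∑ l' ∈ range L, D l ω * D l' ω ∂μ ≤ 2 * R * M := by
      intro l _
      rw [integral_finsetSum _ fun l' _ => hint l l']
      calc ∑ l' ∈ range L, ∫ ω, D l ω * D l' ω ∂μ ≤
            ∑ l' ∈ range L, if l' ∈ Ico (l + 1 - R) (l + R) then M else 0 := by
            refine Finset.sum_le_sum fun l' _ => ?_
            split_ifs with h
            · exact hprod l l'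
            · rw [mem_Ico] at h
              rcases Nat.lt_or_ge l' (l + R) with h2 | h2
              · have h3 : l' + R ≤ l := by omega
                have h4 := horth l' l h3
                have h5 : ∀ ω, D l ω * D l' ω = D l' ω * D l ω := fun ω => mul_comm _ _
                simp only [h5]
                exact h4.le
              · exact (horth l l' h2).le
        _ ≤ ∑ l' ∈ Ico (l + 1 - R) (l + R), M := by
            rw [← Finset.sum_filter]
            refine Finset.sum_le_sum_of_subset_of_nonneg ?_ fun _ _ _ => hM0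
            intro x hx
            rw [mem_filter] at hx
            exact hx.2
        _ ≤ 2 * R * M := by
            rw [Finset.sum_const, nsmul_eq_mul]
            refine mul_le_mul_of_nonneg_right ?_ hM0
            rw [Nat.card_Ico]
            have : l + R - (l + 1 - R) ≤ 2 * R := by omega
            exact_mod_cast this
    refine (Finset.sum_le_sum h1).trans (le_of_eq ?_)
    rw [Finset.sum_const, card_range, nsmul_eq_mul]
  have hae := ae_tendsto_zero μ (fun k ω => ((∑ l ∈ range (k ^ 2), D l ω) / (k : ℝ) ^ 2) ^ 2)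
    (fun k ω => sq_nonneg _) (fun k => by
      have hm : Measurable fun ω => ((∑ l ∈ range (k ^ 2), D l ω) / (k : ℝ) ^ 2) ^ 2 :=
        ((Finset.measurable_sum _ fun l _ => hD l).div_const _).pow_const _
      refine Integrable.of_bound (C := (((k ^ 2 : ℕ) : ℝ) / (k : ℝ) ^ 2) ^ 2) hm.aestronglyMeasurable
        (Filter.Eventually.of_forall fun ω => ?_)
      rw [norm_pow, norm_div, Real.norm_eq_abs, Real.norm_of_nonneg (by positivity : (0 : ℝ) ≤ (k : ℝ) ^ 2)]
      have : |∑ l ∈ range (k ^ 2), D l ω| ≤ ((k ^ 2 : ℕ) : ℝ) := by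
        refine (Finset.abs_sum_le_sum_abs _ _).trans ?_
        refine (Finset.sum_le_sum fun l _ => hb l ω).trans ?_
        rw [Finset.sum_const, card_range, nsmul_eq_mul, mul_one]
      gcongr) (fun k => (2 * R * M) * (1 / (k : ℝ) ^ 2))
    ((Real.summable_one_div_nat_pow.2 (by norm_num)).mul_left _) (fun k => by
      simp only [div_pow]
      rw [integral_div]
      have h1 := hsq (k ^ 2)
      rcases Nat.eq_zero_or_pos k with h0 | h0
      · subst h0; simp
      · have hk : (0 : ℝ) < k := by exact_mod_cast h0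
        rw [div_le_iff₀ (by positivity)]
        push_cast at h1
        refine h1.trans (le_of_eq ?_)
        field_simp)
  filter_upwards [hae] with ω hω
  refine tendsto_of_sq (fun n => ∑ l ∈ range n, D l ω) (fun n => ?_) ?_
  · rw [Finset.sum_range_succ]
    simpa using hb n ω
  · have h1 := hω.sqrt
    simp only [Real.sqrt_sq_eq_abs, Real.sqrt_zero] at h1
    exact (tendsto_zero_iff_abs_tendsto_zero _).2 h1

end Pool.Agent.H32x.PL
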