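import Mathlib
import Pool.Agent.H32x.PL.Exc
import Pool.Agent.H32x.PL.Slln

set_option autoImplicit false

/-!
# Poisson statistics along arrays of sets of exponents, for almost every amplitude
-/

namespace Pool.Agent.H32x.PL

open Finset Filter Topology MeasureTheory
open Pool.Agent.N176.GP (cnt XX NB NB_spec NB_div)
open Pool.Agent.N176.OW (cell kap VT TL TB cell_card VT_nonneg hits S_FM)
open Pool.Agent.H305R2 (roughPart)

lemma kap_pos {b : ℕ} (hb : 2 ≤ b) : 0 < kap b := by
  unfold kap
  have : 0 < Real.log b := Real.log_pos (by exact_mod_cast (by omega : 1 < b))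
  positivity

lemma continuous_Poi (k : ℕ) : Continuous fun l => Poi l k := by
  unfold Poi
  fun_prop

open Classical in
/-- the indicator of the pattern `k` for the sets `T l j` -/
noncomputable def pat (b : ℕ) {ι : Type} (T : ℕ → ι → Finset ℕ) (k : ι → ℕ) (l : ℕ) (β : ℝ) : ℝ :=
  if ∀ j, ((T l j).filter (fun p => (roughPart p (NB b β p)).Prime)).card = k j then 1 else 0

theorem arr_win (hFM : S_FM) {b : ℕ} (hb : 2 ≤ b) : ∃ k1 ≥ 7, ∀ (ι : Type) [Fintype ι]
    (T : ℕ → ι → Finset ℕ) (I J : ℕ → ℕ) (R : ℕ) (δ : ℕ → ℝ) (lam : ι → ℝ),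
    (∀ l i j, i ≠ j → Disjoint (T l i) (T l j)) →
    (∀ l, ∀ p ∈ univ.biUnion (T l), 2 ^ I l < p ∧ p ≤ 2 ^ J l) → (∀ l, I l ≤ J l) →
    Tendsto I atTop atTop →
    (∀ l l', l + R ≤ l' → J l + k1 ≤ I l' + 1) →
    (∀ l, 0 ≤ δ l) → Tendsto δ atTop (𝓝 0) →
    (∀ l i, I l ≤ i → i < J l →
      VT ((univ.biUnion (T l)).filter (fun p => 2 ^ (i + 1 - k1) < p ∧ p ≤ 2 ^ (i + 1))) ≤ δ l) →
    (∀ j, Tendsto (fun l => kap b * VT (T l j)) atTop (𝓝 (lam j))) →
    Tendsto (fun L : ℕ => (∑ l ∈ range L, CP b (univ.biUnion (T l))) / L) atTop (𝓝 0) →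
    ∀ (k : ι → ℕ) (m0 : ℕ), ∀ᵐ β ∂(volume.restrict (Win b m0)),
      Tendsto (fun L : ℕ => (∑ l ∈ range L, pat b T k l β) / L) atTop
        (𝓝 (∏ j, Poi (lam j) (k j))) := by
  classical
  obtain ⟨C, hC, P1, hcp⟩ := cell_poisson hb
  obtain ⟨k1, hk1, K, hK, hexc⟩ := sum_EXC hFM hb
  refine ⟨k1, hk1, ?_⟩
  intro ι _ T I J R δ lam hdis hT hIJ hI hgap hδ0 hδ hblock hlam hCP k m0
  obtain ⟨P2, hP2⟩ := hexc m0
  set κ := kap b with hκ
  have hκ0 : 0 < κ := kap_pos hb
  have hb0 : (0 : ℝ) < b := by positivity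
  obtain ⟨l0, hl0⟩ : ∃ l0, ∀ l ≥ l0, P1 ≤ 2 ^ I l ∧ P2 ≤ I l ∧ k1 ≤ I l + 1 ∧
      m0 ≤ 2 ^ (I l + 1 - k1) ∧ 2 * (κ * δ l) ≤ 1 ∧ 1 ≤ I l := by
    have h1 := hI.eventually_ge_atTop (P1 + P2 + k1 + m0 + 1)
    have h2 := (hδ.const_mul κ).const_mul 2
    rw [mul_zero, mul_zero] at h2
    have h3 := h2.eventually_le_const (show (0 : ℝ) < 1 by norm_num)
    obtain ⟨l0, hl0⟩ := eventually_atTop.1 (h1.and h3)
    refine ⟨l0, fun l hl => ?_⟩
    obtain ⟨h4, h5⟩ := hl0 l hl
    have h6 : I l < 2 ^ I l := Nat.lt_two_pow_self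
    have h7 : I l + 1 - k1 < 2 ^ (I l + 1 - k1) := Nat.lt_two_pow_self
    exact ⟨by omega, by omega, by omega, by omega, h5, by omega⟩
  set z : ℕ → ℕ := fun l => 2 ^ (I l + 1 - k1) with hz
  set t : ℕ → ℕ := fun l => 2 ^ J l with ht
  set U : ℕ → Finset ℕ := fun l => univ.biUnion (T l) with hU
  have hTU : ∀ l j, ∀ p ∈ T l j, p ∈ U l := fun l j p hp => by
    simp only [hU]; rw [mem_biUnion]; exact ⟨j, mem_univ j, hp⟩
  have hzt : ∀ l, z l ≤ t l := fun l => by
    have := hIJ l
    exact Nat.pow_le_pow_right (by norm_num) (by omega)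
  have htz : ∀ l l', l + R ≤ l' → t l ≤ z l' := fun l l' h => by
    have := hgap l l' h
    exact Nat.pow_le_pow_right (by norm_num) (by omega)
  set ind : ℕ → ℕ → ℝ := fun l n => if ∀ j, (hits (T l j) b (t l) n).card = k j then 1 else 0 with hind
  set av : ℕ → ℕ → ℝ := fun l c => (∑ n ∈ cell b (z l) (t l) c, ind l n) / (b : ℝ) ^ (t l - z l) with hav
  set d : ℕ → ℕ → ℝ := fun l n => ind l n - av l (n / b ^ (t l - z l)) with hd
  set D : ℕ → ℝ → ℝ := fun l β => if l0 ≤ l then d l (NB b β (t l)) else 0 with hD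
  have hind0 : ∀ l n, 0 ≤ ind l n := fun l n => by simp only [hind]; split_ifs <;> norm_num
  have hind1 : ∀ l n, ind l n ≤ 1 := fun l n => by simp only [hind]; split_ifs <;> norm_num
  have hav0 : ∀ l c, 0 ≤ av l c := fun l c =>
    div_nonneg (Finset.sum_nonneg fun n _ => hind0 l n) (by positivity)
  have hav1 : ∀ l c, av l c ≤ 1 := fun l c => by
    simp only [hav]
    rw [div_le_one (by positivity)]
    calc ∑ n ∈ cell b (z l) (t l) c, ind l n ≤ ∑ n ∈ cell b (z l) (t l) c, (1 : ℝ) :=
          Finset.sum_le_sum fun n _ => hind1 l n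
      _ = _ := by rw [Finset.sum_const, cell_card, nsmul_eq_mul, mul_one]; push_cast; rfl
  have hd1 : ∀ l n, |d l n| ≤ 1 := fun l n => by
    simp only [hd]
    rw [abs_le]
    have h1 := hind0 l n
    have h2 := hind1 l n
    have h3 := hav0 l (n / b ^ (t l - z l))
    have h4 := hav1 l (n / b ^ (t l - z l))
    constructor <;> linarith
  have hpat : ∀ l, ∀ β ∈ Win b m0, pat b T k l β = ind l (NB b β (t l)) := by
    intro l β hβ
    have hβ0 := Win_pos hb hβ
    unfold pat
    simp only [hind]
    have : ∀ j, (T l j).filter (fun p => (roughPart p (NB b β p)).Prime) =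
        hits (T l j) b (t l) (NB b β (t l)) := by
      intro j
      unfold hits
      refine Finset.filter_congr fun p hp => ?_
      have hpt : p ≤ t l := (hT l p (hTU l j p hp)).2
      rw [NB_div hb hβ0 hpt]
    simp only [this]
  -- orthogonality
  have horth : ∀ l l', l + R ≤ l' → ∫ β, D l β * D l' β ∂(volume.restrict (Win b m0)) = 0 := by
    intro l l' hll
    by_cases h : l0 ≤ l
    · have h' : l0 ≤ l' := by omega
      have h1 := htz l l' hll
      have h2 := hzt l'
      have hmz : m0 ≤ z l' := (hl0 l' h').2.2.2.1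
      have hcongr : ∫ β in Win b m0, D l β * D l' β =
          ∫ β in Win b m0, (fun n => d l (n / b ^ (t l' - t l)) * d l' n) (NB b β (t l')) := by
        refine setIntegral_congr_fun (measurableSet_Win b m0) fun β hβ => ?_
        simp only [hD, if_pos h, if_pos h']
        rw [NB_div hb (Win_pos hb hβ) (h1.trans h2)]
      rw [hcongr]
      refine (int_digits hb (hmz.trans h2) (fun n => d l (n / b ^ (t l' - t l)) * d l' n)).trans ?_
      have e1 : b ^ (t l' - m0) = b ^ (z l' - m0) * b ^ (t l' - z l') := by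
        rw [← pow_add]; congr 1; omega
      have e2 : b ^ (t l' + m0) = b ^ (z l' + m0) * b ^ (t l' - z l') := by
        rw [← pow_add]; congr 1; omega
      rw [e1, e2, sum_range_cell' _ _ (Nat.pow_le_pow_right (by omega) (by omega)),
        Finset.sum_eq_zero, zero_div]
      intro c _
      have h3 : ∀ n ∈ cell b (z l') (t l') c, d l (n / b ^ (t l' - t l)) * d l' n =
          d l (c / b ^ (z l' - t l)) * d l' n := by
        intro n hn
        have h4 := Pool.Agent.N176.OW.div_of_mem_cell hb hn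
        have h5 : n / b ^ (t l' - t l) = c / b ^ (z l' - t l) := by
          rw [← h4, Nat.div_div_eq_div_mul, ← pow_add]
          congr 2
          omega
        rw [h5]
      rw [Finset.sum_congr rfl h3, ← Finset.mul_sum]
      have h6 : ∑ n ∈ cell b (z l') (t l') c, d l' n = 0 := by
        have h7 : ∀ n ∈ cell b (z l') (t l') c, d l' n = ind l' n - av l' c := by
          intro n hn
          simp only [hd]
          rw [Pool.Agent.N176.OW.div_of_mem_cell hb hn]
        rw [Finset.sum_congr rfl h7, Finset.sum_sub_distrib, Finset.sum_const, cell_card, nsmul_eq_mul]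
        simp only [hav]
        push_cast
        field_simp
        ring
      rw [h6, mul_zero]
    · have : ∀ β, D l β = 0 := fun β => by simp only [hD, if_neg h]
      simp only [this, zero_mul, integral_zero]
  have hDm : ∀ l, Measurable (D l) := by
    intro l
    by_cases h : l0 ≤ l
    · have : D l = fun β => d l (NB b β (t l)) := by
        funext β; simp only [hD, if_pos h]
      rw [this]
      exact measurable_digits b (t l) (d l)
    · have : D l = fun _ => 0 := by
        funext β; simp only [hD, if_neg h]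
      rw [this]
      exact measurable_const
  have hDb : ∀ l β, |D l β| ≤ 1 := by
    intro l β
    simp only [hD]
    split_ifs
    · exact hd1 _ _
    · simp
  have hA := slln (volume.restrict (Win b m0)) D hDm hDb R horth
  -- the excess
  set G : ℕ → ℝ → ℝ := fun l β => if l0 ≤ l then EXC b k1 K (z l) (NB b β (z l)) (I l) (J l) (U l) else 0
    with hG
  have hEX0 : ∀ l c, 0 ≤ EXC b k1 K (z l) c (I l) (J l) (U l) := by
    intro l c
    unfold EXC
    exact Finset.sum_nonneg fun i _ => Finset.sum_nonneg fun q _ => div_nonneg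
      (Finset.sum_nonneg fun c _ => Exs_nonneg _ _ _ _ _) (by positivity)
  have hG0 : ∀ l β, 0 ≤ G l β := by
    intro l β
    simp only [hG]
    split_ifs
    · exact hEX0 _ _
    · exact le_rfl
  set cc : ℕ → ℝ := fun l => ∑ q ∈ U l, (Real.log q) ^ 2 / (q : ℝ) ^ 2 with hcc
  have hdisU : ∀ l l', l + R ≤ l' → Disjoint (U l) (U l') := by
    intro l l' h
    rw [Finset.disjoint_left]
    intro p h1 h2
    have h3 := (hT l p h1).2
    have h4 := (hT l' p h2).1
    have h5 := hgap l l' h
    have h6 : 2 ^ J l ≤ 2 ^ I l' := Nat.pow_le_pow_right (by norm_num) (by omega)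
    omega
  have hccs : Summable cc := by
    refine summable_of_sum_range_le (c := R * ∑' q : ℕ, (Real.log q) ^ 2 / (q : ℝ) ^ 2)
      (fun l => Finset.sum_nonneg fun q _ => by positivity) fun L => ?_
    refine (sum_mult U R hdisU (fun q => (Real.log q) ^ 2 / (q : ℝ) ^ 2) (fun q => by positivity) L
      ((range L).biUnion U) fun l hl => ?_).trans ?_
    · exact Finset.subset_biUnion_of_mem U (mem_range.2 hl)
    · exact mul_le_mul_of_nonneg_left (summable_sq.sum_le_tsum _ (fun q _ => by positivity))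
        (Nat.cast_nonneg _)
  have hGi : ∀ l, Integrable (G l) (volume.restrict (Win b m0)) := by
    intro l
    by_cases h : l0 ≤ l
    · have : G l = fun β => (fun c => EXC b k1 K (z l) c (I l) (J l) (U l)) (NB b β (z l)) := by
        funext β; simp only [hG, if_pos h]
      rw [this]
      exact integrable_digits hb (t := z l) (hl0 l h).2.2.2.1 (fun c => EXC b k1 K (z l) c (I l) (J l) (U l))
    · have : G l = fun _ => 0 := by
        funext β; simp only [hG, if_neg h]
      rw [this]
      exact integrable_zero _ _ _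
  have hGc : ∀ l, ∫ β, G l β ∂(volume.restrict (Win b m0)) ≤ cc l := by
    intro l
    by_cases h : l0 ≤ l
    · obtain ⟨h1, h2, h3, h4, h5, h6⟩ := hl0 l h
      have : G l = fun β => (fun c => EXC b k1 K (z l) c (I l) (J l) (U l)) (NB b β (z l)) := by
        funext β; simp only [hG, if_pos h]
      rw [this]
      refine (int_digits hb h4 (fun c => EXC b k1 K (z l) c (I l) (J l) (U l))).trans_le ?_
      rw [div_le_iff₀ (by positivity)]
      refine (hP2 (I l) (z l) (J l) h2 h3 h4 le_rfl (hIJ l) (U l) (hT l)).trans (le_of_eq ?_)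
      simp only [hcc]
      ring
    · have : ∀ β, G l β = 0 := fun β => by simp only [hG, if_neg h]
      simp only [this, integral_zero]
      exact Finset.sum_nonneg fun q _ => by positivity
  have hB := ae_tendsto_zero (volume.restrict (Win b m0)) G hG0 hGi cc hccs hGc
  have hW : ∀ᵐ β ∂(volume.restrict (Win b m0)), β ∈ Win b m0 := ae_restrict_mem (measurableSet_Win b m0)
  -- the limits of the error terms
  have hVU : ∀ l, VT (U l) = ∑ j, VT (T l j) := by
    intro l
    simp only [hU]
    unfold VT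
    rw [Finset.sum_biUnion (fun i _ j _ hij => hdis l i j hij)]
  have hVT : ∀ j, Tendsto (fun l => VT (T l j)) atTop (𝓝 (lam j / κ)) := by
    intro j
    have h1 := (hlam j).div_const κ
    refine h1.congr fun l => ?_
    field_simp
  have hVUt : Tendsto (fun l => VT (U l)) atTop (𝓝 (∑ j, lam j / κ)) := by
    simp only [hVU]
    exact tendsto_finsetSum _ fun j _ => hVT j
  have hE1 : Tendsto (fun l => C * (δ l * VT (U l))) atTop (𝓝 0) := by
    have := (hδ.mul hVUt).const_mul C
    simpa using this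
  have hE2 : Tendsto (fun l => 2 * K * ∑ q ∈ U l, (q : ℝ)⁻¹) atTop (𝓝 0) := by
    have hlim : Tendsto (fun l => 2 * K * (VT (U l) * ((I l : ℝ) * Real.log 2)⁻¹)) atTop (𝓝 0) := by
      have hl2 : 0 < Real.log 2 := Real.log_pos (by norm_num)
      have h1 : Tendsto (fun l => ((I l : ℝ) * Real.log 2)⁻¹) atTop (𝓝 0) :=
        tendsto_inv_atTop_zero.comp ((tendsto_natCast_atTop_atTop.comp hI).atTop_mul_const hl2)
      have := (hVUt.mul h1).const_mul (2 * K)
      simpa using this
    refine squeeze_zero' (Filter.Eventually.of_forall fun l => ?_) ?_ hlim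
    · exact mul_nonneg (by positivity) (Finset.sum_nonneg fun q _ => by positivity)
    · filter_upwards [eventually_ge_atTop l0] with l hl
      obtain ⟨_, _, _, _, _, hI1⟩ := hl0 l hl
      refine mul_le_mul_of_nonneg_left ?_ (by positivity)
      unfold VT
      rw [Finset.sum_mul]
      refine Finset.sum_le_sum fun q hq => ?_
      have h1 : (2 : ℝ) ^ I l ≤ q := by exact_mod_cast (hT l q hq).1.le
      have hx0 : (0 : ℝ) < (2 : ℝ) ^ I l := by positivity
      have hq0 : (0 : ℝ) < q := lt_of_lt_of_le hx0 h1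
      have h2 : (I l : ℝ) * Real.log 2 ≤ Real.log q := by
        rw [← Real.log_pow]
        exact Real.log_le_log hx0 h1
      have hI0 : (0 : ℝ) < (I l : ℝ) * Real.log 2 := by
        have : (0 : ℝ) < I l := by exact_mod_cast hI1
        have : 0 < Real.log 2 := Real.log_pos (by norm_num)
        positivity
      rw [div_mul_eq_mul_div, inv_eq_one_div]
      gcongr
      rw [← div_eq_mul_inv, le_div_iff₀ hI0, one_mul]
      exact h2
  have hPl : Tendsto (fun l => ∏ j, Poi (κ * VT (T l j)) (k j)) atTop (𝓝 (∏ j, Poi (lam j) (k j))) :=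
    tendsto_finsetProd _ fun j _ => ((continuous_Poi (k j)).tendsto _).comp (hlam j)
  set Q0 := ∏ j, Poi (lam j) (k j) with hQ0
  have hE3 : Tendsto (fun l => |∏ j, Poi (κ * VT (T l j)) (k j) - Q0|) atTop (𝓝 0) := by
    have := (hPl.sub_const Q0).abs
    simpa using this
  -- conclusion
  filter_upwards [hA, hB, hW] with β hβA hβB hβW
  have hβ0 := Win_pos hb hβW
  set w : ℕ → ℝ := fun l => pat b T k l β - D l β - Q0 with hw
  set x : ℕ → ℝ := fun l => if l0 ≤ l then C * (δ l * VT (U l)) + 2 * K * ∑ q ∈ U l, (q : ℝ)⁻¹ +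
    2 * G l β + |∏ j, Poi (κ * VT (T l j)) (k j) - Q0| else |w l| with hx
  have hxt : Tendsto x atTop (𝓝 0) := by
    have h1 := ((hE1.add hE2).add (hβB.const_mul 2)).add hE3
    simp only [mul_zero, add_zero] at h1
    refine h1.congr' ?_
    filter_upwards [eventually_ge_atTop l0] with l hl
    simp only [hx, if_pos hl]
  have hCP0 : ∀ l, 0 ≤ CP b (U l) := by
    intro l
    unfold CP
    exact Finset.sum_nonneg fun q _ => Finset.sum_nonneg fun p _ => div_nonneg (w_nonneg p) (by positivity)
  have hwx : ∀ l, |w l| ≤ x l + C * CP b (U l) := by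
    intro l
    by_cases h : l0 ≤ l
    · obtain ⟨h1, h2, h3, h4, h5, h6⟩ := hl0 l h
      have hzl : m0 ≤ z l := h4
      obtain ⟨hN1, hN2⟩ := NB_mem hb hzl hβW.1 hβW.2
      have hj1 : 1 ≤ NB b β (z l) := by
        have : 1 ≤ b ^ (z l - m0) := Nat.one_le_pow _ _ (by omega)
        omega
      have hj2 : NB b β (z l) ≤ b ^ (2 * z l) := by
        have : b ^ (z l + m0) ≤ b ^ (2 * z l) := Nat.pow_le_pow_right (by omega) (by omega)
        omega
      have hmain := hcp k1 hk1 K hK (z l) (NB b β (z l)) hj1 hj2 (I l) (J l) h1 h3 le_rfl (hIJ l)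
        (t l) le_rfl ι (T l) (hdis l) (hT l) (δ l) (hδ0 l) (hblock l) h5 k
      have hcard : (((cell b (z l) (t l) (NB b β (z l))).filter
          (fun n => ∀ j, (hits (T l j) b (t l) n).card = k j)).card : ℝ) =
          av l (NB b β (z l)) * (b : ℝ) ^ (t l - z l) := by
        simp only [hav, hind]
        rw [div_mul_cancel₀ _ (by positivity), ← Finset.sum_filter, Finset.sum_const, nsmul_eq_mul, mul_one]
      rw [hcard] at hmain
      have hbtz : (0 : ℝ) < (b : ℝ) ^ (t l - z l) := by positivity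
      have e1 : av l (NB b β (z l)) * (b : ℝ) ^ (t l - z l) -
          (b : ℝ) ^ (t l - z l) * ∏ j, Poi (kap b * VT (T l j)) (k j) =
          (b : ℝ) ^ (t l - z l) * (av l (NB b β (z l)) - ∏ j, Poi (κ * VT (T l j)) (k j)) := by
        rw [hκ]; ring
      rw [e1, abs_mul, abs_of_pos hbtz] at hmain
      have hmain2 := le_of_mul_le_mul_left hmain hbtz
      have hwl : w l = (av l (NB b β (z l)) - ∏ j, Poi (κ * VT (T l j)) (k j)) +
          (∏ j, Poi (κ * VT (T l j)) (k j) - Q0) := by
        simp only [hw, hD, if_pos h, hd]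
        rw [hpat l β hβW, NB_div hb hβ0 (hzt l)]
        ring
      have hGl : G l β = EXC b k1 K (z l) (NB b β (z l)) (I l) (J l) (U l) := by
        simp only [hG, if_pos h]
      rw [hwl]
      refine (abs_add_le _ _).trans ?_
      simp only [hx, if_pos h]
      rw [hGl]
      linarith
    · simp only [hx, if_neg h]
      have := mul_nonneg hC.le (hCP0 l)
      linarith
  have hwt : Tendsto (fun L : ℕ => (∑ l ∈ range L, w l) / L) atTop (𝓝 0) := by
    have h1 := hxt.cesaro
    have h2 := (hCP.const_mul C)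
    rw [mul_zero] at h2
    have h3 := h1.add h2
    rw [add_zero] at h3
    refine squeeze_zero_norm (fun L => ?_) h3
    rw [norm_div, Real.norm_eq_abs, Real.norm_of_nonneg (Nat.cast_nonneg L)]
    calc |∑ l ∈ range L, w l| / L ≤ (∑ l ∈ range L, (x l + C * CP b (U l))) / L := by
          gcongr
          exact (Finset.abs_sum_le_sum_abs _ _).trans (Finset.sum_le_sum fun l _ => hwx l)
      _ = _ := by
          rw [Finset.sum_add_distrib, ← Finset.mul_sum]
          rw [add_div, inv_mul_eq_div, mul_div_assoc]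
  have hfin := (hβA.add hwt).add_const Q0
  rw [add_zero, zero_add] at hfin
  refine hfin.congr' ?_
  filter_upwards [eventually_ge_atTop 1] with L hL
  have hL0 : (L : ℝ) ≠ 0 := by
    have : (0 : ℝ) < L := by exact_mod_cast hL
    exact this.ne'
  have e : ∑ l ∈ range L, pat b T k l β = ∑ l ∈ range L, D l β + ∑ l ∈ range L, w l + L * Q0 := by
    rw [← Finset.sum_add_distrib]
    have : (L : ℝ) * Q0 = ∑ l ∈ range L, Q0 := by rw [Finset.sum_const, card_range, nsmul_eq_mul]
    rw [this, ← Finset.sum_add_distrib]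
    refine Finset.sum_congr rfl fun l _ => ?_
    simp only [hw]
    ring
  rw [e]
  field_simp

end Pool.Agent.H32x.PL
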