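import Mathlib
import Pool.Agent.H32x.PL.Arr

set_option autoImplicit false

/-!
# The scale given by the weight of a set of exponents
-/

namespace Pool.Agent.H32x.PL

open Finset Filter Topology MeasureTheory
open Pool.Agent.N176.OW (kap VT VS VS_mono VS_nonneg VT_nonneg)

lemma tendsto_zero_of_forall {f : ℕ → ℝ} (h0 : ∀ n, 0 ≤ f n) (h : ∀ ε > 0, ∀ᶠ n in atTop, f n ≤ ε) :
    Tendsto f atTop (𝓝 0) := by
  rw [Metric.tendsto_atTop]
  intro ε hε
  obtain ⟨N, hN⟩ := eventually_atTop.1 (h (ε / 2) (by positivity))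
  refine ⟨N, fun n hn => ?_⟩
  rw [Real.dist_eq, sub_zero, abs_of_nonneg (h0 n)]
  linarith [hN n hn]

lemma log_div_tendsto : Tendsto (fun n : ℕ => Real.log n / n) atTop (𝓝 0) := by
  have h := (Real.tendsto_pow_log_div_mul_add_atTop 1 0 1 one_ne_zero).comp
    (tendsto_natCast_atTop_atTop (R := ℝ))
  refine h.congr fun n => ?_
  simp

lemma VS_zero (S : Set ℕ) : VS S 0 = 0 := by
  classical
  unfold VS
  refine Finset.sum_eq_zero fun p hp => ?_
  rw [mem_filter, mem_range] at hp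
  have : p = 0 := by omega
  exact absurd (this ▸ hp.2.1) Nat.not_prime_zero

lemma VS_succ_le (S : Set ℕ) (n : ℕ) : VS S (n + 1) ≤ VS S n + Real.log ((n + 1 : ℕ) : ℝ) / ((n + 1 : ℕ) : ℝ) := by
  classical
  unfold VS
  rw [Finset.range_add_one, Finset.filter_insert]
  split_ifs with h
  · rw [Finset.sum_insert (by simp)]
    linarith
  · have := w_nonneg (n + 1)
    linarith

lemma VS_succ_of_mem {S : Set ℕ} {p : ℕ} (hp : p.Prime) (hpS : p ∈ S) {n : ℕ} (hn : n < p) :
    VS S n < VS S p := by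
  classical
  have h1 : VS S n ≤ VS S (p - 1) := VS_mono S (by omega)
  have h2 : VS S p = VS S (p - 1) + Real.log p / p := by
    obtain ⟨m, rfl⟩ : ∃ m, p = m + 1 := ⟨p - 1, by omega⟩
    unfold VS
    rw [Finset.range_add_one (n := m + 1), Finset.filter_insert, if_pos ⟨hp, hpS⟩, Finset.sum_insert (by simp)]
    have : m + 1 - 1 + 1 = m + 1 := by omega
    rw [this, add_comm]
  have h3 : 0 < Real.log p / p := by
    have h4 : (1 : ℝ) < p := by exact_mod_cast hp.one_lt
    have := Real.log_pos h4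
    positivity
  linarith

/-- weight of a finite part of `S` -/
lemma VT_le {S : Set ℕ} {T : Finset ℕ} {m n : ℕ} (hmn : m ≤ n)
    (hT : ∀ p ∈ T, p.Prime ∧ p ∈ S ∧ m < p ∧ p ≤ n) : VT T ≤ VS S n - VS S m := by
  classical
  have h1 : VT T + VS S m ≤ VS S n := by
    unfold VT VS
    rw [← Finset.sum_union]
    · refine Finset.sum_le_sum_of_subset_of_nonneg ?_ fun p _ _ => w_nonneg p
      intro p hp
      rw [mem_union, mem_filter, mem_range] at hp
      rw [mem_filter, mem_range]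
      rcases hp with h | h
      · obtain ⟨h1, h2, h3, h4⟩ := hT p h
        exact ⟨by omega, h1, h2⟩
      · exact ⟨by omega, h.2⟩
    · rw [Finset.disjoint_left]
      intro p hp hp2
      rw [mem_filter, mem_range] at hp2
      have := (hT p hp).2.2.1
      omega
  linarith

/-- the scale -/
noncomputable def vv (b : ℕ) (S : Set ℕ) (n : ℕ) : ℝ := kap b * VS S n

lemma vv_mono (b : ℕ) (S : Set ℕ) : Monotone (vv b S) := fun _ _ h =>
  mul_le_mul_of_nonneg_left (VS_mono S h) (kap_nonneg b)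

lemma vv_zero (b : ℕ) (S : Set ℕ) : vv b S 0 = 0 := by unfold vv; rw [VS_zero, mul_zero]

lemma vv_nonneg (b : ℕ) (S : Set ℕ) (n : ℕ) : 0 ≤ vv b S n := mul_nonneg (kap_nonneg b) (VS_nonneg S n)

lemma vv_tendsto {b : ℕ} (hb : 2 ≤ b) {S : Set ℕ} (hS : Tendsto (fun n => VS S n) atTop atTop) :
    Tendsto (vv b S) atTop atTop := hS.const_mul_atTop (kap_pos hb)

lemma vv_lt {b : ℕ} (hb : 2 ≤ b) {S : Set ℕ} {p : ℕ} (hp : p.Prime) (hpS : p ∈ S) {n : ℕ} (hn : n < p) :
    vv b S n < vv b S p := mul_lt_mul_of_pos_left (VS_succ_of_mem hp hpS hn) (kap_pos hb)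

/-- the first integer of level larger than `c` -/
noncomputable def NN (b : ℕ) (S : Set ℕ) (c : ℝ) : ℕ := sInf {n | c < vv b S n}

lemma lt_NN {b : ℕ} {S : Set ℕ} (hv : Tendsto (vv b S) atTop atTop) {c : ℝ} {n : ℕ} :
    n < NN b S c ↔ vv b S n ≤ c := by
  have hne : {n | c < vv b S n}.Nonempty := (hv.eventually_gt_atTop c).exists
  constructor
  · intro h
    exact not_lt.1 (Nat.notMem_of_lt_sInf h)
  · intro h
    by_contra hcon
    have h1 : c < vv b S (NN b S c) := Nat.sInf_mem hne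
    have h2 := vv_mono b S (not_lt.1 hcon)
    linarith

lemma NN_le {b : ℕ} {S : Set ℕ} (hv : Tendsto (vv b S) atTop atTop) {c : ℝ} {n : ℕ} :
    NN b S c ≤ n ↔ c < vv b S n := by
  rw [← not_lt, lt_NN hv, not_le]

lemma NN_mono {b : ℕ} {S : Set ℕ} (hv : Tendsto (vv b S) atTop atTop) {c c' : ℝ} (h : c ≤ c') :
    NN b S c ≤ NN b S c' := by
  rw [NN_le hv]
  exact lt_of_le_of_lt h ((NN_le hv).1 le_rfl)

lemma NN_pos {b : ℕ} {S : Set ℕ} (hv : Tendsto (vv b S) atTop atTop) {c : ℝ} (hc : 0 ≤ c) :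
    1 < NN b S c := by
  classical
  rw [lt_NN hv]
  have : vv b S 1 = 0 := by
    unfold vv VS
    rw [Finset.sum_eq_zero, mul_zero]
    intro p hp
    rw [mem_filter, mem_range] at hp
    have := hp.2.1.two_le
    omega
  rw [this]; exact hc

lemma NN_tendsto {b : ℕ} {S : Set ℕ} (hv : Tendsto (vv b S) atTop atTop) :
    Tendsto (NN b S) atTop atTop := by
  rw [tendsto_atTop]
  intro n
  filter_upwards [eventually_ge_atTop (vv b S n)] with c hc
  exact ((lt_NN hv).2 hc).le

/-- the level just before `NN c` is nearly `c` -/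
lemma vv_NN {b : ℕ} {S : Set ℕ} (hv : Tendsto (vv b S) atTop atTop) {c : ℝ} (hc : 0 ≤ c) :
    vv b S (NN b S c - 1) ≤ c ∧
      c - kap b * (Real.log (NN b S c) / NN b S c) ≤ vv b S (NN b S c - 1) := by
  have h1 := NN_pos hv hc
  constructor
  · rw [← lt_NN hv]; omega
  · have h2 : c < vv b S (NN b S c) := (NN_le hv).1 le_rfl
    have h3 := VS_succ_le S (NN b S c - 1)
    have e : NN b S c - 1 + 1 = NN b S c := by omega
    rw [e] at h3
    have h4 := mul_le_mul_of_nonneg_left h3 (kap_nonneg b)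
    unfold vv at h2 ⊢
    rw [mul_add] at h4
    linarith

lemma vv_NN_tendsto {b : ℕ} {S : Set ℕ} (hv : Tendsto (vv b S) atTop atTop) :
    Tendsto (fun c : ℝ => vv b S (NN b S c - 1) - c) atTop (𝓝 0) := by
  have h1 : Tendsto (fun c : ℝ => kap b * (Real.log (NN b S c) / NN b S c)) atTop (𝓝 0) := by
    have := (log_div_tendsto.comp (NN_tendsto hv)).const_mul (kap b)
    rw [mul_zero] at this
    exact this
  refine squeeze_zero_norm' ?_ h1
  filter_upwards [eventually_ge_atTop 0] with c hc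
  obtain ⟨h2, h3⟩ := vv_NN hv hc
  rw [Real.norm_eq_abs, abs_le]
  constructor <;> linarith

open Classical in
/-- the exponents in `S` of level in `(a, c]` -/
noncomputable def SW (b : ℕ) (S : Set ℕ) (a c : ℝ) : Finset ℕ :=
  (Ico (NN b S a) (NN b S c)).filter (fun p => p.Prime ∧ p ∈ S)

lemma mem_SW {b : ℕ} {S : Set ℕ} (hv : Tendsto (vv b S) atTop atTop) {a c : ℝ} {p : ℕ} :
    p ∈ SW b S a c ↔ (p.Prime ∧ p ∈ S) ∧ a < vv b S p ∧ vv b S p ≤ c := by
  classical
  unfold SW
  rw [mem_filter, mem_Ico, NN_le hv, lt_NN hv, and_comm]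

lemma VT_SW {b : ℕ} {S : Set ℕ} (hv : Tendsto (vv b S) atTop atTop) {a c : ℝ} (ha : 0 ≤ a) (hac : a ≤ c) :
    kap b * VT (SW b S a c) = vv b S (NN b S c - 1) - vv b S (NN b S a - 1) := by
  classical
  have h1 := NN_pos hv ha
  have h2 := NN_mono hv hac
  unfold vv VT SW VS
  rw [← mul_sub]
  congr 1
  have e1 : NN b S c - 1 + 1 = NN b S c := by omega
  have e2 : NN b S a - 1 + 1 = NN b S a := by omega
  rw [e1, e2, Finset.sum_filter, Finset.sum_filter, Finset.sum_filter,
    ← Finset.sum_range_add_sum_Ico _ h2]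
  ring

end Pool.Agent.H32x.PL
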