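import Mathlib
import Pool.Agent.H32x.PL.GauA
import Pool.Agent.H32x.PL.Ref
import Pool.Agent.H32x.PL.Win

set_option autoImplicit false

/-!
# Convergence of the characteristic functions
-/

namespace Pool.Agent.H32x.PL

open Finset Filter Topology MeasureTheory
open Pool.Agent.N176.GP (cnt XX XX_nonneg cnt_eq NB NB_spec NB_div)
open Pool.Agent.N176.OW (cell kap VT TL TB cell_card VT_nonneg hits VS VS_mono VS_nonneg S_FM)
open Pool.Agent.H305R2 (roughPart)

lemma recip_bound : ∃ C : ℝ, 0 < C ∧ ∀ (U : Finset ℕ) (i0 J : ℕ), 1 ≤ i0 → i0 ≤ J →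
    (∀ p ∈ U, 2 ^ i0 < p ∧ p ≤ 2 ^ J) → ∀ δ : ℝ, 0 ≤ δ → (∀ i, i0 ≤ i → i < J → VT (TB U i) ≤ δ) →
    ∑ q ∈ U, (q : ℝ)⁻¹ ≤ C * √(δ * VT U) := by
  have hsum : Summable fun i : ℕ => ((i : ℝ) * Real.log 2)⁻¹ ^ 2 := by
    have h : Summable fun i : ℕ => 1 / (i : ℝ) ^ 2 := Real.summable_one_div_nat_pow.2 (by norm_num)
    refine (h.mul_left ((Real.log 2)⁻¹ ^ 2)).congr fun i => ?_
    rw [mul_inv, mul_pow, one_div, inv_pow (i : ℝ), mul_comm]
  set c : ℝ := ∑' i : ℕ, ((i : ℝ) * Real.log 2)⁻¹ ^ 2 with hc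
  have hc0 : 0 ≤ c := tsum_nonneg fun i => by positivity
  refine ⟨√c + 1, by positivity, ?_⟩
  intro U i0 J hi0 hiJ hU δ hδ hblock
  have hl2 : 0 < Real.log 2 := Real.log_pos (by norm_num)
  have hq : ∀ q ∈ U, (q : ℝ)⁻¹ = √(Real.log q / q) * √(((q : ℝ) * Real.log q)⁻¹) := by
    intro q hq
    have h1 : 2 ^ i0 < q := (hU q hq).1
    have h2 : 1 < q := lt_of_le_of_lt (Nat.one_le_two_pow) h1
    have h3 : (1 : ℝ) < q := by exact_mod_cast h2
    have h4 : 0 < Real.log q := Real.log_pos h3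
    have h5 : (0 : ℝ) < q := by linarith
    rw [← Real.sqrt_mul (by positivity)]
    have e : Real.log q / q * ((q : ℝ) * Real.log q)⁻¹ = ((q : ℝ)⁻¹) ^ 2 := by
      field_simp
    rw [e, Real.sqrt_sq (by positivity)]
  have hU2 : ∀ p ∈ U, 2 ^ i0 < p := fun p hp => (hU p hp).1
  have h1 : ∑ q ∈ U, ((q : ℝ) * Real.log q)⁻¹ ≤ δ * c := by
    rw [← sum_blocks U i0 (fun q => ((q : ℝ) * Real.log q)⁻¹) hU2 J hiJ fun p hp => (hU p hp).2]
    have h2 : ∀ i ∈ Ico i0 J, ∑ q ∈ TB U i, ((q : ℝ) * Real.log q)⁻¹ ≤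
        δ * ((i : ℝ) * Real.log 2)⁻¹ ^ 2 := by
      intro i hi
      rw [mem_Ico] at hi
      have hi1 : (0 : ℝ) < i := by
        have : 0 < i := by omega
        exact_mod_cast this
      refine le_trans ?_ (mul_le_mul_of_nonneg_right (hblock i hi.1 hi.2) (by positivity))
      unfold VT
      rw [Finset.sum_mul]
      refine Finset.sum_le_sum fun q hq => ?_
      unfold TB at hq
      rw [mem_filter] at hq
      have h3 : ((2 : ℝ)) ^ i ≤ q := by exact_mod_cast hq.2.1.le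
      have h4 : (i : ℝ) * Real.log 2 ≤ Real.log q := by
        rw [← Real.log_pow]
        exact Real.log_le_log (by positivity) h3
      have h5 : (0 : ℝ) < (i : ℝ) * Real.log 2 := by positivity
      have h6 : 0 < Real.log q := lt_of_lt_of_le h5 h4
      have h7 : (0 : ℝ) < q := lt_of_lt_of_le (by positivity) h3
      have e : ((q : ℝ) * Real.log q)⁻¹ = Real.log q / q * (Real.log q)⁻¹ ^ 2 := by
        field_simp
      rw [e]
      gcongr
    refine (Finset.sum_le_sum h2).trans ?_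
    rw [← Finset.mul_sum]
    refine mul_le_mul_of_nonneg_left ?_ hδ
    exact hsum.sum_le_tsum _ fun i _ => by positivity
  have h0 : ∀ q : ℕ, 0 ≤ Real.log (q : ℝ) / q := w_nonneg
  calc ∑ q ∈ U, (q : ℝ)⁻¹ = ∑ q ∈ U, √(Real.log q / q) * √(((q : ℝ) * Real.log q)⁻¹) :=
        Finset.sum_congr rfl hq
    _ ≤ √(∑ q ∈ U, Real.log q / q) * √(∑ q ∈ U, ((q : ℝ) * Real.log q)⁻¹) := by
        refine Real.sum_sqrt_mul_sqrt_le _ (fun q => h0 q) fun q => ?_
        have := Real.log_natCast_nonneg q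
        positivity
    _ ≤ √(VT U) * √(δ * c) := by
        refine mul_le_mul_of_nonneg_left (Real.sqrt_le_sqrt h1) (Real.sqrt_nonneg _)
    _ = √c * √(δ * VT U) := by
        rw [← Real.sqrt_mul (VT_nonneg U), ← Real.sqrt_mul hc0]
        congr 1
        ring
    _ ≤ (√c + 1) * √(δ * VT U) := by
        refine mul_le_mul_of_nonneg_right (by linarith) (Real.sqrt_nonneg _)

lemma exp_gauss {A : Type*} {F : Filter A} {l θ m : A → ℝ} {σ : ℝ} (hθ : Tendsto θ F (𝓝 0))
    (h2 : Tendsto (fun x => l x * θ x ^ 2) F (𝓝 σ)) (h3 : Tendsto (fun x => (l x - m x) * θ x) F (𝓝 0))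
    (hl : ∀ᶠ x in F, 0 ≤ l x) :
    Tendsto (fun x => Complex.exp (-((l x : ℂ) * (1 - Complex.exp (θ x * Complex.I)))) *
      Complex.exp (-(θ x * m x * Complex.I))) F (𝓝 (Complex.exp (-(σ / 2 : ℝ)))) := by
  set R : A → ℂ := fun x => Complex.exp (θ x * Complex.I) - 1 - θ x * Complex.I + (θ x : ℂ) ^ 2 / 2 with hR
  have e : ∀ x, Complex.exp (-((l x : ℂ) * (1 - Complex.exp (θ x * Complex.I)))) *
      Complex.exp (-(θ x * m x * Complex.I)) =
      Complex.exp (((-(l x * θ x ^ 2 / 2) : ℝ) : ℂ) + (l x : ℂ) * R x +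
        (((l x - m x) * θ x : ℝ) : ℂ) * Complex.I) := by
    intro x
    rw [← Complex.exp_add]
    congr 1
    simp only [hR]
    push_cast
    ring
  simp only [e]
  refine (Complex.continuous_exp.tendsto _).comp ?_
  have hR1 : ∀ᶠ x in F, ‖(l x : ℂ) * R x‖ ≤ (l x * θ x ^ 2) * |θ x| := by
    have hθ1 : ∀ᶠ x in F, |θ x| ≤ 1 := by
      have := hθ.abs
      rw [abs_zero] at this
      exact this.eventually_le_const one_pos
    filter_upwards [hl, hθ1] with x hx hx1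
    have hn : ‖(θ x : ℂ) * Complex.I‖ = |θ x| := by simp
    have h4 := Complex.exp_bound (x := (θ x : ℂ) * Complex.I) (by rw [hn]; exact hx1) (n := 3) (by norm_num)
    have e4 : Complex.exp ((θ x : ℂ) * Complex.I) - ∑ m ∈ range 3, ((θ x : ℂ) * Complex.I) ^ m / m.factorial =
        R x := by
      simp only [hR, Finset.sum_range_succ, Finset.sum_range_zero, Nat.factorial]
      have hI : Complex.I ^ 2 = -1 := Complex.I_sq
      push_cast
      linear_combination (-(θ x : ℂ) ^ 2 / 2) * hI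
    rw [e4, hn] at h4
    rw [norm_mul, Complex.norm_real, Real.norm_eq_abs, abs_of_nonneg hx]
    have h5 : ‖R x‖ ≤ |θ x| ^ 3 := by
      refine h4.trans ?_
      have : (((3 : ℕ).succ : ℝ) * ((3 : ℕ).factorial * (3 : ℕ) : ℝ)⁻¹) ≤ 1 := by
        norm_num [Nat.factorial]
      calc |θ x| ^ 3 * _ ≤ |θ x| ^ 3 * 1 := mul_le_mul_of_nonneg_left this (by positivity)
        _ = _ := mul_one _
    calc l x * ‖R x‖ ≤ l x * |θ x| ^ 3 := mul_le_mul_of_nonneg_left h5 hx
      _ = _ := by rw [← sq_abs (θ x)]; ring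
  have hR2 : Tendsto (fun x => (l x : ℂ) * R x) F (𝓝 0) := by
    refine squeeze_zero_norm' hR1 ?_
    have := h2.mul hθ.abs
    rw [abs_zero, mul_zero] at this
    exact this
  have h6 : Tendsto (fun x => ((-(l x * θ x ^ 2 / 2) : ℝ) : ℂ)) F (𝓝 ((-(σ / 2) : ℝ) : ℂ)) := by
    refine (Complex.continuous_ofReal.tendsto _).comp ?_
    exact (h2.div_const 2).neg
  have h7 : Tendsto (fun x => (((l x - m x) * θ x : ℝ) : ℂ) * Complex.I) F (𝓝 0) := by
    have := ((Complex.continuous_ofReal.tendsto _).comp h3).mul_const Complex.I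
    simpa using this
  have h8 := (h6.add hR2).add h7
  rw [add_zero, add_zero] at h8
  push_cast at h8 ⊢
  exact h8

end Pool.Agent.H32x.PL
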