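import Mathlib
import Pool.Agent.H32x.PL.GauB

set_option autoImplicit false

/-!
# Convergence of the characteristic functions (continued)
-/

namespace Pool.Agent.H32x.PL

open Finset Filter Topology MeasureTheory
open Pool.Agent.N176.GP (cnt XX XX_nonneg cnt_eq NB NB_spec NB_div)
open Pool.Agent.N176.OW (cell kap VT TL TB cell_card VT_nonneg hits VS VS_mono VS_nonneg S_FM)
open Pool.Agent.H305R2 (roughPart)

/-- the number of exponents in the window `(a, c]` of levels -/
noncomputable def NW (b : ℕ) (S : Set ℕ) (β : ℝ) (a c : ℝ) : ℕ :=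
  ((SW b S a c).filter (fun p => (roughPart p (NB b β p)).Prime)).card

lemma norm_prod_sub {ι : Type*} (s : Finset ι) (a b : ι → ℂ) (ha : ∀ i ∈ s, ‖a i‖ ≤ 1)
    (hb : ∀ i ∈ s, ‖b i‖ ≤ 1) : ‖∏ i ∈ s, a i - ∏ i ∈ s, b i‖ ≤ ∑ i ∈ s, ‖a i - b i‖ := by
  classical
  induction s using Finset.induction_on with
  | empty => simp
  | insert i s hi ih =>
    rw [Finset.prod_insert hi, Finset.prod_insert hi, Finset.sum_insert hi]
    have h1 := ih (fun j hj => ha j (mem_insert_of_mem hj)) fun j hj => hb j (mem_insert_of_mem hj)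
    have h2 : ‖∏ j ∈ s, a j‖ ≤ 1 := by
      rw [norm_prod]
      exact Finset.prod_le_one (fun _ _ => norm_nonneg _) fun j hj => ha j (mem_insert_of_mem hj)
    have e : a i * ∏ j ∈ s, a j - b i * ∏ j ∈ s, b j =
        (a i - b i) * ∏ j ∈ s, a j + b i * (∏ j ∈ s, a j - ∏ j ∈ s, b j) := by ring
    rw [e]
    refine (norm_add_le _ _).trans ?_
    rw [norm_mul, norm_mul]
    have h3 := hb i (mem_insert_self _ _)
    gcongr
    · exact mul_le_of_le_one_right (norm_nonneg _) h2
    · exact (mul_le_of_le_one_left (norm_nonneg _) h3).trans h1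

lemma norm_pow_sub_pow {e : ℂ} (he : ‖e‖ = 1) (m k : ℕ) : ‖e ^ (m + k) - e ^ m‖ ≤ k * ‖1 - e‖ := by
  induction k with
  | zero => simp
  | succ k ih =>
    have e1 : e ^ (m + (k + 1)) - e ^ m = e ^ (m + k) * (e - 1) + (e ^ (m + k) - e ^ m) := by ring
    rw [e1]
    refine (norm_add_le _ _).trans ?_
    rw [norm_mul, norm_pow, he, one_pow, one_mul, norm_sub_rev e 1]
    push_cast
    linarith

/-- the trimmed window -/
noncomputable def TW (b : ℕ) (S : Set ℕ) (i0 : ℕ) (a c : ℝ) : Finset ℕ :=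
  (SW b S a c).filter (fun p => 2 ^ i0 < p)

lemma TW_mass {b : ℕ} (hb : 2 ≤ b) {S : Set ℕ} (hv : Tendsto (vv b S) atTop atTop) (i0 : ℕ) {t t' : ℝ}
    (ht : 0 ≤ t) (htt : t < t') : ∀ᶠ x : ℝ in atTop,
      |kap b * VT (TW b S i0 (t * x) (t' * x)) - (t' - t) * x| ≤ kap b * VS S (2 ^ i0) + 1 + kap b := by
  classical
  have hκ := kap_nonneg b
  have h0 := vv_NN_tendsto hv (b := b) (S := S)
  have ht' : 0 < t' := lt_of_le_of_lt ht htt
  have h1 : ∀ᶠ x : ℝ in atTop, |vv b S (NN b S (t' * x) - 1) - t' * x| ≤ 1 := by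
    have := (h0.comp (tendsto_id.const_mul_atTop ht')).abs
    rw [abs_zero] at this
    exact this.eventually_le_const one_pos
  filter_upwards [h1, eventually_ge_atTop 0] with x hx hx0
  have htx : 0 ≤ t * x := mul_nonneg ht hx0
  have htx' : t * x ≤ t' * x := mul_le_mul_of_nonneg_right htt.le hx0
  obtain ⟨h2, h3⟩ := vv_NN hv htx
  have h4 := VT_SW hv htx htx'
  -- bound for the last level step
  have h5 : Real.log (NN b S (t * x)) / NN b S (t * x) ≤ 1 := by
    have hn := NN_pos hv htx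
    have : (0 : ℝ) < NN b S (t * x) := by
      have : 0 < NN b S (t * x) := by omega
      exact_mod_cast this
    rw [div_le_one this]
    have := Real.log_le_sub_one_of_pos this
    linarith
  -- the trimmed part
  have h6 : VT (SW b S (t * x) (t' * x)) = VT (TW b S i0 (t * x) (t' * x)) +
      VT ((SW b S (t * x) (t' * x)).filter (fun p => ¬ 2 ^ i0 < p)) := by
    unfold VT TW
    rw [Finset.sum_filter_add_sum_filter_not]
  have h7 : VT ((SW b S (t * x) (t' * x)).filter (fun p => ¬ 2 ^ i0 < p)) ≤ VS S (2 ^ i0) := by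
    have := VT_le (S := S) (T := (SW b S (t * x) (t' * x)).filter (fun p => ¬ 2 ^ i0 < p)) (m := 0)
      (n := 2 ^ i0) (Nat.zero_le _) (by
        intro p hp
        rw [mem_filter, mem_SW hv] at hp
        exact ⟨hp.1.1.1, hp.1.1.2, hp.1.1.1.pos, not_lt.1 hp.2⟩)
    rw [VS_zero, sub_zero] at this
    exact this
  have h8 := VT_nonneg ((SW b S (t * x) (t' * x)).filter (fun p => ¬ 2 ^ i0 < p))
  have h9 : kap b * VT ((SW b S (t * x) (t' * x)).filter (fun p => ¬ 2 ^ i0 < p)) ≤
      kap b * VS S (2 ^ i0) := mul_le_mul_of_nonneg_left h7 hκ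
  have h10 : 0 ≤ kap b * VT ((SW b S (t * x) (t' * x)).filter (fun p => ¬ 2 ^ i0 < p)) :=
    mul_nonneg hκ h8
  have h11 : kap b * (Real.log (NN b S (t * x)) / NN b S (t * x)) ≤ kap b :=
    mul_le_of_le_one_right hκ h5
  rw [h6, mul_add] at h4
  rw [abs_le] at hx ⊢
  constructor
  · linarith [hx.1]
  · have := mul_nonneg hκ (VS_nonneg S (2 ^ i0))
    linarith [hx.2]

end Pool.Agent.H32x.PL
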