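import Mathlib
import Pool.Agent.H32x.PL.GauC

set_option autoImplicit false

/-!
# Convergence of the characteristic functions (main part)
-/

namespace Pool.Agent.H32x.PL

open Finset Filter Topology MeasureTheory
open Pool.Agent.N176.GP (cnt XX XX_nonneg cnt_eq NB NB_spec NB_div)
open Pool.Agent.N176.OW (cell kap VT TL TB cell_card VT_nonneg hits VS VS_mono VS_nonneg S_FM)
open Pool.Agent.H305R2 (roughPart)

lemma mono_t {r : ℕ} {t : ℕ → ℝ} (ht : ∀ i < r, t i < t (i + 1)) : ∀ i j, i ≤ j → j ≤ r → t i ≤ t j := by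
  intro i j hij
  induction j, hij using Nat.le_induction with
  | base => intro _; exact le_rfl
  | succ j hj ih =>
    intro hjr
    exact (ih (by omega)).trans (ht j (by omega)).le

/-- the limit of the main terms -/
lemma main_lim {b : ℕ} (hb : 2 ≤ b) {S : Set ℕ} (hv : Tendsto (vv b S) atTop atTop) (i0 : ℕ) {r : ℕ}
    {t : ℕ → ℝ} (ht0 : 0 ≤ t 0) (ht : ∀ i < r, t i < t (i + 1)) (τ : Fin r → ℝ) :
    Tendsto (fun x : ℝ => ∏ j : Fin r,
      (Complex.exp (-(((kap b * VT (TW b S i0 (t j * x) (t (j + 1) * x)) : ℝ) : ℂ) *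
        (1 - Complex.exp ((τ j / √((t (j + 1) - t j) * x) : ℝ) * Complex.I)))) *
      Complex.exp (-((τ j / √((t (j + 1) - t j) * x) : ℝ) * ((t (j + 1) - t j) * x : ℝ) * Complex.I))))
      atTop (𝓝 (Complex.exp (-((∑ j, τ j ^ 2) / 2 : ℝ)))) := by
  have e : Complex.exp (-((∑ j, τ j ^ 2) / 2 : ℝ)) = ∏ j, Complex.exp (-((τ j) ^ 2 / 2 : ℝ)) := by
    rw [← Complex.exp_sum]
    congr 1
    rw [Finset.sum_div]
    push_cast
    rw [Finset.sum_neg_distrib]
  rw [e]
  refine tendsto_finsetProd _ fun j _ => ?_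
  have hΔ : 0 < t (j + 1) - t j := by have := ht j j.2; linarith
  have htj : 0 ≤ t j := ht0.trans (mono_t ht 0 j (Nat.zero_le _) j.2.le)
  set Δ := t (j + 1) - t j with hΔd
  have hθ : Tendsto (fun x : ℝ => τ j / √(Δ * x)) atTop (𝓝 0) :=
    tendsto_const_nhds.div_atTop (Real.tendsto_sqrt_atTop.comp (tendsto_id.const_mul_atTop hΔ))
  have hB := TW_mass (b := b) hb hv i0 htj (ht j j.2)
  set B := kap b * VS S (2 ^ i0) + 1 + kap b with hBd
  have h3 : Tendsto (fun x : ℝ => (kap b * VT (TW b S i0 (t j * x) (t (j + 1) * x)) - Δ * x) *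
      (τ j / √(Δ * x))) atTop (𝓝 0) := by
    refine squeeze_zero_norm' (a := fun x : ℝ => B * |τ j / √(Δ * x)|) ?_ ?_
    · filter_upwards [hB] with x hx
      rw [norm_mul, Real.norm_eq_abs, Real.norm_eq_abs]
      exact mul_le_mul_of_nonneg_right hx (abs_nonneg _)
    · have := (hθ.abs).const_mul B
      rw [abs_zero, mul_zero] at this
      exact this
  refine exp_gauss hθ ?_ h3 ?_
  · have h4 : Tendsto (fun x : ℝ => (kap b * VT (TW b S i0 (t j * x) (t (j + 1) * x)) - Δ * x) *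
        (τ j / √(Δ * x)) * (τ j / √(Δ * x)) + (τ j) ^ 2) atTop (𝓝 ((τ j) ^ 2)) := by
      have := (h3.mul hθ).add_const ((τ j) ^ 2)
      rw [mul_zero, zero_add] at this
      exact this
    refine h4.congr' ?_
    filter_upwards [eventually_gt_atTop 0] with x hx
    have hx2 : 0 < Δ * x := mul_pos hΔ hx
    have h5 : √(Δ * x) ^ 2 = Δ * x := Real.sq_sqrt hx2.le
    have h6 : √(Δ * x) ≠ 0 := (Real.sqrt_pos.2 hx2).ne'
    have h7 : Δ * x * (τ j / √(Δ * x)) * (τ j / √(Δ * x)) = (τ j) ^ 2 := by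
      field_simp
      rw [h5]
      ring
    linear_combination -h7
  · exact Filter.Eventually.of_forall fun x => mul_nonneg (kap_nonneg b) (VT_nonneg _)

end Pool.Agent.H32x.PL
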