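import Mathlib
import Pool.Agent.H32x.PL.GauD

set_option autoImplicit false

/-!
# Convergence of the characteristic functions (end)
-/

namespace Pool.Agent.H32x.PL

open Finset Filter Topology MeasureTheory
open Pool.Agent.N176.GP (cnt XX XX_nonneg cnt_eq NB NB_spec NB_div)
open Pool.Agent.N176.OW (cell kap VT TL TB cell_card VT_nonneg hits VS VS_mono VS_nonneg S_FM)
open Pool.Agent.H305R2 (roughPart)

lemma hits_trim (b : ℕ) (S : Set ℕ) (i0 : ℕ) (a c : ℝ) (t n : ℕ) : ∃ k ≤ 2 ^ i0 + 1,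
    (hits (SW b S a c) b t n).card = (hits (TW b S i0 a c) b t n).card + k := by
  classical
  refine ⟨((hits (SW b S a c) b t n).filter (fun p => ¬ 2 ^ i0 < p)).card, ?_, ?_⟩
  · have h : (hits (SW b S a c) b t n).filter (fun p => ¬ 2 ^ i0 < p) ⊆ range (2 ^ i0 + 1) := by
      intro p hp
      rw [mem_filter] at hp
      rw [mem_range]
      omega
    have := Finset.card_le_card h
    rwa [card_range] at this
  · have h : hits (TW b S i0 a c) b t n = (hits (SW b S a c) b t n).filter (fun p => 2 ^ i0 < p) := by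
      unfold hits TW
      rw [Finset.filter_filter, Finset.filter_filter]
      exact Finset.filter_congr fun p _ => and_comm
    rw [h, Finset.card_filter_add_card_filter_not]

lemma trim_sum (b : ℕ) (S : Set ℕ) (z0 j0 : ℕ) {r : ℕ} (u w : Fin r → ℝ) (i0 tt : ℕ) (e : Fin r → ℂ)
    (he : ∀ j, ‖e j‖ = 1) {α : ℝ} (hα : ∀ j, ‖1 - e j‖ ≤ α) :
    ‖∑ n ∈ cell b z0 tt j0, ∏ j, e j ^ (hits (SW b S (u j) (w j)) b tt n).card -
      ∑ n ∈ cell b z0 tt j0, ∏ j, e j ^ (hits (TW b S i0 (u j) (w j)) b tt n).card‖ ≤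
    (b : ℝ) ^ (tt - z0) * (r * ((2 ^ i0 + 1) * α)) := by
  rw [← Finset.sum_sub_distrib]
  refine (norm_sum_le _ _).trans ?_
  have h : ∀ n ∈ cell b z0 tt j0, ‖∏ j, e j ^ (hits (SW b S (u j) (w j)) b tt n).card -
      ∏ j, e j ^ (hits (TW b S i0 (u j) (w j)) b tt n).card‖ ≤ r * ((2 ^ i0 + 1) * α) := by
    intro n _
    refine (norm_prod_sub univ _ _ (fun j _ => ?_) fun j _ => ?_).trans ?_
    · rw [norm_pow, he, one_pow]
    · rw [norm_pow, he, one_pow]
    · have h1 : ∀ j ∈ (univ : Finset (Fin r)), ‖e j ^ (hits (SW b S (u j) (w j)) b tt n).card -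
          e j ^ (hits (TW b S i0 (u j) (w j)) b tt n).card‖ ≤ (2 ^ i0 + 1) * α := by
        intro j _
        obtain ⟨k, hk, e1⟩ := hits_trim b S i0 (u j) (w j) tt n
        rw [e1]
        refine (norm_pow_sub_pow (he j) _ k).trans ?_
        have hk' : (k : ℝ) ≤ 2 ^ i0 + 1 := by exact_mod_cast hk
        have hα0 : 0 ≤ α := (norm_nonneg _).trans (hα j)
        exact mul_le_mul hk' (hα j) (norm_nonneg _) (by positivity)
      refine (Finset.sum_le_sum h1).trans ?_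
      rw [Finset.sum_const, card_univ, Fintype.card_fin, nsmul_eq_mul]
  refine (Finset.sum_le_sum h).trans ?_
  rw [Finset.sum_const, cell_card, nsmul_eq_mul]
  push_cast
  exact le_rfl

lemma Icell_pos {b z j : ℕ} (hb : 2 ≤ b) {β : ℝ} (hβ : β ∈ Icell b z j) : 0 < β := by
  have hb0 : (0 : ℝ) < b := by positivity
  exact lt_of_le_of_lt (by positivity) hβ.1

lemma NW_hits {b : ℕ} (hb : 2 ≤ b) {S : Set ℕ} (hv : Tendsto (vv b S) atTop atTop) {β : ℝ} (hβ : 0 < β)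
    {a c : ℝ} {tt : ℕ} (htt : NN b S c ≤ tt) :
    NW b S β a c = (hits (SW b S a c) b tt (NB b β tt)).card := by
  unfold NW hits
  congr 1
  refine Finset.filter_congr fun p hp => ?_
  have h1 := ((mem_SW hv).1 hp).2.2
  have h2 := (lt_NN hv).2 h1
  rw [NB_div hb hβ (h2.le.trans htt)]

/-- the integrand as a product -/
lemma integrand_eq {r : ℕ} (τ Δ : Fin r → ℝ) (x : ℝ) (hx : 0 < x) (hΔ : ∀ j, 0 < Δ j) (N : Fin r → ℕ) :
    Complex.exp (((∑ j : Fin r, τ j * (((N j : ℝ) - Δ j * x) / √(Δ j * x)) : ℝ) : ℂ) * Complex.I) =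
    (∏ j, Complex.exp ((τ j / √(Δ j * x) : ℝ) * Complex.I) ^ N j) *
      ∏ j, Complex.exp (-((τ j / √(Δ j * x) : ℝ) * (Δ j * x : ℝ) * Complex.I)) := by
  rw [← Finset.prod_mul_distrib]
  have : ∀ j ∈ (univ : Finset (Fin r)), Complex.exp ((τ j / √(Δ j * x) : ℝ) * Complex.I) ^ N j *
      Complex.exp (-((τ j / √(Δ j * x) : ℝ) * (Δ j * x : ℝ) * Complex.I)) =
      Complex.exp (((τ j * (((N j : ℝ) - Δ j * x) / √(Δ j * x)) : ℝ) : ℂ) * Complex.I) := by
    intro j _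
    rw [← Complex.exp_nat_mul, ← Complex.exp_add]
    congr 1
    push_cast
    ring
  rw [Finset.prod_congr rfl this, ← Complex.exp_sum, Complex.ofReal_sum, Finset.sum_mul]

theorem char_lim (hFM : S_FM) {b : ℕ} (hb : 2 ≤ b) {S : Set ℕ}
    (hS : Tendsto (fun n => VS S n) atTop atTop)
    (hD : Tendsto (fun n : ℕ => VS S (2 * n) - VS S n) atTop (𝓝 0))
    (hP : ∀ h ≥ 1, Tendsto (fun n => VS (Sh S h) n / VS S n) atTop (𝓝 0))
    {z0 j0 : ℕ} (hj1 : 1 ≤ j0) (hj2 : j0 < b ^ (2 * z0)) {r : ℕ} (hr : 0 < r) {t : ℕ → ℝ} (ht0 : 0 ≤ t 0)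
    (ht : ∀ i < r, t i < t (i + 1)) (τ : Fin r → ℝ) :
    Tendsto (fun x : ℝ => ∫ β in Icell b z0 j0, Complex.exp (((∑ j : Fin r, τ j *
      (((NW b S β (t j * x) (t (j + 1) * x) : ℝ) - (t (j + 1) - t j) * x) /
        √((t (j + 1) - t j) * x)) : ℝ) : ℂ) * Complex.I)) atTop
      (𝓝 ((((b : ℝ) ^ z0)⁻¹ : ℝ) * Complex.exp (-((∑ j, τ j ^ 2) / 2 : ℝ)))) := by
  classical
  have hv := vv_tendsto hb hS
  have hκ := kap_pos hb
  have hb0 : (0 : ℝ) < b := by positivity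
  have hb1 : (1 : ℝ) ≤ b := by exact_mod_cast (by omega : 1 ≤ b)
  obtain ⟨k1, hk1, K, hK, hE⟩ := sum_EXC hFM hb
  obtain ⟨P2, hP2⟩ := hE z0
  obtain ⟨C, hC, P, hgen⟩ := cell_gen hb
  obtain ⟨Cr, hCr, hrec⟩ := recip_bound
  set κ := kap b with hκd
  set W := t r with hWd
  have hΔ : ∀ j : Fin r, 0 < t (j + 1) - t j := fun j => by have := ht j j.2; linarith
  have hW0 : 0 < W := by
    have h1 := ht 0 hr
    have h2 := mono_t ht 1 r hr le_rfl
    simp only [zero_add] at h1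
    linarith
  set A := ∑ j : Fin r, |τ j| / √(t (j + 1) - t j) with hA
  have hA0 : 0 ≤ A := Finset.sum_nonneg fun j _ => by positivity
  set Cs := ∑' q : ℕ, (Real.log q) ^ 2 / (q : ℝ) ^ 2 with hCs
  have hδlim : Tendsto (fun δ : ℝ => C * A ^ 2 * (δ * (W / κ) + δ * (W / κ)) +
      A * K * (Cr * √(δ * (W / κ)))) (𝓝[>] 0) (𝓝 0) := by
    have hc : Continuous (fun δ : ℝ => C * A ^ 2 * (δ * (W / κ) + δ * (W / κ)) +
      A * K * (Cr * √(δ * (W / κ)))) := by fun_prop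
    exact (hc.tendsto' 0 0 (by simp)).mono_left nhdsWithin_le_nhds
  rw [Metric.tendsto_nhds]
  intro ε hε
  obtain ⟨δ, hδ1, hδ0⟩ := ((hδlim.eventually_lt_const (show 0 < ε / 4 by positivity)).and
    self_mem_nhdsWithin).exists
  have hδ0' : 0 < δ := hδ0
  obtain ⟨n0, hn0⟩ := ((dyadic hD k1).eventually_le_const hδ0').exists_forall_of_atTop
  set i0 := k1 + n0 + P + P2 + z0 + 1 with hi0
  have hi1 : i0 + 1 - k1 = n0 + P + P2 + z0 + 2 := by omega
  have h2pow : ∀ m : ℕ, m ≤ 2 ^ m := fun m => (Nat.lt_two_pow_self (n := m)).le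
  have hz0 : z0 ≤ 2 ^ (i0 + 1 - k1) := by rw [hi1]; have := h2pow (n0 + P + P2 + z0 + 2); omega
  have hPi : P ≤ 2 ^ i0 := by have := h2pow i0; omega
  have hWx : Tendsto (fun x : ℝ => W * x) atTop atTop := tendsto_id.const_mul_atTop hW0
  have hCPx : ∀ᶠ x : ℝ in atTop, ∀ V : Finset ℕ, (∀ p ∈ V, p.Prime ∧ p ∈ S ∧ p ≤ NN b S (W * x) - 1) →
      CP b V ≤ δ * VS S (NN b S (W * x) - 1) :=
    ((tendsto_sub_atTop_nat 1).comp ((NN_tendsto hv).comp hWx)).eventually (CP_small hb hS hP hδ0')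
  have hα0 : Tendsto (fun x : ℝ => A / √x) atTop (𝓝 0) :=
    tendsto_const_nhds.div_atTop Real.tendsto_sqrt_atTop
  have hα1 : ∀ᶠ x : ℝ in atTop, A / √x * (κ * δ) ≤ 1 := by
    have := hα0.mul_const (κ * δ)
    rw [zero_mul] at this
    exact this.eventually_le_const one_pos
  have hα2 : ∀ᶠ x : ℝ in atTop, A / √x * ((b : ℝ) ^ z0 * Cs) < ε / 4 := by
    have := hα0.mul_const ((b : ℝ) ^ z0 * Cs)
    rw [zero_mul] at this
    exact this.eventually_lt_const (by positivity)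
  have hα3 : ∀ᶠ x : ℝ in atTop, r * ((2 ^ i0 + 1) * (A / √x)) < ε / 4 := by
    have := (hα0.const_mul ((2 : ℝ) ^ i0 + 1)).const_mul (r : ℝ)
    rw [mul_zero, mul_zero] at this
    exact this.eventually_lt_const (by positivity)
  have hml := (main_lim hb hv i0 ht0 ht τ).eventually (Metric.ball_mem_nhds _ (show 0 < ε / 4 by positivity))
  filter_upwards [hCPx, hα1, hα2, hα3, hml, eventually_gt_atTop 0] with x hxC hx1 hx2 hx3 hx4 hx0
  rw [dist_eq_norm] at hx4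
  rw [dist_eq_norm]
  set α := A / √x with hα
  have hsx : 0 < √x := Real.sqrt_pos.2 hx0
  have hα00 : 0 ≤ α := by positivity
  set e : Fin r → ℂ := fun j => Complex.exp ((τ j / √((t (j + 1) - t j) * x) : ℝ) * Complex.I) with he
  have he1 : ∀ j, ‖e j‖ = 1 := fun j => by simp only [he]; exact Complex.norm_exp_ofReal_mul_I _
  have he2 : ∀ j, ‖1 - e j‖ ≤ α := by
    intro j
    rw [norm_sub_rev]
    have h1 := Real.norm_exp_I_mul_ofReal_sub_one_le (x := τ j / √((t (j + 1) - t j) * x))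
    rw [mul_comm] at h1
    refine h1.trans ?_
    rw [Real.norm_eq_abs, abs_div, abs_of_nonneg (Real.sqrt_nonneg _), Real.sqrt_mul (hΔ j).le,
      ← div_div, hα]
    refine div_le_div_of_nonneg_right ?_ hsx.le
    exact Finset.single_le_sum (f := fun j : Fin r => |τ j| / √(t (j + 1) - t j))
      (fun j _ => by positivity) (mem_univ j)
  set T : Fin r → Finset ℕ := fun j => TW b S i0 (t j * x) (t (j + 1) * x) with hT
  set U := univ.biUnion T with hU
  set J := i0 + NN b S (W * x) with hJ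
  set tt := 2 ^ J with htt
  have hUm : ∀ p ∈ U, (p.Prime ∧ p ∈ S) ∧ 2 ^ i0 < p ∧ p < NN b S (W * x) := by
    intro p hp
    rw [hU, mem_biUnion] at hp
    obtain ⟨j, _, hj⟩ := hp
    simp only [hT, TW] at hj
    rw [mem_filter, mem_SW hv] at hj
    refine ⟨hj.1.1, hj.2, (lt_NN hv).2 (hj.1.2.2.trans ?_)⟩
    exact mul_le_mul_of_nonneg_right (mono_t ht _ _ j.2 le_rfl) hx0.le
  have hU2 : ∀ p ∈ U, 2 ^ i0 < p ∧ p ≤ 2 ^ J := by
    intro p hp
    obtain ⟨_, h1, h2⟩ := hUm p hp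
    refine ⟨h1, ?_⟩
    have := h2pow J
    omega
  have hdis : ∀ i j, i ≠ j → Disjoint (T i) (T j) := by
    have key : ∀ i j : Fin r, i < j → Disjoint (T i) (T j) := by
      intro i j hij
      rw [Finset.disjoint_left]
      intro p h1 h2
      simp only [hT, TW] at h1 h2
      rw [mem_filter, mem_SW hv] at h1 h2
      have h3 : t (i + 1) * x ≤ t j * x :=
        mul_le_mul_of_nonneg_right (mono_t ht _ _ hij j.2.le) hx0.le
      linarith [h1.1.2.2, h2.1.2.1]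
    intro i j hij
    rcases lt_or_gt_of_ne hij with h | h
    · exact key i j h
    · exact (key j i h).symm
  have hblock : ∀ i, i0 ≤ i → i < J →
      VT (U.filter (fun p => 2 ^ (i + 1 - k1) < p ∧ p ≤ 2 ^ (i + 1))) ≤ δ := by
    intro i hi _
    have h1 := VT_le (S := S) (T := U.filter (fun p => 2 ^ (i + 1 - k1) < p ∧ p ≤ 2 ^ (i + 1)))
      (m := 2 ^ (i + 1 - k1)) (n := 2 ^ (i + 1)) (Nat.pow_le_pow_right (by norm_num) (by omega)) (by
        intro p hp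
        rw [mem_filter] at hp
        exact ⟨(hUm p hp.1).1.1, (hUm p hp.1).1.2, hp.2.1, hp.2.2⟩)
    have h2 : 2 ^ (i + 1) = 2 ^ k1 * 2 ^ (i + 1 - k1) := by
      rw [← pow_add]; congr 1; omega
    refine h1.trans ?_
    rw [h2]
    refine hn0 _ ?_
    have := h2pow (i + 1 - k1)
    omega
  have hTB : ∀ i, i0 ≤ i → i < J → VT (TB U i) ≤ δ := by
    intro i hi hiJ
    refine le_trans ?_ (hblock i hi hiJ)
    unfold VT TB
    refine Finset.sum_le_sum_of_subset_of_nonneg ?_ fun p _ _ => w_nonneg p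
    intro p hp
    rw [mem_filter] at hp ⊢
    refine ⟨hp.1, lt_of_le_of_lt ?_ hp.2.1, hp.2.2⟩
    exact Nat.pow_le_pow_right (by norm_num) (by omega)
  -- the mass
  have hWx0 : 0 ≤ W * x := by positivity
  have hVSn : VS S (NN b S (W * x) - 1) ≤ x * (W / κ) := by
    have h1 := (vv_NN hv hWx0).1
    unfold vv at h1
    rw [← mul_div_assoc, le_div_iff₀ hκ]
    linarith
  have hVU : VT U ≤ x * (W / κ) := by
    refine le_trans ?_ hVSn
    have h1 := VT_le (S := S) (T := U) (m := 0) (n := NN b S (W * x) - 1) (Nat.zero_le _) (by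
      intro p hp
      obtain ⟨h1, h2, h3⟩ := hUm p hp
      exact ⟨h1.1, h1.2, h1.1.pos, by omega⟩)
    rw [VS_zero, sub_zero] at h1
    exact h1
  have hCPU : CP b U ≤ δ * (x * (W / κ)) := by
    refine (hxC U fun p hp => ?_).trans (mul_le_mul_of_nonneg_left hVSn hδ0'.le)
    obtain ⟨h1, h2, h3⟩ := hUm p hp
    exact ⟨h1.1, h1.2, by omega⟩
  have hrecU : ∑ q ∈ U, (q : ℝ)⁻¹ ≤ Cr * √(δ * (x * (W / κ))) := by
    refine (hrec U i0 J (by omega) (by omega) hU2 δ hδ0'.le hTB).trans ?_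
    refine mul_le_mul_of_nonneg_left (Real.sqrt_le_sqrt ?_) hCr.le
    exact mul_le_mul_of_nonneg_left hVU hδ0'.le
  have hEX : EXC b k1 K z0 j0 i0 J U ≤ (b : ℝ) ^ z0 * Cs := by
    have h1 := hP2 i0 z0 J (by omega) (by omega) le_rfl hz0 (by omega) U hU2
    have hnn : ∀ c, 0 ≤ EXC b k1 K z0 c i0 J U := by
      intro c
      unfold EXC
      exact Finset.sum_nonneg fun i _ => Finset.sum_nonneg fun q _ => div_nonneg
        (Finset.sum_nonneg fun c _ => Exs_nonneg _ _ _ _ _) (by positivity)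
    have h2 : EXC b k1 K z0 j0 i0 J U ≤
        ∑ c ∈ Ico (b ^ (z0 - z0)) (b ^ (z0 + z0)), EXC b k1 K z0 c i0 J U := by
      refine Finset.single_le_sum (f := fun c => EXC b k1 K z0 c i0 J U) (fun c _ => hnn c) ?_
      rw [mem_Ico, Nat.sub_self, pow_zero, ← two_mul]
      exact ⟨hj1, hj2⟩
    refine (h2.trans h1).trans (mul_le_mul_of_nonneg_left ?_ (by positivity))
    exact summable_sq.sum_le_tsum _ fun q _ => by positivity
  have hm := hgen k1 hk1 K hK z0 j0 hj1 hj2.le i0 J hPi (by omega) hz0 (by omega) tt le_rfl (Fin r) T hdis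
    hU2 δ hδ0'.le hblock α hα00 hx1 e he1 he2
  have htr := trim_sum b S z0 j0 (fun j : Fin r => t j * x) (fun j : Fin r => t (j + 1) * x) i0 tt e he1 he2
  have hztt : z0 ≤ tt := by
    have h1 : 2 ^ (i0 + 1 - k1) ≤ 2 ^ J := Nat.pow_le_pow_right (by norm_num) (by omega)
    omega
  -- the integral
  set Dd : ℂ := ∏ j : Fin r, Complex.exp (-((τ j / √((t (j + 1) - t j) * x) : ℝ) *
    ((t (j + 1) - t j) * x : ℝ) * Complex.I)) with hDd
  have hDd1 : ‖Dd‖ = 1 := by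
    simp only [hDd]
    rw [norm_prod]
    refine Finset.prod_eq_one fun j _ => ?_
    have : (-((τ j / √((t (j + 1) - t j) * x) : ℝ) * ((t (j + 1) - t j) * x : ℝ) * Complex.I) : ℂ) =
      ((-(τ j / √((t (j + 1) - t j) * x) * ((t (j + 1) - t j) * x)) : ℝ) : ℂ) * Complex.I := by
      push_cast; ring
    rw [this, Complex.norm_exp_ofReal_mul_I]
  set Hn : ℕ → ℂ := fun n => ∏ j, e j ^ (hits (SW b S (t j * x) (t (j + 1) * x)) b tt n).card with hHn
  have hint : ∫ β in Icell b z0 j0, Complex.exp (((∑ j : Fin r, τ j *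
      (((NW b S β (t j * x) (t (j + 1) * x) : ℝ) - (t (j + 1) - t j) * x) /
        √((t (j + 1) - t j) * x)) : ℝ) : ℂ) * Complex.I) =
      (∑ n ∈ cell b z0 tt j0, Hn n) / (b : ℂ) ^ tt * Dd := by
    rw [← int_cell hb hztt j0 Hn, ← MeasureTheory.integral_mul_const]
    refine setIntegral_congr_fun measurableSet_Ioc fun β hβ => ?_
    have hβ0 := Icell_pos hb hβ
    rw [integrand_eq τ (fun j : Fin r => t (j + 1) - t j) x hx0 hΔ
      (fun j : Fin r => NW b S β (t j * x) (t (j + 1) * x))]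
    congr 1
    simp only [hHn, he]
    refine Finset.prod_congr rfl fun j _ => ?_
    rw [NW_hits hb hv hβ0 (tt := tt)]
    refine (NN_mono hv (mul_le_mul_of_nonneg_right (mono_t ht _ _ j.2 le_rfl) hx0.le)).trans ?_
    change NN b S (W * x) ≤ tt
    have := h2pow J
    rw [← htt] at this
    omega
  rw [hint]
  set R1 := ∑ n ∈ cell b z0 tt j0, Hn n with hS1
  set R2 := ∑ n ∈ cell b z0 tt j0, ∏ j, e j ^ (hits (T j) b tt n).card with hS2
  set M := ∏ j, Complex.exp (-(((κ * VT (T j) : ℝ) : ℂ) * (1 - e j))) with hM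
  set G := Complex.exp (-((∑ j, τ j ^ 2) / 2 : ℝ)) with hG
  have hMD : ‖M * Dd - G‖ < ε / 4 := by
    refine lt_of_eq_of_lt ?_ hx4
    congr 2
    rw [hM, hDd, ← Finset.prod_mul_distrib]
  have hbt : (b : ℂ) ^ tt ≠ 0 := by
    have : (b : ℂ) ≠ 0 := by exact_mod_cast hb0.ne'
    exact pow_ne_zero _ this
  have hpow : (b : ℝ) ^ tt = (b : ℝ) ^ (tt - z0) * (b : ℝ) ^ z0 := by
    rw [← pow_add]; congr 1; omega
  have hpowc : (b : ℂ) ^ tt = (b : ℂ) ^ (tt - z0) * (b : ℂ) ^ z0 := by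
    rw [← pow_add]; congr 1; omega
  have hbz : (b : ℂ) ^ z0 ≠ 0 := by
    have : (b : ℂ) ≠ 0 := by exact_mod_cast hb0.ne'
    exact pow_ne_zero _ this
  have hbtz : (b : ℂ) ^ (tt - z0) ≠ 0 := by
    have : (b : ℂ) ≠ 0 := by exact_mod_cast hb0.ne'
    exact pow_ne_zero _ this
  have e1 : R1 / (b : ℂ) ^ tt * Dd - (((b : ℝ) ^ z0)⁻¹ : ℝ) * G =
      (R1 - R2) / (b : ℂ) ^ tt * Dd + (R2 - (b : ℂ) ^ (tt - z0) * M) / (b : ℂ) ^ tt * Dd +
        ((b : ℂ) ^ z0)⁻¹ * (M * Dd - G) := by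
    rw [hpowc]
    push_cast
    field_simp
    ring
  rw [e1]
  have hn0 : ∀ z : ℂ, ‖z / (b : ℂ) ^ tt * Dd‖ = ‖z‖ / (b : ℝ) ^ tt := by
    intro z
    rw [norm_mul, hDd1, mul_one, norm_div, norm_pow, Complex.norm_natCast]
  have hbtt : (0 : ℝ) < (b : ℝ) ^ tt := by positivity
  have hbz1 : ((b : ℝ) ^ z0)⁻¹ ≤ 1 := inv_le_one_of_one_le₀ (one_le_pow₀ hb1)
  have hdiv : ∀ y : ℝ, 0 ≤ y → (b : ℝ) ^ (tt - z0) * y / (b : ℝ) ^ tt ≤ y := by
    intro y hy
    rw [hpow, mul_div_mul_left _ _ (by positivity)]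
    exact div_le_self hy (one_le_pow₀ hb1)
  have t1 : ‖(R1 - R2) / (b : ℂ) ^ tt * Dd‖ < ε / 4 := by
    rw [hn0]
    refine lt_of_le_of_lt ((div_le_div_of_nonneg_right htr hbtt.le).trans (hdiv _ (by positivity))) hx3
  have t3 : ‖((b : ℂ) ^ z0)⁻¹ * (M * Dd - G)‖ < ε / 4 := by
    rw [norm_mul, norm_inv, norm_pow, Complex.norm_natCast]
    refine lt_of_le_of_lt (mul_le_of_le_one_left (norm_nonneg _) hbz1) hMD
  have hCP0 : 0 ≤ CP b U := by
    unfold CP
    exact Finset.sum_nonneg fun q _ => Finset.sum_nonneg fun p _ => div_nonneg (w_nonneg p) (by positivity)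
  have hE0 : 0 ≤ EXC b k1 K z0 j0 i0 J U := by
    unfold EXC
    exact Finset.sum_nonneg fun i _ => Finset.sum_nonneg fun q _ => div_nonneg
      (Finset.sum_nonneg fun c _ => Exs_nonneg _ _ _ _ _) (by positivity)
  have hα2' : α ^ 2 * x = A ^ 2 := by
    rw [hα, div_pow, Real.sq_sqrt hx0.le]
    field_simp
  have hWκ : 0 ≤ W / κ := by positivity
  have t2 : ‖(R2 - (b : ℂ) ^ (tt - z0) * M) / (b : ℂ) ^ tt * Dd‖ < ε / 4 + ε / 4 := by
    rw [hn0]
    have h0 : 0 ≤ C * α ^ 2 * (δ * VT U + CP b U) + α * K * ∑ q ∈ U, (q : ℝ)⁻¹ +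
        α * EXC b k1 K z0 j0 i0 J U := by
      have h1 := VT_nonneg U
      have h2 : 0 ≤ ∑ q ∈ U, (q : ℝ)⁻¹ := Finset.sum_nonneg fun q _ => by positivity
      positivity
    refine lt_of_le_of_lt ((div_le_div_of_nonneg_right hm hbtt.le).trans (hdiv _ h0)) ?_
    have h1 : C * α ^ 2 * (δ * VT U + CP b U) ≤ C * A ^ 2 * (δ * (W / κ) + δ * (W / κ)) := by
      calc C * α ^ 2 * (δ * VT U + CP b U) ≤ C * α ^ 2 * (δ * (x * (W / κ)) + δ * (x * (W / κ))) := by
            gcongr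
        _ = C * (α ^ 2 * x) * (δ * (W / κ) + δ * (W / κ)) := by ring
        _ = _ := by rw [hα2']
    have h2 : α * K * ∑ q ∈ U, (q : ℝ)⁻¹ ≤ A * K * (Cr * √(δ * (W / κ))) := by
      calc α * K * ∑ q ∈ U, (q : ℝ)⁻¹ ≤ α * K * (Cr * √(δ * (x * (W / κ)))) := by gcongr
        _ = (α * √x) * K * (Cr * √(δ * (W / κ))) := by
            have : δ * (x * (W / κ)) = x * (δ * (W / κ)) := by ring
            rw [this, Real.sqrt_mul hx0.le]
            ring
        _ = _ := by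
            rw [hα, div_mul_cancel₀ _ hsx.ne']
    have h3 : α * EXC b k1 K z0 j0 i0 J U ≤ α * ((b : ℝ) ^ z0 * Cs) := by gcongr
    linarith
  calc ‖(R1 - R2) / (b : ℂ) ^ tt * Dd + (R2 - (b : ℂ) ^ (tt - z0) * M) / (b : ℂ) ^ tt * Dd +
        ((b : ℂ) ^ z0)⁻¹ * (M * Dd - G)‖ ≤ _ := norm_add₃_le
    _ < ε / 4 + (ε / 4 + ε / 4) + ε / 4 := by linarith
    _ = ε := by ring

end Pool.Agent.H32x.PL
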