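import Mathlib
import Pool.Agent.H32x.PL.Win

set_option autoImplicit false

/-!
# From patterns on the grid to windows after an exponent
-/

namespace Pool.Agent.H32x.PL

open Finset Filter Topology MeasureTheory
open Pool.Agent.N176.GP (cnt XX NB NB_spec NB_div)
open Pool.Agent.N176.OW (kap VT VS VS_mono VS_nonneg VT_nonneg S_FM)
open Pool.Agent.H305R2 (roughPart)

/-- the exponents of `β` in `S` -/
def Et (b : ℕ) (S : Set ℕ) (β : ℝ) : Set ℕ := {p | p.Prime ∧ p ∈ S ∧ (roughPart p (NB b β p)).Prime}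

/-- the windows `(x i, x (i+1)]` after `p` contain `k i` exponents -/
def Qp (b : ℕ) (S : Set ℕ) (β : ℝ) (r : ℕ) (x : ℕ → ℝ) (k : Fin r → ℕ) (p : ℕ) : Prop :=
  ∀ i : Fin r, Set.encard {q | q ∈ Et b S β ∧ x i < vv b S q - vv b S p ∧
    vv b S q - vv b S p ≤ x (i + 1)} = k i

/-- index type of the windows -/
abbrev IX (r : ℕ) : Type := Unit ⊕ (Fin r ⊕ Fin r)

def loX (X : ℕ → ℕ) (r : ℕ) : IX r → ℕ
  | .inl _ => 0
  | .inr (.inl i) => if (i : ℕ) = 0 then 1 else X i + 2
  | .inr (.inr i) => X (i + 1)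

def hiX (X : ℕ → ℕ) (r : ℕ) : IX r → ℕ
  | .inl _ => 1
  | .inr (.inl i) => X (i + 1)
  | .inr (.inr i) => X (i + 1) + 2

def kX {r : ℕ} (k : Fin r → ℕ) : IX r → ℕ
  | .inl _ => 1
  | .inr (.inl i) => k i
  | .inr (.inr _) => 0

lemma Xmono {X : ℕ → ℕ} {r : ℕ} (h1 : 0 < r → 1 ≤ X 1) (h2 : ∀ i, 1 ≤ i → i < r → X i + 2 ≤ X (i + 1)) :
    ∀ i j, 1 ≤ i → i < j → j ≤ r → X i + 2 ≤ X j := by
  intro i j hi hij hj
  induction j, hij using Nat.le_induction with
  | base => exact h2 i hi (by omega)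
  | succ j hij ih =>
    have := ih (by omega)
    have := h2 j (by omega) (by omega)
    omega

lemma lo_le_hi {X : ℕ → ℕ} {r : ℕ} (h1 : 0 < r → 1 ≤ X 1)
    (h2 : ∀ i, 1 ≤ i → i < r → X i + 2 ≤ X (i + 1)) (j : IX r) : loX X r j ≤ hiX X r j := by
  rcases j with _ | i | i
  · exact Nat.zero_le _
  · show (if (i : ℕ) = 0 then 1 else X i + 2) ≤ X (i + 1)
    split_ifs with h
    · rw [h]; exact h1 (by have := i.2; omega)
    · exact h2 i (by omega) i.2
  · show X (i + 1) ≤ X (i + 1) + 2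
    omega

lemma dis_lo_hi {X : ℕ → ℕ} {r : ℕ} (h1 : 0 < r → 1 ≤ X 1)
    (h2 : ∀ i, 1 ≤ i → i < r → X i + 2 ≤ X (i + 1)) (j j' : IX r) (hjj : j ≠ j') :
    hiX X r j ≤ loX X r j' ∨ hiX X r j' ≤ loX X r j := by
  have hm := Xmono h1 h2
  have hX1 : ∀ i, 1 ≤ i → i ≤ r → 1 ≤ X i := by
    intro i hi hir
    rcases Nat.eq_or_lt_of_le hi with h | h
    · rw [← h]; exact h1 (by omega)
    · have := hm 1 i le_rfl h hir
      omega
  -- lower ends
  have hA : ∀ i : Fin r, loX X r (.inr (.inl i)) = if (i : ℕ) = 0 then 1 else X i + 2 := fun _ => rfl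
  rcases j with _ | i | i <;> rcases j' with _ | i' | i'
  · exact absurd rfl hjj
  · left
    show 1 ≤ (if (i' : ℕ) = 0 then 1 else X i' + 2)
    split_ifs <;> omega
  · left
    exact hX1 _ (by omega) (by have := i'.2; omega)
  · right
    show 1 ≤ (if (i : ℕ) = 0 then 1 else X i + 2)
    split_ifs <;> omega
  · -- A i, A i'
    rcases Nat.lt_trichotomy i i' with h | h | h
    · left
      show X (i + 1) ≤ (if (i' : ℕ) = 0 then 1 else X i' + 2)
      rw [if_neg (by omega)]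
      rcases Nat.eq_or_lt_of_le (show (i : ℕ) + 1 ≤ i' by omega) with h3 | h3
      · rw [h3]; omega
      · have := hm (i + 1) i' (by omega) h3 (by have := i'.2; omega)
        omega
    · exact absurd (by rw [Fin.ext h]) hjj
    · right
      show X (i' + 1) ≤ (if (i : ℕ) = 0 then 1 else X i + 2)
      rw [if_neg (by omega)]
      rcases Nat.eq_or_lt_of_le (show (i' : ℕ) + 1 ≤ i by omega) with h3 | h3
      · rw [h3]; omega
      · have := hm (i' + 1) i (by omega) h3 (by have := i.2; omega)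
        omega
  · -- A i, B i'
    rcases Nat.lt_or_ge (i' : ℕ) i with h | h
    · right
      show X (i' + 1) + 2 ≤ (if (i : ℕ) = 0 then 1 else X i + 2)
      rw [if_neg (by omega)]
      rcases Nat.eq_or_lt_of_le (show (i' : ℕ) + 1 ≤ i by omega) with h3 | h3
      · rw [h3]
      · have := hm (i' + 1) i (by omega) h3 (by have := i.2; omega)
        omega
    · left
      show X (i + 1) ≤ X (i' + 1)
      rcases Nat.eq_or_lt_of_le (show (i : ℕ) + 1 ≤ i' + 1 by omega) with h3 | h3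
      · rw [h3]
      · have := hm (i + 1) (i' + 1) (by omega) h3 (by have := i'.2; omega)
        omega
  · right
    exact hX1 _ (by omega) (by have := i.2; omega)
  · -- B i, A i'
    rcases Nat.lt_or_ge (i : ℕ) i' with h | h
    · left
      show X (i + 1) + 2 ≤ (if (i' : ℕ) = 0 then 1 else X i' + 2)
      rw [if_neg (by omega)]
      rcases Nat.eq_or_lt_of_le (show (i : ℕ) + 1 ≤ i' by omega) with h3 | h3
      · rw [h3]
      · have := hm (i + 1) i' (by omega) h3 (by have := i'.2; omega)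
        omega
    · right
      show X (i' + 1) ≤ X (i + 1)
      rcases Nat.eq_or_lt_of_le (show (i' : ℕ) + 1 ≤ i + 1 by omega) with h3 | h3
      · rw [h3]
      · have := hm (i' + 1) (i + 1) (by omega) h3 (by have := i.2; omega)
        omega
  · -- B i, B i'
    rcases Nat.lt_trichotomy i i' with h | h | h
    · left
      show X (i + 1) + 2 ≤ X (i' + 1)
      exact hm (i + 1) (i' + 1) (by omega) (by omega) (by have := i'.2; omega)
    · exact absurd (by rw [Fin.ext h]) hjj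
    · right
      show X (i' + 1) + 2 ≤ X (i + 1)
      exact hm (i' + 1) (i + 1) (by omega) (by omega) (by have := i.2; omega)

lemma geom {b : ℕ} {S : Set ℕ} (hv : Tendsto (vv b S) atTop atTop) (β : ℝ) {η : ℝ} (hη : 0 < η)
    (r : ℕ) (x : ℕ → ℝ) (k : Fin r → ℕ) (hx0 : x 0 = 0) (hx : ∀ i < r, x i < x (i + 1)) (l : ℕ)
    (hpat : ∀ j, ((SW b S (((l : ℝ) + loX (fun i => ⌊x i / η⌋₊) r j) * η)
      (((l : ℝ) + hiX (fun i => ⌊x i / η⌋₊) r j) * η)).filter
        (fun p => (roughPart p (NB b β p)).Prime)).card = kX k j) :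
    ∃ p ∈ Et b S β, (l : ℝ) * η < vv b S p ∧ vv b S p ≤ ((l : ℝ) + 1) * η ∧ Qp b S β r x k p := by
  classical
  set X : ℕ → ℕ := fun i => ⌊x i / η⌋₊ with hX
  have hxnn : ∀ i ≤ r, 0 ≤ x i := by
    intro i hi
    induction i with
    | zero => rw [hx0]
    | succ i ih => exact (ih (by omega)).trans (hx i (by omega)).le
  have hXle : ∀ i ≤ r, (X i : ℝ) * η ≤ x i := by
    intro i hi
    rw [← le_div_iff₀ hη]
    exact Nat.floor_le (div_nonneg (hxnn i hi) hη.le)
  have hXlt : ∀ i, x i < ((X i : ℝ) + 1) * η := by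
    intro i
    rw [← div_lt_iff₀ hη]
    exact Nat.lt_floor_add_one _
  -- the cell
  have h0 := hpat (.inl ())
  have e0 : loX X r (.inl ()) = 0 := rfl
  have e0' : hiX X r (.inl ()) = 1 := rfl
  have e0'' : kX k (.inl ()) = 1 := rfl
  rw [e0, e0', e0'', Finset.card_eq_one] at h0
  obtain ⟨p, hp⟩ := h0
  have hpm : p ∈ ({p} : Finset ℕ) := mem_singleton_self p
  rw [← hp, mem_filter, mem_SW hv] at hpm
  obtain ⟨⟨⟨hp1, hp2⟩, hp3, hp4⟩, hp5⟩ := hpm
  push_cast at hp3 hp4
  rw [add_zero] at hp3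
  refine ⟨p, ⟨hp1, hp2, hp5⟩, hp3, hp4, fun i => ?_⟩
  -- no exponents in the boundary cells
  have hB : ∀ i : Fin r, ∀ q ∈ Et b S β, ¬ (((l : ℝ) + X (i + 1)) * η < vv b S q ∧
      vv b S q ≤ ((l : ℝ) + (X (i + 1) + 2 : ℕ)) * η) := by
    intro i q hq hcon
    have h1 := hpat (.inr (.inr i))
    have e1 : loX X r (.inr (.inr i)) = X (i + 1) := rfl
    have e1' : hiX X r (.inr (.inr i)) = X (i + 1) + 2 := rfl
    have e1'' : kX k (.inr (.inr i)) = 0 := rfl
    rw [e1, e1', e1'', Finset.card_eq_zero, Finset.filter_eq_empty_iff] at h1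
    refine h1 ((mem_SW hv).2 ⟨⟨hq.1, hq.2.1⟩, hcon.1, hcon.2⟩) hq.2.2
  have h1 := hpat (.inr (.inl i))
  have e1 : loX X r (.inr (.inl i)) = if (i : ℕ) = 0 then 1 else X i + 2 := rfl
  have e1' : hiX X r (.inr (.inl i)) = X (i + 1) := rfl
  have e1'' : kX k (.inr (.inl i)) = k i := rfl
  rw [e1, e1', e1''] at h1
  rw [← h1, ← Set.encard_coe_eq_coe_finsetCard]
  congr 1
  ext q
  rw [Finset.mem_coe, mem_filter, mem_SW hv]
  simp only [Set.mem_setOf_eq]
  have hi1 : (i : ℕ) + 1 ≤ r := i.2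
  have hXu := hXle (i + 1) hi1
  have hXv := hXlt (i + 1)
  constructor
  · rintro ⟨hq, hq1, hq2⟩
    refine ⟨⟨⟨hq.1, hq.2.1⟩, ?_, ?_⟩, hq.2.2⟩
    · by_cases h : (i : ℕ) = 0
      · rw [if_pos h]
        rw [h, hx0] at hq1
        by_contra hcon
        have hqm : q ∈ ({p} : Finset ℕ) := by
          rw [← hp, mem_filter, mem_SW hv]
          push_cast at hcon ⊢
          refine ⟨⟨⟨hq.1, hq.2.1⟩, ?_, not_lt.1 hcon⟩, hq.2.2⟩
          linarith
        rw [mem_singleton] at hqm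
        rw [hqm] at hq1
        linarith
      · rw [if_neg h]
        obtain ⟨i', hi'⟩ : ∃ i' : Fin r, (i' : ℕ) + 1 = i := ⟨⟨i - 1, by have := i.2; omega⟩, by
          show (i : ℕ) - 1 + 1 = i
          omega⟩
        have h2 := hB i' q hq
        rw [hi'] at h2
        have h3 := hXle i (by omega)
        by_contra hcon
        refine h2 ⟨?_, not_lt.1 hcon⟩
        nlinarith
    · have h2 := hB i q hq
      by_contra hcon
      refine h2 ⟨not_le.1 hcon, ?_⟩
      push_cast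
      nlinarith
  · rintro ⟨⟨⟨hq1, hq2⟩, hq3, hq4⟩, hq5⟩
    refine ⟨⟨hq1, hq2, hq5⟩, ?_, ?_⟩
    · by_cases h : (i : ℕ) = 0
      · rw [if_pos h] at hq3
        push_cast at hq3
        rw [h, hx0]
        linarith
      · rw [if_neg h] at hq3
        push_cast at hq3
        have h3 := hXlt i
        nlinarith
    · nlinarith

end Pool.Agent.H32x.PL
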