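import Mathlib
import Pool.Agent.H32x.PL.Geo

set_option autoImplicit false

/-!
# Poisson statistics after a typical exponent
-/

namespace Pool.Agent.H32x.PL

open Finset Filter Topology MeasureTheory
open Pool.Agent.N176.GP (cnt XX NB NB_spec NB_div MB)
open Pool.Agent.N176.OW (kap VT VS VS_mono VS_nonneg VT_nonneg S_FM S_LIL)
open Pool.Agent.H305R2 (roughPart)

/-- conservation of mass -/
lemma mass {κ : Type*} (u : κ → ℕ → ℝ) (c : κ → ℝ) (hc0 : ∀ k, 0 ≤ c k)
    (hsum : ∀ (F : Finset κ) (n : ℕ), ∑ k ∈ F, u k n ≤ 1)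
    (hlow : ∀ k, ∀ ε > 0, ∀ᶠ n in atTop, c k - ε ≤ u k n)
    (hc : ∀ ε > 0, ∃ F : Finset κ, 1 - ε ≤ ∑ k ∈ F, c k) (k : κ) : Tendsto (u k) atTop (𝓝 (c k)) := by
  classical
  rw [Metric.tendsto_atTop]
  intro ε hε
  obtain ⟨F, hF⟩ := hc (ε / 4) (by positivity)
  set F' := insert k F with hF'
  set m : ℝ := (F'.card : ℝ) + 1 with hm
  have hm0 : 0 < m := by positivity
  have h1 : ∀ᶠ n in atTop, ∀ k' ∈ F', c k' - ε / (4 * m) ≤ u k' n := by
    rw [Filter.eventually_all_finset]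
    intro k' _
    exact hlow k' _ (by positivity)
  obtain ⟨N, hN⟩ := eventually_atTop.1 (h1.and (hlow k (ε / 2) (by positivity)))
  refine ⟨N, fun n hn => ?_⟩
  obtain ⟨h2, h3⟩ := hN n hn
  rw [Real.dist_eq, abs_lt]
  constructor
  · linarith
  · have h4 := hsum F' n
    have hk : k ∈ F' := Finset.mem_insert_self _ _
    rw [← Finset.add_sum_erase _ _ hk] at h4
    have h5 : ∑ k' ∈ F'.erase k, c k' - ε / 4 ≤ ∑ k' ∈ F'.erase k, u k' n := by
      have h6 : ∑ k' ∈ F'.erase k, (c k' - ε / (4 * m)) ≤ ∑ k' ∈ F'.erase k, u k' n :=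
        Finset.sum_le_sum fun k' hk' => h2 k' (Finset.mem_of_mem_erase hk')
      rw [Finset.sum_sub_distrib, Finset.sum_const, nsmul_eq_mul] at h6
      have h7 : ((F'.erase k).card : ℝ) * (ε / (4 * m)) ≤ ε / 4 := by
        have h8 : ((F'.erase k).card : ℝ) ≤ m := by
          have : ((F'.erase k).card : ℝ) ≤ F'.card := by exact_mod_cast Finset.card_erase_le
          rw [hm]; linarith
        calc ((F'.erase k).card : ℝ) * (ε / (4 * m)) ≤ m * (ε / (4 * m)) := by gcongr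
          _ = ε / 4 := by field_simp
      linarith
    have h9 : ∑ k' ∈ F, c k' ≤ ∑ k' ∈ F', c k' :=
      Finset.sum_le_sum_of_subset_of_nonneg (Finset.subset_insert _ _) fun k' _ _ => hc0 k'
    rw [← Finset.add_sum_erase _ _ hk] at h9
    linarith

lemma Poi_nonneg {l : ℝ} (hl : 0 ≤ l) (k : ℕ) : 0 ≤ Poi l k := by unfold Poi; positivity

lemma hasSum_Poi (l : ℝ) : HasSum (Poi l) 1 := by
  have h1 := NormedSpace.expSeries_div_hasSum_exp (𝔸 := ℝ) l
  rw [← Real.exp_eq_exp_ℝ] at h1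
  have h2 := h1.mul_left (Real.exp (-l))
  rw [← Real.exp_add, neg_add_cancel, Real.exp_zero] at h2
  have h3 : (fun k : ℕ => Real.exp (-l) * (l ^ k / (k.factorial : ℝ))) = Poi l := by
    funext k
    unfold Poi
    ring
  rwa [h3] at h2

/-- total mass of the product of Poisson laws -/
lemma poi_total {r : ℕ} (l : Fin r → ℝ) {ε : ℝ} (hε : 0 < ε) :
    ∃ F : Finset (Fin r → ℕ), 1 - ε ≤ ∑ k ∈ F, ∏ i, Poi (l i) (k i) := by
  classical
  have h1 : Tendsto (fun K : ℕ => ∏ i, ∑ m ∈ range K, Poi (l i) m) atTop (𝓝 (∏ _i : Fin r, (1 : ℝ))) :=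
    tendsto_finsetProd _ fun i _ => (hasSum_Poi (l i)).tendsto_sum_nat
  rw [Finset.prod_const_one] at h1
  obtain ⟨K, hK⟩ := (h1.eventually_const_le (show 1 - ε < 1 by linarith)).exists
  refine ⟨Fintype.piFinset fun _ => range K, ?_⟩
  rw [Finset.prod_univ_sum] at hK
  exact hK

/-- the law of large numbers, from the law of the iterated logarithm -/
lemma lln (hL : S_LIL) {b : ℕ} (hb : 2 ≤ b) {S : Set ℕ} (hS : Tendsto (fun n => VS S n) atTop atTop) :
    ∀ᵐ β : ℝ, 0 < β → Tendsto (fun n => (MB b S β n : ℝ) / vv b S n) atTop (𝓝 1) := by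
  obtain ⟨C, hC, h⟩ := hL b hb
  have hκ0 := kap_pos hb
  filter_upwards [h S hS] with β hβ hβ0
  have h1 := hβ hβ0
  have h2 : Tendsto (fun n => C / kap b * √(Real.log (VS S n) / VS S n)) atTop (𝓝 0) := by
    have h3 : Tendsto (fun x : ℝ => Real.log x / x) atTop (𝓝 0) := by
      have := Real.tendsto_pow_log_div_mul_add_atTop 1 0 1 one_ne_zero
      refine this.congr fun x => ?_
      simp
    have h4 := ((h3.comp hS).sqrt).const_mul (C / kap b)
    rw [Real.sqrt_zero, mul_zero] at h4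
    exact h4
  rw [tendsto_iff_norm_sub_tendsto_zero]
  refine squeeze_zero' (Filter.Eventually.of_forall fun _ => norm_nonneg _) ?_ h2
  filter_upwards [h1, hS.eventually_ge_atTop (Real.exp 1)] with n hn hn2
  have hV0 : 0 < VS S n := lt_of_lt_of_le (Real.exp_pos 1) hn2
  have hl1 : 1 ≤ Real.log (VS S n) := by rwa [Real.le_log_iff_exp_le hV0]
  have hll : Real.log (Real.log (VS S n)) ≤ Real.log (VS S n) :=
    (Real.log_le_sub_one_of_pos (by linarith)).trans (by linarith)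
  have hvv : 0 < vv b S n := mul_pos hκ0 hV0
  rw [Real.norm_eq_abs]
  have e : (MB b S β n : ℝ) / vv b S n - 1 = ((MB b S β n : ℝ) - kap b * VS S n) / vv b S n := by
    unfold vv at hvv ⊢
    field_simp
  rw [e, abs_div, abs_of_pos hvv, div_le_iff₀ hvv]
  refine hn.trans ?_
  have e2 : √(VS S n * Real.log (VS S n)) = √(Real.log (VS S n) / VS S n) * VS S n := by
    have e3 : VS S n * Real.log (VS S n) = Real.log (VS S n) / VS S n * VS S n ^ 2 := by field_simp
    rw [e3, Real.sqrt_mul' _ (sq_nonneg _), Real.sqrt_sq hV0.le]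
  calc C * √(VS S n * Real.log (Real.log (VS S n))) ≤ C * √(VS S n * Real.log (VS S n)) := by
        gcongr
    _ = _ := by
        rw [e2]
        unfold vv
        field_simp

open Classical in
/-- the number of exponents up to `n` with the pattern -/
noncomputable def BB (b : ℕ) (S : Set ℕ) (β : ℝ) (r : ℕ) (x : ℕ → ℝ) (k : Fin r → ℕ) (n : ℕ) : ℕ :=
  ((range (n + 1)).filter (fun p => p ∈ Et b S β ∧ Qp b S β r x k p)).card

lemma count {b : ℕ} (hb : 2 ≤ b) {S : Set ℕ} (hv : Tendsto (vv b S) atTop atTop) (β : ℝ) {η : ℝ}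
    (hη : 0 < η) (r : ℕ) (x : ℕ → ℝ) (k : Fin r → ℕ) (hx0 : x 0 = 0) (hx : ∀ i < r, x i < x (i + 1))
    (L n : ℕ) (hLn : (L : ℝ) * η ≤ vv b S n) :
    ∑ l ∈ range L, pat b (fun l j => SW b S (((l : ℝ) + loX (fun i => ⌊x i / η⌋₊) r j) * η)
      (((l : ℝ) + hiX (fun i => ⌊x i / η⌋₊) r j) * η)) (kX k) l β ≤ BB b S β r x k n := by
  classical
  set f : ℕ → Prop := fun l => ∀ j, ((SW b S (((l : ℝ) + loX (fun i => ⌊x i / η⌋₊) r j) * η)
      (((l : ℝ) + hiX (fun i => ⌊x i / η⌋₊) r j) * η)).filter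
        (fun p => (roughPart p (NB b β p)).Prime)).card = kX k j with hf
  have e : ∑ l ∈ range L, pat b (fun l j => SW b S (((l : ℝ) + loX (fun i => ⌊x i / η⌋₊) r j) * η)
      (((l : ℝ) + hiX (fun i => ⌊x i / η⌋₊) r j) * η)) (kX k) l β =
      ∑ l ∈ range L, if f l then (1 : ℝ) else 0 := by
    refine Finset.sum_congr rfl fun l _ => ?_
    unfold pat
    by_cases h : f l
    · rw [if_pos h, if_pos]
      intro j
      convert h j
    · rw [if_neg h, if_neg]
      intro h'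
      refine h fun j => ?_
      convert h' j
  rw [e, Finset.sum_boole]
  unfold BB
  have : ((range L).filter f).card ≤
      ((range (n + 1)).filter (fun p => p ∈ Et b S β ∧ Qp b S β r x k p)).card := by
    refine Finset.card_le_card_of_surjOn (fun p => ⌈vv b S p / η⌉₊ - 1) ?_
    intro l hl
    rw [Finset.mem_coe, mem_filter, mem_range] at hl
    obtain ⟨p, hpE, hp1, hp2, hpQ⟩ := geom hv β hη r x k hx0 hx l hl.2
    refine ⟨p, ?_, ?_⟩
    · rw [Finset.mem_coe, mem_filter, mem_range]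
      refine ⟨?_, hpE, hpQ⟩
      by_contra hcon
      have h1 : n < p := by omega
      have h2 := vv_lt hb hpE.1 hpE.2.1 h1
      have h3 : ((l : ℝ) + 1) * η ≤ L * η := by
        have : (l : ℝ) + 1 ≤ L := by exact_mod_cast hl.1
        nlinarith
      linarith
    · have h1 : (l : ℝ) < vv b S p / η := by rwa [lt_div_iff₀ hη]
      have h2 : vv b S p / η ≤ ((l + 1 : ℕ) : ℝ) := by
        rw [div_le_iff₀ hη]; push_cast; exact hp2
      have h3 : ⌈vv b S p / η⌉₊ ≤ l + 1 := Nat.ceil_le.2 h2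
      have h4 : l < ⌈vv b S p / η⌉₊ := Nat.lt_ceil.2 h1
      show ⌈vv b S p / η⌉₊ - 1 = l
      omega
  exact_mod_cast this

lemma floor_lim {x : ℝ} (hx : 0 ≤ x) {η : ℕ → ℝ} (hη0 : ∀ s, 0 < η s) (hη : Tendsto η atTop (𝓝 0)) :
    Tendsto (fun s => (⌊x / η s⌋₊ : ℝ) * η s) atTop (𝓝 x) := by
  have h1 : Tendsto (fun s => x - η s) atTop (𝓝 x) := by
    simpa using tendsto_const_nhds.sub hη
  refine tendsto_of_tendsto_of_tendsto_of_le_of_le h1 tendsto_const_nhds (fun s => ?_) (fun s => ?_)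
  · have h2 := Nat.lt_floor_add_one (x / η s)
    rw [div_lt_iff₀ (hη0 s)] at h2
    simp only
    nlinarith
  · have h2 := Nat.floor_le (div_nonneg hx (hη0 s).le)
    rwa [le_div_iff₀ (hη0 s)] at h2

lemma lim_prod (r : ℕ) (x : ℕ → ℝ) (k : Fin r → ℕ) (hx0 : x 0 = 0) (hx : ∀ i < r, x i < x (i + 1))
    {η : ℕ → ℝ} (hη0 : ∀ s, 0 < η s) (hη : Tendsto η atTop (𝓝 0)) :
    Tendsto (fun s => (∏ j, Poi (((hiX (fun i => ⌊x i / η s⌋₊) r j : ℝ) -
      loX (fun i => ⌊x i / η s⌋₊) r j) * η s) (kX k j)) / η s) atTop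
      (𝓝 (∏ i : Fin r, Poi (x (i + 1) - x i) (k i))) := by
  have hxnn : ∀ i ≤ r, 0 ≤ x i := by
    intro i hi
    induction i with
    | zero => rw [hx0]
    | succ i ih => exact (ih (by omega)).trans (hx i (by omega)).le
  have h1 : Tendsto (fun s => Real.exp (-η s)) atTop (𝓝 1) := by
    have := (Real.continuous_exp.tendsto _).comp hη.neg
    rw [neg_zero, Real.exp_zero] at this
    exact this
  have h2 : ∀ i : Fin r, Tendsto (fun s => Poi (((⌊x (i + 1) / η s⌋₊ : ℝ) -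
      ((if (i : ℕ) = 0 then 1 else ⌊x i / η s⌋₊ + 2 : ℕ) : ℝ)) * η s) (k i)) atTop
      (𝓝 (Poi (x (i + 1) - x i) (k i))) := by
    intro i
    refine ((continuous_Poi (k i)).tendsto _).comp ?_
    have h3 := floor_lim (hxnn (i + 1) i.2) hη0 hη
    have h4 : Tendsto (fun s => ((if (i : ℕ) = 0 then 1 else ⌊x i / η s⌋₊ + 2 : ℕ) : ℝ) * η s) atTop
        (𝓝 (x i)) := by
      by_cases h : (i : ℕ) = 0
      · simp only [if_pos h]
        rw [h, hx0]
        simpa using hη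
      · simp only [if_neg h]
        have h5 := (floor_lim (hxnn i i.2.le) hη0 hη).add (hη.const_mul 2)
        rw [mul_zero, add_zero] at h5
        refine h5.congr fun s => ?_
        push_cast
        ring
    refine (h3.sub h4).congr fun s => ?_
    ring
  have h3 : Tendsto (fun s => Poi (2 * η s) 0) atTop (𝓝 1) := by
    have := ((continuous_Poi 0).tendsto _).comp (hη.const_mul 2)
    have h4 : Poi (2 * 0) 0 = 1 := by unfold Poi; simp
    rw [h4] at this
    exact this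
  have h4 := (tendsto_finsetProd (Finset.univ : Finset (Fin r)) fun i _ => h2 i)
  have h5 := (tendsto_finsetProd (Finset.univ : Finset (Fin r)) fun _ _ => h3)
  have h6 := h1.mul (h4.mul h5)
  rw [Finset.prod_const_one, mul_one, one_mul] at h6
  refine h6.congr fun s => ?_
  rw [Fintype.prod_sum_type, Fintype.prod_sum_type]
  simp only [Finset.univ_unique, Finset.prod_singleton]
  have e1 : Poi (((hiX (fun i => ⌊x i / η s⌋₊) r (.inl default) : ℝ) -
      loX (fun i => ⌊x i / η s⌋₊) r (.inl default)) * η s) (kX k (.inl default)) = Real.exp (-η s) * η s := by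
    show Poi ((((1 : ℕ) : ℝ) - ((0 : ℕ) : ℝ)) * η s) 1 = _
    unfold Poi
    simp
  have e2 : ∀ i : Fin r, Poi (((hiX (fun i => ⌊x i / η s⌋₊) r (.inr (.inr i)) : ℝ) -
      loX (fun i => ⌊x i / η s⌋₊) r (.inr (.inr i))) * η s) (kX k (.inr (.inr i))) = Poi (2 * η s) 0 := by
    intro i
    show Poi (((((⌊x (i + 1) / η s⌋₊ + 2 : ℕ)) : ℝ) - ((⌊x (i + 1) / η s⌋₊ : ℕ) : ℝ)) * η s) 0 = _
    congr 1
    push_cast
    ring
  have e3 : ∀ i : Fin r, Poi (((hiX (fun i => ⌊x i / η s⌋₊) r (.inr (.inl i)) : ℝ) -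
      loX (fun i => ⌊x i / η s⌋₊) r (.inr (.inl i))) * η s) (kX k (.inr (.inl i))) =
      Poi (((⌊x (i + 1) / η s⌋₊ : ℝ) -
      ((if (i : ℕ) = 0 then 1 else ⌊x i / η s⌋₊ + 2 : ℕ) : ℝ)) * η s) (k i) := fun i => rfl
  rw [e1]
  simp only [e2, e3]
  have := hη0 s
  field_simp

end Pool.Agent.H32x.PL
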