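import Mathlib
import Pool.Agent.H32x.PL.GauA

set_option autoImplicit false

/-!
# From cells to measurable sets
-/

namespace Pool.Agent.H32x.PL

open Finset Filter Topology MeasureTheory

section mixing

variable {F : ℕ → Set ℝ} {c : ℝ}

def QQ (F : ℕ → Set ℝ) (c : ℝ) (A : Set ℝ) : Prop :=
  Tendsto (fun n => volume.real (A ∩ F n)) atTop (𝓝 (c * volume.real A))

lemma QQ_empty : QQ F c ∅ := by
  unfold QQ
  simp

lemma split_real (hF : ∀ n, MeasurableSet (F n)) {A A' : Set ℝ} (hA' : MeasurableSet A') (hsub : A' ⊆ A)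
    (hfin : volume A ≠ ⊤) (n : ℕ) :
    volume.real (A ∩ F n) = volume.real (A' ∩ F n) + volume.real ((A \ A') ∩ F n) := by
  have e : A ∩ F n = (A' ∩ F n) ∪ ((A \ A') ∩ F n) := by
    rw [← Set.union_inter_distrib_right, Set.union_sdiff_cancel hsub]
  have h1 : volume (A' ∩ F n) ≠ ⊤ := measure_ne_top_of_subset (Set.inter_subset_left.trans hsub) hfin
  have h2 : volume ((A \ A') ∩ F n) ≠ ⊤ :=
    measure_ne_top_of_subset (Set.inter_subset_left.trans Set.sdiff_subset) hfin
  rw [e, measureReal_union' ?_ (hA'.inter (hF n)) h1 h2]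
  exact (Set.disjoint_sdiff_right.mono Set.inter_subset_left Set.inter_subset_left)

lemma QQ_approx (hF : ∀ n, MeasurableSet (F n)) {A : Set ℝ} (hfin : volume A ≠ ⊤)
    (h : ∀ ε > 0, ∃ A' ⊆ A, MeasurableSet A' ∧ QQ F c A' ∧ volume.real (A \ A') ≤ ε) : QQ F c A := by
  unfold QQ
  rw [Metric.tendsto_nhds]
  intro ε hε
  obtain ⟨A', hsub, hA', hQ, hd⟩ := h (ε / (2 * (|c| + 1))) (by positivity)
  have h1 := Metric.tendsto_nhds.1 hQ (ε / 4) (by positivity)
  filter_upwards [h1] with n hn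
  have h2 := split_real hF hA' hsub hfin n
  have h3 : volume.real A = volume.real A' + volume.real (A \ A') := by
    have hfd : volume (A \ A') ≠ ⊤ := measure_ne_top_of_subset Set.sdiff_subset hfin
    have := measureReal_sdiff_add_inter (μ := volume) (s := A) hA' hfin
    rw [Set.inter_eq_self_of_subset_right hsub] at this
    linarith
  have h4 : volume.real ((A \ A') ∩ F n) ≤ volume.real (A \ A') :=
    measureReal_mono Set.inter_subset_left (measure_ne_top_of_subset Set.sdiff_subset hfin)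
  have h5 : 0 ≤ volume.real ((A \ A') ∩ F n) := measureReal_nonneg
  have h6 : 0 ≤ volume.real (A \ A') := measureReal_nonneg
  rw [Real.dist_eq] at hn ⊢
  rw [h2, h3]
  have hd2 : (|c| + 1) * volume.real (A \ A') ≤ ε / 2 := by
    calc (|c| + 1) * volume.real (A \ A') ≤ (|c| + 1) * (ε / (2 * (|c| + 1))) := by gcongr
      _ = ε / 2 := by field_simp
  have h7 : |c * volume.real (A \ A')| = |c| * volume.real (A \ A') := by
    rw [abs_mul, abs_of_nonneg h6]
  rw [abs_lt] at hn ⊢
  have h8 := abs_le.1 (le_of_eq h7)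
  constructor
  · nlinarith [hn.1, hn.2, h8.1, h8.2]
  · nlinarith [hn.1, hn.2, h8.1, h8.2]

lemma QQ_union (hF : ∀ n, MeasurableSet (F n)) {A B : Set ℝ} (hd : Disjoint A B) (hA : MeasurableSet A)
    (hAf : volume A ≠ ⊤) (hBf : volume B ≠ ⊤) (h1 : QQ F c A) (h2 : QQ F c B) : QQ F c (A ∪ B) := by
  unfold QQ at *
  have h3 := h1.add h2
  have e : c * volume.real (A ∪ B) = c * volume.real A + c * volume.real B := by
    rw [measureReal_union' hd hA hAf hBf]; ring
  rw [e]
  refine h3.congr fun n => ?_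
  rw [Set.union_inter_distrib_right, measureReal_union' ?_ (hA.inter (hF n))
    (measure_ne_top_of_subset Set.inter_subset_left hAf) (measure_ne_top_of_subset Set.inter_subset_left hBf)]
  exact hd.mono Set.inter_subset_left Set.inter_subset_left

/-- the limit on all the cells of all levels -/
def CellLim (b : ℕ) (F : ℕ → Set ℝ) (c : ℝ) : Prop :=
  ∀ z j : ℕ, 1 ≤ j → j < b ^ (2 * z) → QQ F c (Icell b z j)

lemma QQ_range {b : ℕ} (hb : 2 ≤ b) (hF : ∀ n, MeasurableSet (F n)) (h : CellLim b F c) (z J1 J2 : ℕ)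
    (h1 : 1 ≤ J1) (h12 : J1 ≤ J2) (h2 : J2 ≤ b ^ (2 * z)) :
    QQ F c (Set.Ioc ((J1 : ℝ) / (b : ℝ) ^ z) ((J2 : ℝ) / (b : ℝ) ^ z)) := by
  have hb0 : (0 : ℝ) < b := by positivity
  have hbz : (0 : ℝ) < (b : ℝ) ^ z := by positivity
  induction J2, h12 using Nat.le_induction with
  | base => rw [Set.Ioc_self]; exact QQ_empty
  | succ J hJ ih =>
    have h3 := ih (by omega)
    have h4 := h z J (by omega) (by omega)
    have e : Set.Ioc ((J1 : ℝ) / (b : ℝ) ^ z) (((J + 1 : ℕ) : ℝ) / (b : ℝ) ^ z) =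
        Set.Ioc ((J1 : ℝ) / (b : ℝ) ^ z) ((J : ℝ) / (b : ℝ) ^ z) ∪ Icell b z J := by
      unfold Icell
      push_cast
      rw [Set.Ioc_union_Ioc_eq_Ioc]
      · have : (J1 : ℝ) ≤ J := by exact_mod_cast hJ
        gcongr
      · gcongr
        linarith
    rw [e]
    refine QQ_union hF ?_ measurableSet_Ioc ?_ ?_ h3 h4
    · unfold Icell
      rw [Set.disjoint_left]
      intro x hx hx2
      exact absurd hx.2 (not_le.2 hx2.1)
    · rw [Real.volume_Ioc]; exact ENNReal.ofReal_ne_top
    · unfold Icell; rw [Real.volume_Ioc]; exact ENNReal.ofReal_ne_top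

lemma QQ_Ioc {b : ℕ} (hb : 2 ≤ b) (hF : ∀ n, MeasurableSet (F n)) (h : CellLim b F c) {u a : ℝ}
    (hu : 0 < u) : QQ F c (Set.Ioc u a) := by
  have hb0 : (0 : ℝ) < b := by positivity
  have hb1 : (1 : ℝ) < b := by exact_mod_cast (by omega : 1 < b)
  rcases le_or_gt a u with hau | hau
  · rw [Set.Ioc_eq_empty (not_lt.2 hau)]; exact QQ_empty
  refine QQ_approx hF (by rw [Real.volume_Ioc]; exact ENNReal.ofReal_ne_top) fun ε hε => ?_
  have hlim : Tendsto (fun z : ℕ => (b : ℝ) ^ z) atTop atTop := tendsto_pow_atTop_atTop_of_one_lt hb1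
  obtain ⟨z, hz1, hz2⟩ := ((hlim.eventually_ge_atTop (2 / ε)).and
    (hlim.eventually_ge_atTop (a + 1))).exists
  have hbz : (0 : ℝ) < (b : ℝ) ^ z := by positivity
  have h2ε : 2 / (b : ℝ) ^ z ≤ ε := by
    rw [div_le_iff₀ hbz]
    rw [div_le_iff₀ hε] at hz1
    linarith
  set J1 := ⌈u * (b : ℝ) ^ z⌉₊ with hJ1
  set J2 := ⌊a * (b : ℝ) ^ z⌋₊ with hJ2
  have hJ1a : u * (b : ℝ) ^ z ≤ J1 := Nat.le_ceil _
  have hJ1b : (J1 : ℝ) < u * (b : ℝ) ^ z + 1 := Nat.ceil_lt_add_one (by positivity)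
  have ha0 : 0 < a := hu.trans hau
  have hJ2a : (J2 : ℝ) ≤ a * (b : ℝ) ^ z := Nat.floor_le (by positivity)
  have hJ2b : a * (b : ℝ) ^ z < J2 + 1 := Nat.lt_floor_add_one _
  rcases le_or_gt J1 J2 with hJ | hJ
  · refine ⟨Set.Ioc ((J1 : ℝ) / (b : ℝ) ^ z) ((J2 : ℝ) / (b : ℝ) ^ z), ?_, measurableSet_Ioc,
      QQ_range hb hF h z J1 J2 ?_ hJ ?_, ?_⟩
    · refine Set.Ioc_subset_Ioc ?_ ?_
      · rw [le_div_iff₀ hbz]; exact hJ1a
      · rw [div_le_iff₀ hbz]; exact hJ2a
    · exact Nat.ceil_pos.2 (by positivity)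
    · have : (J2 : ℝ) ≤ (b : ℝ) ^ (2 * z) := by
        refine hJ2a.trans ?_
        rw [two_mul, pow_add]
        gcongr
        linarith
      exact_mod_cast this
    · rw [measureReal_sdiff (Set.Ioc_subset_Ioc (by rw [le_div_iff₀ hbz]; exact hJ1a)
        (by rw [div_le_iff₀ hbz]; exact hJ2a)) measurableSet_Ioc (by
          rw [Real.volume_Ioc]; exact ENNReal.ofReal_ne_top)]
      unfold Measure.real
      rw [Real.volume_Ioc, Real.volume_Ioc, ENNReal.toReal_ofReal (by linarith), ENNReal.toReal_ofReal]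
      · refine le_trans ?_ h2ε
        rw [← sub_div, ← sub_nonneg]
        have : 2 / (b : ℝ) ^ z - (a - u - ((J2 : ℝ) - J1) / (b : ℝ) ^ z) =
          ((J2 + 1 - a * (b : ℝ) ^ z) + (u * (b : ℝ) ^ z + 1 - J1)) / (b : ℝ) ^ z := by
          field_simp
          ring
        rw [this]
        exact div_nonneg (by linarith) hbz.le
      · rw [← sub_div]
        have : (J1 : ℝ) ≤ J2 := by exact_mod_cast hJ
        exact div_nonneg (by linarith) hbz.le
  · refine ⟨∅, Set.empty_subset _, MeasurableSet.empty, QQ_empty, ?_⟩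
    rw [Set.sdiff_empty]
    unfold Measure.real
    rw [Real.volume_Ioc, ENNReal.toReal_ofReal (by linarith)]
    refine le_trans ?_ h2ε
    have h3 : (J2 : ℝ) + 1 ≤ J1 := by exact_mod_cast hJ
    rw [le_div_iff₀ hbz]
    nlinarith

/-- on measurable subsets of the window -/
lemma QQ_win {b : ℕ} (hb : 2 ≤ b) (hF : ∀ n, MeasurableSet (F n)) (h : CellLim b F c) (m0 : ℕ)
    (A : Set ℝ) (hA : MeasurableSet A) : QQ F c (A ∩ Win b m0) := by
  have hb0 : (0 : ℝ) < b := by positivity
  have hu : 0 < ((b : ℝ) ^ m0)⁻¹ := by positivity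
  have hWf : volume (Win b m0) ≠ ⊤ := by unfold Win; rw [Real.volume_Ioc]; exact ENNReal.ofReal_ne_top
  have hWm := measurableSet_Win b m0
  have hWQ : QQ F c (Win b m0) := QQ_Ioc hb hF h hu
  induction A, hA using MeasurableSpace.induction_on_inter (borel_eq_generateFrom_Iic ℝ)
    isPiSystem_Iic with
  | empty => rw [Set.empty_inter]; exact QQ_empty
  | basic A hA =>
    obtain ⟨a, rfl⟩ := hA
    have e : Set.Iic a ∩ Win b m0 = Set.Ioc (((b : ℝ) ^ m0)⁻¹) (min a ((b : ℝ) ^ m0)) := by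
      ext x
      unfold Win
      simp only [Set.mem_inter_iff, Set.mem_Iic, Set.mem_Ioc, le_min_iff]
      tauto
    rw [e]
    exact QQ_Ioc hb hF h hu
  | compl A hA ih =>
    have e : Aᶜ ∩ Win b m0 = Win b m0 \ (A ∩ Win b m0) := by
      ext x; simp; tauto
    have hAm : MeasurableSet (A ∩ Win b m0) := MeasurableSet.inter (by exact hA) hWm
    have h1 := hWQ.sub ih
    rw [e]
    unfold QQ
    have e2 : c * volume.real (Win b m0 \ (A ∩ Win b m0)) =
        c * volume.real (Win b m0) - c * volume.real (A ∩ Win b m0) := by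
      rw [measureReal_sdiff Set.inter_subset_right hAm hWf]; ring
    rw [e2]
    refine h1.congr fun n => ?_
    have h2 := split_real hF hAm Set.inter_subset_right hWf n
    rw [h2]; ring
  | iUnion f hd hfm ih =>
    have hfm' : ∀ i, MeasurableSet (f i ∩ Win b m0) := fun i => MeasurableSet.inter (by exact hfm i) hWm
    have hd' : Pairwise (Function.onFun Disjoint fun i => f i ∩ Win b m0) := fun i j hij =>
      (hd hij).mono Set.inter_subset_left Set.inter_subset_left
    have hfin : ∀ i, volume (f i ∩ Win b m0) ≠ ⊤ := fun i =>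
      measure_ne_top_of_subset Set.inter_subset_right hWf
    have hUfin : volume (⋃ i, f i ∩ Win b m0) ≠ ⊤ :=
      measure_ne_top_of_subset (Set.iUnion_subset fun i => Set.inter_subset_right) hWf
    have hsum : HasSum (fun i => volume.real (f i ∩ Win b m0)) (volume.real (⋃ i, f i ∩ Win b m0)) := by
      have h1 := measure_iUnion (μ := volume) hd' hfm'
      unfold Measure.real
      rw [h1, ENNReal.tsum_toReal_eq hfin]
      exact (ENNReal.hasSum_toReal (by rw [← h1]; exact hUfin))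
    have hsumn : ∀ n, volume.real ((⋃ i, f i ∩ Win b m0) ∩ F n) = ∑' i, volume.real ((f i ∩ Win b m0) ∩ F n) := by
      intro n
      have hd2 : Pairwise (Function.onFun Disjoint fun i => (f i ∩ Win b m0) ∩ F n) := fun i j hij =>
        (hd' hij).mono Set.inter_subset_left Set.inter_subset_left
      have h1 := measure_iUnion (μ := volume) hd2 fun i => (hfm' i).inter (hF n)
      rw [Set.iUnion_inter]
      unfold Measure.real
      rw [h1, ENNReal.tsum_toReal_eq fun i => measure_ne_top_of_subset Set.inter_subset_left (hfin i)]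
    rw [Set.iUnion_inter]
    unfold QQ
    simp only [hsumn]
    rw [← (hsum.mul_left c).tsum_eq]
    refine tendsto_tsum_of_dominated_convergence (bound := fun i => volume.real (f i ∩ Win b m0))
      hsum.summable (fun i => ih i) (Filter.Eventually.of_forall fun n i => ?_)
    rw [Real.norm_eq_abs, abs_of_nonneg measureReal_nonneg]
    exact measureReal_mono Set.inter_subset_left (hfin i)

/-- on all measurable sets of finite measure -/
theorem QQ_all {b : ℕ} (hb : 2 ≤ b) (hF : ∀ n, MeasurableSet (F n)) (h : CellLim b F c)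
    (A : Set ℝ) (hA : MeasurableSet A) (hA0 : A ⊆ Set.Ioi 0) (hfin : volume A ≠ ⊤) : QQ F c A := by
  have hb0 : (0 : ℝ) < b := by positivity
  have hb1 : (1 : ℝ) < b := by exact_mod_cast (by omega : 1 < b)
  refine QQ_approx hF hfin fun ε hε => ?_
  have hanti : Antitone fun m : ℕ => A \ Win b m := by
    intro m m' hmm
    refine Set.sdiff_subset_sdiff_right ?_
    unfold Win
    have h1 : (b : ℝ) ^ m ≤ (b : ℝ) ^ m' := pow_le_pow_right₀ hb1.le hmm
    refine Set.Ioc_subset_Ioc ?_ h1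
    gcongr
  have hinter : ⋂ m : ℕ, A \ Win b m = ∅ := by
    rw [Set.eq_empty_iff_forall_notMem]
    intro x hx
    rw [Set.mem_iInter] at hx
    have hx0 : 0 < x := hA0 (hx 0).1
    have hlim : Tendsto (fun z : ℕ => (b : ℝ) ^ z) atTop atTop := tendsto_pow_atTop_atTop_of_one_lt hb1
    obtain ⟨m, hm1, hm2⟩ := ((hlim.eventually_ge_atTop x).and (hlim.eventually_gt_atTop (1 / x))).exists
    refine (hx m).2 ⟨?_, hm1⟩
    rw [inv_lt_comm₀ (by positivity) hx0, ← one_div]
    exact hm2
  have hlim := tendsto_measure_iInter_atTop (μ := volume) (s := fun m : ℕ => A \ Win b m)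
    (fun m => (hA.diff (measurableSet_Win b m)).nullMeasurableSet) hanti
    ⟨0, measure_ne_top_of_subset Set.sdiff_subset hfin⟩
  rw [hinter, measure_empty] at hlim
  have hlim2 := (ENNReal.tendsto_toReal ENNReal.zero_ne_top).comp hlim
  simp only [ENNReal.toReal_zero] at hlim2
  obtain ⟨m, hm⟩ := (hlim2.eventually_le_const hε).exists
  refine ⟨A ∩ Win b m, Set.inter_subset_left, hA.inter (measurableSet_Win b m), QQ_win hb hF h m A hA, ?_⟩
  rw [Set.sdiff_self_inter]
  exact hm

end mixing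

end Pool.Agent.H32x.PL
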