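import Mathlib
import Pool.Agent.H32x.PL.Palm

set_option autoImplicit false

/-!
# Poisson statistics after a typical exponent: the theorem
-/

namespace Pool.Agent.H32x.PL

open Finset Filter Topology MeasureTheory
open Pool.Agent.N176.GP (cnt XX NB NB_spec NB_div MB)
open Pool.Agent.N176.OW (kap VT VS VS_mono VS_nonneg VT_nonneg S_FM S_LIL)
open Pool.Agent.H305R2 (roughPart)

lemma MB_eq (b : ℕ) (S : Set ℕ) (β : ℝ) (n : ℕ) [DecidablePred fun p => p ∈ Et b S β] :
    MB b S β n = ((range (n + 1)).filter (fun p => p ∈ Et b S β)).card := by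
  classical
  unfold MB
  congr 1
  ext p
  simp only [mem_filter]
  rfl

lemma sum_BB (b : ℕ) (S : Set ℕ) (β : ℝ) (r : ℕ) (x : ℕ → ℝ) (F : Finset (Fin r → ℕ)) (n : ℕ) :
    ∑ k ∈ F, (BB b S β r x k n : ℝ) ≤ MB b S β n := by
  classical
  rw [MB_eq]
  unfold BB
  have h : ∑ k ∈ F, ((range (n + 1)).filter (fun p => p ∈ Et b S β ∧ Qp b S β r x k p)).card ≤
      ((range (n + 1)).filter (fun p => p ∈ Et b S β)).card := by
    rw [← Finset.card_biUnion]
    · refine Finset.card_le_card ?_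
      intro p hp
      rw [mem_biUnion] at hp
      obtain ⟨k, _, hk⟩ := hp
      rw [mem_filter] at hk ⊢
      exact ⟨hk.1, hk.2.1⟩
    · intro k _ k' _ hkk
      rw [Function.onFun, Finset.disjoint_left]
      intro p h1 h2
      rw [mem_filter] at h1 h2
      refine hkk (funext fun i => ?_)
      have h3 := (h1.2.2 i).symm.trans (h2.2.2 i)
      exact_mod_cast h3
  exact_mod_cast h

theorem palm (hFM : S_FM) (hL : S_LIL) {b : ℕ} (hb : 2 ≤ b) {S : Set ℕ}
    (hS : Tendsto (fun n => VS S n) atTop atTop)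
    (hD : Tendsto (fun n : ℕ => VS S (2 * n) - VS S n) atTop (𝓝 0))
    (hP : ∀ h ≥ 1, Tendsto (fun n => VS (Sh S h) n / VS S n) atTop (𝓝 0)) :
    ∀ᵐ β : ℝ, 0 < β → ∀ (r : ℕ) (x : ℕ → ℝ) (k : Fin r → ℕ), x 0 = 0 → (∀ i < r, x i < x (i + 1)) →
      Tendsto (fun n => (BB b S β r x k n : ℝ) / MB b S β n) atTop
        (𝓝 (∏ i : Fin r, Poi (x (i + 1) - x i) (k i))) := by
  classical
  have hv := vv_tendsto hb hS
  have hae : ∀ᵐ β : ℝ, ∀ (s r : ℕ) (lo hi kk : IX r → ℕ), (∀ j, lo j ≤ hi j) →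
      (∀ i j, i ≠ j → hi i ≤ lo j ∨ hi j ≤ lo i) → 0 < β →
      Tendsto (fun L : ℕ => (∑ l ∈ range L, pat b (fun l j => SW b S (((l : ℝ) + lo j) * (1 / 2) ^ s)
        (((l : ℝ) + hi j) * (1 / 2) ^ s)) kk l β) / L) atTop
        (𝓝 (∏ j, Poi (((hi j : ℝ) - lo j) * (1 / 2) ^ s) (kk j))) := by
    rw [ae_all_iff]; intro s
    rw [ae_all_iff]; intro r
    rw [ae_all_iff]; intro lo
    rw [ae_all_iff]; intro hi
    rw [ae_all_iff]; intro kk
    by_cases h1 : ∀ j, lo j ≤ hi j
    · by_cases h2 : ∀ i j, i ≠ j → hi i ≤ lo j ∨ hi j ≤ lo i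
      · filter_upwards [windows hFM hb hS hD hP (IX r) lo hi h1 h2 (η := (1 / 2) ^ s) (by positivity) kk]
          with β hβ _ _ h0
        exact hβ h0
      · exact Filter.Eventually.of_forall fun β _ h => absurd h h2
    · exact Filter.Eventually.of_forall fun β h => absurd h h1
  filter_upwards [hae, lln hL hb hS] with β hβ1 hβ2 hβ0 r x k hx0 hx
  have hMB := hβ2 hβ0
  refine mass (fun (k : Fin r → ℕ) n => (BB b S β r x k n : ℝ) / MB b S β n)
    (fun k => ∏ i : Fin r, Poi (x (i + 1) - x i) (k i)) (fun k => ?_) (fun F n => ?_) (fun k ε hε => ?_)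
    (fun ε hε => ?_) k
  · exact Finset.prod_nonneg fun i _ => Poi_nonneg (by linarith [hx i i.2]) _
  · rw [← Finset.sum_div]
    exact div_le_one_of_le₀ (sum_BB b S β r x F n) (Nat.cast_nonneg _)
  · -- lower bound
    have hη0 : ∀ s : ℕ, (0 : ℝ) < (1 / 2) ^ s := fun s => by positivity
    have hηt : Tendsto (fun s : ℕ => ((1 : ℝ) / 2) ^ s) atTop (𝓝 0) :=
      tendsto_pow_atTop_nhds_zero_of_lt_one (by norm_num) (by norm_num)
    have h1 := (lim_prod r x k hx0 hx hη0 hηt).eventually_const_le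
      (show (∏ i : Fin r, Poi (x (i + 1) - x i) (k i)) - ε / 2 <
        ∏ i : Fin r, Poi (x (i + 1) - x i) (k i) by linarith)
    have h2 : ∀ᶠ s : ℕ in atTop, ∀ i ∈ range r, 3 * ((1 : ℝ) / 2) ^ s ≤ x (i + 1) - x i := by
      rw [Filter.eventually_all_finset]
      intro i hi
      have h3 := hηt.const_mul 3
      rw [mul_zero] at h3
      exact h3.eventually_le_const (by linarith [hx i (mem_range.1 hi)])
    obtain ⟨s, hs1, hs2⟩ := (h1.and h2).exists
    set η : ℝ := (1 / 2) ^ s with hη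
    have hη0' : 0 < η := hη0 s
    set X : ℕ → ℕ := fun i => ⌊x i / η⌋₊ with hX
    have hxnn : ∀ i ≤ r, 0 ≤ x i := by
      intro i hi
      induction i with
      | zero => rw [hx0]
      | succ i ih => exact (ih (by omega)).trans (hx i (by omega)).le
    have hXs : ∀ i < r, X i + 2 < X (i + 1) := by
      intro i hi
      have h3 := hs2 i (mem_range.2 hi)
      have h4 : (X i : ℝ) ≤ x i / η := Nat.floor_le (div_nonneg (hxnn i hi.le) hη0'.le)
      have h5 : x (i + 1) / η < X (i + 1) + 1 := Nat.lt_floor_add_one _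
      have h6 : x i / η + 3 ≤ x (i + 1) / η := by
        rw [div_add' _ _ _ hη0'.ne']
        gcongr
        linarith
      have h7 : (X i : ℝ) + 3 < X (i + 1) + 1 := by linarith
      have h8 : X i + 3 < X (i + 1) + 1 := by exact_mod_cast h7
      omega
    have hW := hβ1 s r (loX X r) (hiX X r) (kX k) (lo_le_hi (fun h => by have := hXs 0 h; simp only [zero_add] at this; omega)
      (fun i _ hi => (hXs i hi).le)) (dis_lo_hi (fun h => by have := hXs 0 h; simp only [zero_add] at this; omega)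
      (fun i _ hi => (hXs i hi).le)) hβ0
    set g := ∏ j, Poi (((hiX X r j : ℝ) - loX X r j) * (1 / 2) ^ s) (kX k j) with hg
    set Ln : ℕ → ℕ := fun n => ⌊vv b S n / η⌋₊ with hLn
    have hvη : Tendsto (fun n => vv b S n / η) atTop atTop := hv.atTop_div_const hη0'
    have hLt : Tendsto Ln atTop atTop := tendsto_nat_floor_atTop.comp hvη
    have h3 := hW.comp hLt
    have h4 : Tendsto (fun n => (Ln n : ℝ) / vv b S n) atTop (𝓝 (1 / η)) := by
      have h5 := ((tendsto_nat_floor_div_atTop (R := ℝ)).comp hvη).div_const η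
      refine h5.congr fun n => ?_
      simp only [Function.comp, hLn]
      field_simp
    have h5 : Tendsto (fun n => vv b S n / (MB b S β n : ℝ)) atTop (𝓝 1) := by
      have := hMB.inv₀ one_ne_zero
      rw [inv_one] at this
      refine this.congr fun n => ?_
      rw [inv_div]
    have h6 := (h3.mul h4).mul h5
    rw [mul_one, mul_one_div] at h6
    have h7 := h6.eventually_const_le (show g / η - ε / 2 < g / η by linarith)
    filter_upwards [h7, hv.eventually_gt_atTop 0, hLt.eventually_ge_atTop 1] with n hn hv0 hL1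
    have hL0 : (0 : ℝ) < Ln n := by exact_mod_cast hL1
    have hLη : (Ln n : ℝ) * η ≤ vv b S n := by
      have := Nat.floor_le (div_nonneg hv0.le hη0'.le)
      rwa [le_div_iff₀ hη0'] at this
    have hcount := count hb hv β hη0' r x k hx0 hx (Ln n) n hLη
    simp only [Function.comp] at hn
    have e : (∑ l ∈ range (Ln n), pat b (fun l j => SW b S (((l : ℝ) + loX X r j) * (1 / 2) ^ s)
        (((l : ℝ) + hiX X r j) * (1 / 2) ^ s)) (kX k) l β) / (Ln n : ℝ) * ((Ln n : ℝ) / vv b S n) *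
        (vv b S n / (MB b S β n : ℝ)) =
        (∑ l ∈ range (Ln n), pat b (fun l j => SW b S (((l : ℝ) + loX X r j) * (1 / 2) ^ s)
        (((l : ℝ) + hiX X r j) * (1 / 2) ^ s)) (kX k) l β) / (MB b S β n : ℝ) := by
      rw [div_mul_div_cancel₀ hL0.ne', div_mul_div_cancel₀ hv0.ne']
    rw [e] at hn
    have h8 : (∑ l ∈ range (Ln n), pat b (fun l j => SW b S (((l : ℝ) + loX X r j) * (1 / 2) ^ s)
        (((l : ℝ) + hiX X r j) * (1 / 2) ^ s)) (kX k) l β) / (MB b S β n : ℝ) ≤
        (BB b S β r x k n : ℝ) / MB b S β n :=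
      div_le_div_of_nonneg_right hcount (Nat.cast_nonneg _)
    linarith
  · exact poi_total (fun i : Fin r => x (i + 1) - x i) hε

end Pool.Agent.H32x.PL
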