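import Mathlib
import Pool.Agent.H32x.PL.Main

set_option autoImplicit false

/-!
# All primes in thin dyadic windows
-/

namespace Pool.Agent.H32x.PL

open Finset Filter Topology MeasureTheory
open Pool.Agent.N176.OW (kap VT VS VS_mono VS_nonneg VT_nonneg TS TS_prop VS_step VT_bound)
open Pool.Agent.N176.GP (log_div_le)
open Pool.Agent.W66 (sift_two)
open Pool.Agent.Helper112.E456.SieveAux (DD)

/-- comparison of the weights of two sets through their blocks -/
lemma ratio_small {S S' : Set ℕ} (hS : Tendsto (fun n => VS S n) atTop atTop) (θ e : ℕ → ℝ)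
    (hθ : Tendsto θ atTop (𝓝 0)) (he0 : ∀ i, 0 ≤ e i) (he : Summable e) (i1 : ℕ)
    (h : ∀ i ≥ i1, VT (TS S' i) ≤ θ i * VT (TS S i) + e i) :
    Tendsto (fun n => VS S' n / VS S n) atTop (𝓝 0) := by
  obtain ⟨C0, hC0, hVb⟩ := VT_bound
  refine tendsto_zero_of_forall (fun n => div_nonneg (VS_nonneg _ _) (VS_nonneg _ _)) fun δ hδ => ?_
  obtain ⟨i2, hi2⟩ := eventually_atTop.1 (hθ.eventually_le_const (show 0 < δ / 2 by positivity))
  set i0 := max i1 i2 with hi0
  set E := ∑' i, e i with hE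
  have hE0 : 0 ≤ E := tsum_nonneg he0
  have hblock : ∀ I, i0 ≤ I → VS S' (2 ^ I) ≤ VS S' (2 ^ i0) + δ / 2 * VS S (2 ^ I) + ∑ i ∈ range I, e i := by
    intro I hI
    induction I, hI using Nat.le_induction with
    | base =>
      have h1 : 0 ≤ δ / 2 * VS S (2 ^ i0) := mul_nonneg (by positivity) (VS_nonneg _ _)
      have h2 : 0 ≤ ∑ i ∈ range i0, e i := Finset.sum_nonneg fun i _ => he0 i
      linarith
    | succ I hI ih =>
      rw [VS_step, VS_step, Finset.sum_range_succ]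
      have h1 := h I (by omega)
      have h2 := hi2 I (by omega)
      have h3 := VT_nonneg (TS S I)
      have h4 : θ I * VT (TS S I) ≤ δ / 2 * VT (TS S I) := mul_le_mul_of_nonneg_right h2 h3
      rw [mul_add]
      linarith
  set A := VS S' (2 ^ i0) + δ / 2 * C0 + E with hA
  have hA0 : 0 ≤ A := by
    have := VS_nonneg S' (2 ^ i0)
    positivity
  filter_upwards [hS.eventually_ge_atTop (2 * A / δ + 1), eventually_ge_atTop (2 ^ i0)] with n hn hn2
  have hn1 : 1 ≤ n := le_trans (Nat.one_le_pow _ _ (by norm_num)) hn2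
  have hV0 : 0 < VS S n := by
    have : 0 ≤ 2 * A / δ := by positivity
    linarith
  set I := Nat.log 2 n with hI
  have h1 : 2 ^ I ≤ n := Nat.pow_log_le_self 2 (by omega)
  have h2 : n < 2 ^ (I + 1) := Nat.lt_pow_succ_log_self (by norm_num) n
  have h3 : i0 ≤ I := by
    have : 2 ^ i0 < 2 ^ (I + 1) := lt_of_le_of_lt hn2 h2
    have := (Nat.pow_lt_pow_iff_right (by norm_num : 1 < 2)).1 this
    omega
  have h4 := hblock (I + 1) (by omega)
  have h5 : VS S' n ≤ VS S' (2 ^ (I + 1)) := VS_mono S' h2.le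
  have h6 : VS S (2 ^ (I + 1)) ≤ VS S n + C0 := by
    rw [VS_step]
    have := VS_mono S h1
    have := hVb S I
    linarith
  have h7 : ∑ i ∈ range (I + 1), e i ≤ E := he.sum_le_tsum _ fun i _ => he0 i
  rw [div_le_iff₀ hV0]
  have h8 : A ≤ δ / 2 * VS S n := by
    have h9 : 2 * A / δ ≤ VS S n := by linarith
    rw [div_le_iff₀ hδ] at h9
    linarith
  have h10 : δ / 2 * VS S (2 ^ (I + 1)) ≤ δ / 2 * (VS S n + C0) := mul_le_mul_of_nonneg_left h6 (by positivity)
  linarith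

/-- the primes in the windows `(2 ^ i, (1 + ε i) 2 ^ i]` -/
def Thin (ε : ℕ → ℝ) : Set ℕ := {p | ∃ i : ℕ, 2 ^ i < p ∧ (p : ℝ) ≤ 2 ^ i * (1 + ε i)}

lemma thin_mem {ε : ℕ → ℝ} (hε0 : ∀ i, 0 ≤ ε i) (hε1 : ∀ i, ε i ≤ 1) {i p : ℕ} (h1 : 2 ^ i < p)
    (h2 : p ≤ 2 ^ (i + 1)) : p ∈ Thin ε ↔ p ≤ 2 ^ i + ⌊(2 : ℝ) ^ i * ε i⌋₊ := by
  have key : (p : ℝ) ≤ 2 ^ i * (1 + ε i) ↔ p ≤ 2 ^ i + ⌊(2 : ℝ) ^ i * ε i⌋₊ := by
    have e : p = 2 ^ i + (p - 2 ^ i) := by omega
    have h3 : ((p : ℕ) : ℝ) = 2 ^ i + ((p - 2 ^ i : ℕ) : ℝ) := by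
      conv_lhs => rw [e]
      push_cast
      ring
    rw [h3]
    constructor
    · intro h
      have h4 : ((p - 2 ^ i : ℕ) : ℝ) ≤ (2 : ℝ) ^ i * ε i := by linarith
      have h5 := Nat.le_floor h4
      omega
    · intro h
      have h4 : p - 2 ^ i ≤ ⌊(2 : ℝ) ^ i * ε i⌋₊ := by omega
      have h5 : ((p - 2 ^ i : ℕ) : ℝ) ≤ (2 : ℝ) ^ i * ε i :=
        (Nat.le_floor_iff (mul_nonneg (by positivity) (hε0 i))).1 h4
      linarith
  rw [← key]
  constructor
  · rintro ⟨i', h3, h4⟩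
    have h5 : i' = i := by
      have h6 : (p : ℝ) ≤ 2 ^ (i' + 1) := by
        refine h4.trans ?_
        rw [pow_succ]
        have := hε1 i'
        have : (0 : ℝ) < 2 ^ i' := by positivity
        nlinarith
      have h7 : p ≤ 2 ^ (i' + 1) := by exact_mod_cast h6
      have h8 : i < i' + 1 := (Nat.pow_lt_pow_iff_right (by norm_num : 1 < 2)).1 (lt_of_lt_of_le h1 h7)
      have h9 : i' < i + 1 := (Nat.pow_lt_pow_iff_right (by norm_num : 1 < 2)).1 (lt_of_lt_of_le h3 h2)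
      omega
    rw [h5] at h4
    exact h4
  · intro h
    exact ⟨i, h1, h⟩

lemma card_block_upper {C0 : ℝ} (hC0 : 1 ≤ C0) (hBT : ∀ (a q N : ℕ), 2 ≤ N → (q = 1 ∨ q.Prime) →
    (((Finset.range N).filter (fun k => (a + k * q).Prime)).card : ℝ) ≤ C0 * N / Real.log N)
    {ε : ℕ → ℝ} (hε0 : ∀ i, 0 ≤ ε i) (hε1 : ∀ i, ε i ≤ 1) {i : ℕ} (hi : 1 ≤ i) :
    VT (TS (Thin ε) i) ≤ 4 * C0 * (ε i + 3 / √((2 : ℝ) ^ i)) := by
  classical
  set X : ℕ := 2 ^ i with hX
  set Y : ℕ := ⌊(2 : ℝ) ^ i * ε i⌋₊ with hY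
  have hX2 : 2 ≤ X := by
    calc 2 = 2 ^ 1 := rfl
      _ ≤ 2 ^ i := Nat.pow_le_pow_right (by norm_num) hi
  have hXr : (X : ℝ) = (2 : ℝ) ^ i := by rw [hX]; push_cast; rfl
  have hX2r : (2 : ℝ) ≤ X := by exact_mod_cast hX2
  have hX0 : (0 : ℝ) < X := by linarith
  have hlX : 0 < Real.log X := Real.log_pos (by linarith)
  set N : ℕ := Y + ⌊√(X : ℝ)⌋₊ + 2 with hN
  have hsq1 : 1 ≤ √(X : ℝ) := by rw [Real.one_le_sqrt]; linarith
  have hN2 : 2 ≤ N := by omega
  have hYr : (Y : ℝ) ≤ X * ε i := by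
    rw [hXr]; exact Nat.floor_le (mul_nonneg (by positivity) (hε0 i))
  have hNup : (N : ℝ) ≤ X * ε i + 3 * √(X : ℝ) := by
    rw [hN]; push_cast
    have := Nat.floor_le (Real.sqrt_nonneg (X : ℝ))
    linarith
  have hNlow : √(X : ℝ) ≤ N := by
    rw [hN]; push_cast
    have := Nat.lt_floor_add_one (√(X : ℝ))
    have : (0 : ℝ) ≤ Y := Nat.cast_nonneg _
    linarith
  have hlN : Real.log X / 2 ≤ Real.log N := by
    rw [← Real.log_sqrt hX0.le]
    exact Real.log_le_log (by positivity) hNlow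
  have hsub : TS (Thin ε) i ⊆ ((Finset.range N).filter (fun k => (X + 1 + k * 1).Prime)).image
      (fun k => X + 1 + k) := by
    intro p hp
    have hp' := TS_prop _ _ p hp
    unfold TS at hp
    rw [mem_filter, mem_Ioc] at hp
    obtain ⟨⟨h1, h2⟩, h3, h4⟩ := hp
    have h5 := (thin_mem hε0 hε1 h1 h2).1 h4
    rw [mem_image]
    refine ⟨p - (X + 1), ?_, by omega⟩
    rw [mem_filter, mem_range]
    have : X + 1 + (p - (X + 1)) * 1 = p := by omega
    rw [this]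
    exact ⟨by omega, h3⟩
  have hcard : ((TS (Thin ε) i).card : ℝ) ≤ C0 * N / Real.log N := by
    refine le_trans ?_ (hBT (X + 1) 1 N hN2 (Or.inl rfl))
    exact_mod_cast (Finset.card_le_card hsub).trans Finset.card_image_le
  have hVT : VT (TS (Thin ε) i) ≤ (TS (Thin ε) i).card * (2 * Real.log X / X) := by
    unfold VT
    rw [← nsmul_eq_mul]
    refine Finset.sum_le_card_nsmul _ _ _ fun p hp => ?_
    obtain ⟨_, h3, h4⟩ := TS_prop (Thin ε) i p hp
    exact log_div_le hX2 h3 h4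
  have hsq : √(X : ℝ) / X = 1 / √(X : ℝ) := by
    rw [div_eq_div_iff hX0.ne' (by positivity), Real.mul_self_sqrt hX0.le, one_mul]
  rw [← hXr]
  calc VT (TS (Thin ε) i) ≤ (C0 * N / Real.log N) * (2 * Real.log X / X) :=
        hVT.trans (mul_le_mul_of_nonneg_right hcard (by positivity))
    _ ≤ (C0 * N / (Real.log X / 2)) * (2 * Real.log X / X) := by gcongr
    _ = 4 * C0 * (N / X) := by field_simp; ring
    _ ≤ 4 * C0 * ((X * ε i + 3 * √(X : ℝ)) / X) := by gcongr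
    _ = 4 * C0 * (ε i + 3 * (√(X : ℝ) / X)) := by field_simp
    _ = _ := by rw [hsq]; ring

lemma card_block_lower : ∃ c ρ : ℝ, 0 < c ∧ 0 < ρ ∧ ρ < 1 ∧ ∃ i1 : ℕ, ∀ ε : ℕ → ℝ, (∀ i, 0 ≤ ε i) →
    (∀ i, ε i ≤ 1) → ∀ i ≥ i1, c * (ε i - 2 * ρ ^ i) ≤ VT (TS (Thin ε) i) := by
  classical
  obtain ⟨δ, η, hδ, hδ1, hη, X0, hX0, hH⟩ := Pool.Agent.H469R10.HO.hoheisel
  set ρ : ℝ := (2 : ℝ) ^ (-δ) with hρ
  have hρ0 : 0 < ρ := by positivity
  have hρ1 : ρ < 1 := Real.rpow_lt_one_of_one_lt_of_neg (by norm_num) (by linarith)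
  refine ⟨η / 2, ρ, by positivity, hρ0, hρ1, X0 + 1, fun ε hε0 hε1 i hi => ?_⟩
  set X : ℕ := 2 ^ i with hX
  set Y : ℕ := ⌊(2 : ℝ) ^ i * ε i⌋₊ with hY
  have hiX : i < X := Nat.lt_two_pow_self
  have hX2 : 2 ≤ X := by
    calc 2 = 2 ^ 1 := rfl
      _ ≤ 2 ^ i := Nat.pow_le_pow_right (by norm_num) (by omega)
  have hXr : (X : ℝ) = (2 : ℝ) ^ i := by rw [hX]; push_cast; rfl
  have hX2r : (2 : ℝ) ≤ X := by exact_mod_cast hX2
  have hX0' : (0 : ℝ) < X := by linarith
  have hlX : 0 < Real.log X := Real.log_pos (by linarith)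
  have hρi : ρ ^ i * X = (X : ℝ) ^ (1 - δ) := by
    rw [Real.rpow_sub hX0', Real.rpow_one, hXr, hρ, ← Real.rpow_natCast, ← Real.rpow_mul (by norm_num),
      ← Real.rpow_natCast 2 i, ← Real.rpow_mul (by norm_num), div_eq_mul_inv, ← Real.rpow_neg (by norm_num),
      mul_comm]
    congr 2
    ring
  rcases le_or_gt (ε i) (2 * ρ ^ i) with h | h
  · have h1 : η / 2 * (ε i - 2 * ρ ^ i) ≤ 0 := mul_nonpos_of_nonneg_of_nonpos (by positivity) (by linarith)
    exact h1.trans (VT_nonneg _)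
  · have h1 : (X : ℝ) ^ (1 - δ) ≤ Y := by
      have h2 : (2 : ℝ) ^ i * ε i < Y + 1 := Nat.lt_floor_add_one _
      have h3 : 1 ≤ (X : ℝ) ^ (1 - δ) := Real.one_le_rpow (by linarith) (by linarith)
      rw [← hXr] at h2
      have h4 : 2 * (ρ ^ i * X) < X * ε i := by nlinarith
      rw [hρi] at h4
      linarith
    have hYX : Y ≤ X := by
      have : (Y : ℝ) ≤ X := by
        calc (Y : ℝ) ≤ (2 : ℝ) ^ i * ε i := Nat.floor_le (mul_nonneg (by positivity) (hε0 i))
          _ ≤ (2 : ℝ) ^ i * 1 := by gcongr; exact hε1 i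
          _ = X := by rw [hXr, mul_one]
      exact_mod_cast this
    have h2 := hH X Y (by omega) h1 hYX
    have hsub : (Ioc X (X + Y)).filter Nat.Prime ⊆ TS (Thin ε) i := by
      intro p hp
      rw [mem_filter, mem_Ioc] at hp
      unfold TS
      rw [mem_filter, mem_Ioc]
      have h3 : p ≤ 2 ^ (i + 1) := by rw [pow_succ]; omega
      exact ⟨⟨hp.1.1, h3⟩, hp.2, (thin_mem hε0 hε1 hp.1.1 h3).2 hp.1.2⟩
    have hcard : η * Y / Real.log X ≤ (TS (Thin ε) i).card :=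
      h2.trans (by exact_mod_cast Finset.card_le_card hsub)
    have hVT : ((TS (Thin ε) i).card : ℝ) * (Real.log X / (2 * X)) ≤ VT (TS (Thin ε) i) := by
      unfold VT
      rw [← nsmul_eq_mul]
      refine Finset.card_nsmul_le_sum _ _ _ fun p hp => ?_
      obtain ⟨_, h3, h4⟩ := TS_prop (Thin ε) i p hp
      have h5 : (X : ℝ) ≤ p := by exact_mod_cast h3.le
      have h6 : (p : ℝ) ≤ 2 * X := by exact_mod_cast h4
      have h7 : Real.log X ≤ Real.log p := Real.log_le_log hX0' h5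
      have hp0 : (0 : ℝ) < p := by linarith
      exact div_le_div₀ (hlX.le.trans h7) h7 hp0 h6
    have h3 : X * ε i - 1 ≤ Y := by
      have h4 : (2 : ℝ) ^ i * ε i < Y + 1 := Nat.lt_floor_add_one _
      rw [← hXr] at h4
      linarith
    have h4 : 1 / (X : ℝ) ≤ ρ ^ i := by
      rw [div_le_iff₀ hX0', hρi]
      exact Real.one_le_rpow (by linarith) (by linarith)
    calc η / 2 * (ε i - 2 * ρ ^ i) ≤ η / 2 * (ε i - 1 / X) := by
          refine mul_le_mul_of_nonneg_left ?_ (by positivity)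
          have : 0 < ρ ^ i := by positivity
          linarith
      _ = η * (X * ε i - 1) / Real.log X * (Real.log X / (2 * X)) := by field_simp
      _ ≤ η * Y / Real.log X * (Real.log X / (2 * X)) := by gcongr
      _ ≤ (TS (Thin ε) i).card * (Real.log X / (2 * X)) := by gcongr
      _ ≤ _ := hVT

lemma pair_block_upper (h : ℕ) (hh : 1 ≤ h) : ∃ C : ℝ, 0 < C ∧ ∀ ε : ℕ → ℝ, (∀ i, 0 ≤ ε i) →
    (∀ i, ε i ≤ 1) → ∀ i ≥ 1, VT (TS (Sh (Thin ε) h) i) ≤ C * (ε i / i + 1 / √((2 : ℝ) ^ i)) := by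
  classical
  obtain ⟨C0, hC0, hsv⟩ := sift_two
  set M := 2 * h with hM
  set m : ℝ := ((M : ℕ) : ℝ) / (Nat.totient M : ℝ) with hm
  have hl2 : 0 < Real.log 2 := Real.log_pos (by norm_num)
  have hm0 : 0 ≤ m := by positivity
  refine ⟨24 * (C0 * m ^ 2 + 1) / Real.log 2, by positivity, fun ε hε0 hε1 i hi => ?_⟩
  set X : ℕ := 2 ^ i with hX
  set Y : ℕ := ⌊(2 : ℝ) ^ i * ε i⌋₊ with hY
  have hX2 : 2 ≤ X := by
    calc 2 = 2 ^ 1 := rfl
      _ ≤ 2 ^ i := Nat.pow_le_pow_right (by norm_num) hi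
  have hXr : (X : ℝ) = (2 : ℝ) ^ i := by rw [hX]; push_cast; rfl
  have hX2r : (2 : ℝ) ≤ X := by exact_mod_cast hX2
  have hX0 : (0 : ℝ) < X := by linarith
  have hlX : 0 < Real.log X := Real.log_pos (by linarith)
  have hi0 : (1 : ℝ) ≤ i := by exact_mod_cast hi
  have hlogX : Real.log X = i * Real.log 2 := by rw [hXr, Real.log_pow]
  set N : ℕ := Y + ⌊√(X : ℝ)⌋₊ + 2 with hN
  have hsq1 : 1 ≤ √(X : ℝ) := by rw [Real.one_le_sqrt]; linarith
  have hN2 : 2 ≤ N := by omega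
  have hYr : (Y : ℝ) ≤ X * ε i := by
    rw [hXr]; exact Nat.floor_le (mul_nonneg (by positivity) (hε0 i))
  have hNup : (N : ℝ) ≤ X * ε i + 3 * √(X : ℝ) := by
    rw [hN]; push_cast
    have := Nat.floor_le (Real.sqrt_nonneg (X : ℝ))
    linarith
  have hNlow : √(X : ℝ) ≤ N := by
    rw [hN]; push_cast
    have := Nat.lt_floor_add_one (√(X : ℝ))
    have : (0 : ℝ) ≤ Y := Nat.cast_nonneg _
    linarith
  have hlN : Real.log X / 2 ≤ Real.log N := by
    rw [← Real.log_sqrt hX0.le]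
    exact Real.log_le_log (by positivity) hNlow
  have hN8 : (N : ℝ) ^ ((1 : ℝ) / 8) ≤ X := by
    have h1 : (N : ℝ) ≤ (X : ℝ) ^ (8 : ℝ) := by
      have h2 : √(X : ℝ) ≤ X := by
        rw [Real.sqrt_le_left (by linarith)]
        nlinarith
      have h3 : (N : ℝ) ≤ 4 * X := by
        have := hε1 i
        have : X * ε i ≤ X * 1 := mul_le_mul_of_nonneg_left this hX0.le
        linarith
      calc (N : ℝ) ≤ 4 * X := h3
        _ ≤ (X : ℝ) ^ 8 := by
            have h4 : (4 : ℝ) ≤ (X : ℝ) ^ 2 := by nlinarith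
            have h5 : (1 : ℝ) ≤ (X : ℝ) ^ 5 := one_le_pow₀ (by linarith)
            calc 4 * (X : ℝ) ≤ (X : ℝ) ^ 2 * X * (X : ℝ) ^ 5 := by
                  have : 4 * (X : ℝ) ≤ (X : ℝ) ^ 2 * X := mul_le_mul_of_nonneg_right h4 hX0.le
                  nlinarith
              _ = (X : ℝ) ^ 8 := by ring
        _ = (X : ℝ) ^ (8 : ℝ) := by norm_cast
    calc (N : ℝ) ^ ((1 : ℝ) / 8) ≤ ((X : ℝ) ^ (8 : ℝ)) ^ ((1 : ℝ) / 8) :=
          Real.rpow_le_rpow (Nat.cast_nonneg _) h1 (by norm_num)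
      _ = X := by rw [← Real.rpow_mul hX0.le]; norm_num
  set Z : Finset ℕ := (Icc 1 N).filter (fun n => (n + X).Prime ∧ (n + (X + h)).Prime) with hZ
  have hsub : TS (Sh (Thin ε) h) i ⊆ Z.image (fun n => n + X) := by
    intro p hp
    unfold TS at hp
    rw [mem_filter, mem_Ioc] at hp
    obtain ⟨⟨h1, h2⟩, h3, h4, h5, h6⟩ := hp
    have h7 := (thin_mem hε0 hε1 h1 h2).1 h4
    rw [mem_image]
    refine ⟨p - X, ?_, by omega⟩
    rw [hZ, mem_filter, mem_Icc]
    have e1 : p - X + X = p := by omega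
    have e2 : p - X + (X + h) = p + h := by omega
    rw [e1, e2]
    exact ⟨⟨by omega, by omega⟩, h3, h6⟩
  have hDD : DD 1 X 1 (X + h) ∣ M := by
    have e : DD 1 X 1 (X + h) = h := by
      unfold DD
      have e2 : ((((1 * (X + h) : ℕ) : ℤ)) - ((1 * X : ℕ) : ℤ)).natAbs = h := by
        have : ((((1 * (X + h) : ℕ) : ℤ)) - ((1 * X : ℕ) : ℤ)) = h := by
          push_cast; ring
        rw [this]; simp
      rw [e2]
      ring
    rw [e, hM]; exact dvd_mul_left _ _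
  have hmain := hsv 1 X 1 (X + h) N M one_pos one_pos (dvd_mul_right _ _) (by omega) hDD hN2 Z
    (filter_subset _ _) (by
      intro n hn l hl hlz _
      rw [hZ, mem_filter, mem_Icc] at hn
      have hlX' : (l : ℝ) ≤ X := hlz.trans hN8
      have hlX'' : l ≤ X := by exact_mod_cast hlX'
      rw [one_mul]
      constructor
      · intro hd
        have := (Nat.prime_dvd_prime_iff_eq hl hn.2.1).1 hd
        omega
      · intro hd
        have := (Nat.prime_dvd_prime_iff_eq hl hn.2.2).1 hd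
        omega)
  have hcard : ((TS (Sh (Thin ε) h) i).card : ℝ) ≤ C0 * m ^ 2 * N / (Real.log N) ^ 2 := by
    refine le_trans ?_ hmain
    exact_mod_cast (Finset.card_le_card hsub).trans Finset.card_image_le
  have hVT : VT (TS (Sh (Thin ε) h) i) ≤ (TS (Sh (Thin ε) h) i).card * (2 * Real.log X / X) := by
    unfold VT
    rw [← nsmul_eq_mul]
    refine Finset.sum_le_card_nsmul _ _ _ fun p hp => ?_
    obtain ⟨_, h3, h4⟩ := TS_prop (Sh (Thin ε) h) i p hp
    exact log_div_le hX2 h3 h4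
  have hsq : √(X : ℝ) / X = 1 / √(X : ℝ) := by
    rw [div_eq_div_iff hX0.ne' (by positivity), Real.mul_self_sqrt hX0.le, one_mul]
  have hi' : (0 : ℝ) < i := by linarith
  calc VT (TS (Sh (Thin ε) h) i) ≤ (C0 * m ^ 2 * N / (Real.log N) ^ 2) * (2 * Real.log X / X) :=
        hVT.trans (mul_le_mul_of_nonneg_right hcard (by positivity))
    _ ≤ (C0 * m ^ 2 * N / (Real.log X / 2) ^ 2) * (2 * Real.log X / X) := by gcongr
    _ = 8 * (C0 * m ^ 2) / Real.log 2 * (N / X / i) := by rw [hlogX]; field_simp; ring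
    _ ≤ 8 * (C0 * m ^ 2) / Real.log 2 * ((X * ε i + 3 * √(X : ℝ)) / X / i) := by gcongr
    _ = 8 * (C0 * m ^ 2) / Real.log 2 * (ε i / i + 3 * (√(X : ℝ) / X) / i) := by field_simp
    _ ≤ 8 * (C0 * m ^ 2) / Real.log 2 * (ε i / i + 3 * (√(X : ℝ) / X) / 1) := by gcongr
    _ = 8 * (C0 * m ^ 2) / Real.log 2 * (ε i / i + 3 * (1 / √(X : ℝ))) := by rw [hsq, div_one]
    _ ≤ 24 * (C0 * m ^ 2 + 1) / Real.log 2 * (ε i / i + 1 / √(X : ℝ)) := by
        have h1 : 0 ≤ ε i / i := div_nonneg (hε0 i) hi'.le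
        have h2 : 0 ≤ 1 / √(X : ℝ) := by positivity
        have h3 : 0 ≤ C0 * m ^ 2 := by positivity
        rw [div_mul_eq_mul_div, div_mul_eq_mul_div]
        refine div_le_div_of_nonneg_right ?_ hl2.le
        nlinarith [mul_nonneg h3 h1, mul_nonneg h3 h2]
    _ = _ := by rw [hXr]

/-- the primes of the thin windows satisfy the conditions -/
theorem thin_ok {ε : ℕ → ℝ} (hε0 : ∀ i, 0 ≤ ε i) (hε1 : ∀ i, ε i ≤ 1)
    (hε : Tendsto ε atTop (𝓝 0)) (hεs : ¬ Summable ε) :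
    Tendsto (fun n => VS (Thin ε) n) atTop atTop ∧
    Tendsto (fun n : ℕ => VS (Thin ε) (2 * n) - VS (Thin ε) n) atTop (𝓝 0) ∧
    ∀ h ≥ 1, Tendsto (fun n => VS (Sh (Thin ε) h) n / VS (Thin ε) n) atTop (𝓝 0) := by
  obtain ⟨C0, hC0, hBT⟩ := Pool.Agent.Helper601.brun_titchmarsh
  obtain ⟨c, ρ, hc, hρ0, hρ1, i1, hlow⟩ := card_block_lower
  have hρs : Summable fun i : ℕ => ρ ^ i := summable_geometric_of_lt_one hρ0.le hρ1
  -- divergence
  have hV : Tendsto (fun n => VS (Thin ε) n) atTop atTop := by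
    have h1 : Tendsto (fun I => ∑ i ∈ range I, ε i) atTop atTop :=
      not_summable_iff_tendsto_nat_atTop_of_nonneg hε0 |>.1 hεs
    set A := ∑ i ∈ range i1, c * ε i + ∑' i : ℕ, 2 * c * ρ ^ i with hA
    have hs2 : Summable fun i : ℕ => 2 * c * ρ ^ i := hρs.mul_left _
    have hblock : ∀ I, i1 ≤ I → c * ∑ i ∈ range I, ε i - (∑ i ∈ range i1, c * ε i +
        ∑ i ∈ range I, 2 * c * ρ ^ i) ≤ VS (Thin ε) (2 ^ I) := by
      intro I hI
      induction I, hI using Nat.le_induction with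
      | base =>
        have h2 := VS_nonneg (Thin ε) (2 ^ i1)
        have h3 : 0 ≤ ∑ i ∈ range i1, 2 * c * ρ ^ i := Finset.sum_nonneg fun i _ => by positivity
        rw [Finset.mul_sum]
        linarith
      | succ I hI ih =>
        rw [VS_step, Finset.sum_range_succ, Finset.sum_range_succ, mul_add]
        have h2 := hlow ε hε0 hε1 I hI
        nlinarith
    have h2 : Tendsto (fun I : ℕ => VS (Thin ε) (2 ^ I)) atTop atTop := by
      refine tendsto_atTop_mono' atTop ?_ (tendsto_atTop_add_const_right _ (-A) (h1.const_mul_atTop hc))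
      filter_upwards [eventually_ge_atTop i1] with I hI
      have h3 := hblock I hI
      have h4 : ∑ i ∈ range I, 2 * c * ρ ^ i ≤ ∑' i : ℕ, 2 * c * ρ ^ i :=
        hs2.sum_le_tsum _ fun i _ => by positivity
      linarith
    exact tendsto_atTop_atTop_of_monotone (VS_mono _) fun A' => by
      obtain ⟨I, hI⟩ := (h2.eventually_ge_atTop A').exists
      exact ⟨2 ^ I, hI⟩
  have hsqrt : ∀ i : ℕ, 1 / √((2 : ℝ) ^ i) = (1 / √2) ^ i := by
    intro i
    rw [div_pow, one_pow]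
    congr 1
    rw [Real.sqrt_eq_iff_mul_self_eq (by positivity) (by positivity), ← mul_pow, Real.mul_self_sqrt (by norm_num)]
  have hq1 : 1 / √(2 : ℝ) < 1 := by
    rw [div_lt_one (by positivity)]
    exact Real.one_lt_sqrt_two
  have hq0 : 0 ≤ 1 / √(2 : ℝ) := by positivity
  refine ⟨hV, ?_, ?_⟩
  · -- blocks
    have hg : Tendsto (fun I : ℕ => 4 * C0 * (ε I + 3 * (1 / √2) ^ I) +
        4 * C0 * (ε (I + 1) + 3 * (1 / √2) ^ (I + 1))) atTop (𝓝 0) := by
      have h1 : Tendsto (fun I : ℕ => 4 * C0 * (ε I + 3 * (1 / √(2 : ℝ)) ^ I)) atTop (𝓝 0) := by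
        have h2 := (hε.add ((tendsto_pow_atTop_nhds_zero_of_lt_one hq0 hq1).const_mul 3)).const_mul (4 * C0)
        simpa using h2
      have h3 := h1.add (h1.comp (tendsto_add_atTop_nat 1))
      rw [add_zero] at h3
      exact h3
    have hlog : Tendsto (fun n : ℕ => Nat.log 2 n) atTop atTop := by
      rw [tendsto_atTop]
      intro m
      filter_upwards [eventually_ge_atTop (2 ^ m)] with n hn
      exact Nat.le_log_of_pow_le (by norm_num) hn
    refine squeeze_zero' (Filter.Eventually.of_forall fun n => ?_) ?_ (hg.comp hlog)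
    · have := VS_mono (Thin ε) (show n ≤ 2 * n by omega)
      linarith
    · filter_upwards [eventually_ge_atTop 2] with n hn
      simp only [Function.comp]
      set I := Nat.log 2 n with hI
      have h1 : 2 ^ I ≤ n := Nat.pow_log_le_self 2 (by omega)
      have h2 : n < 2 ^ (I + 1) := Nat.lt_pow_succ_log_self (by norm_num) n
      have hI1 : 1 ≤ I := Nat.le_log_of_pow_le (by norm_num) (by omega)
      have h3 : VS (Thin ε) (2 * n) ≤ VS (Thin ε) (2 ^ (I + 1 + 1)) :=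
        VS_mono _ (by rw [pow_succ]; omega)
      have h4 := VS_mono (Thin ε) h1
      rw [VS_step, VS_step] at h3
      have h5 := card_block_upper hC0 hBT hε0 hε1 hI1
      have h6 := card_block_upper hC0 hBT hε0 hε1 (show 1 ≤ I + 1 by omega)
      rw [div_eq_mul_one_div, hsqrt] at h5 h6
      linarith
  · intro h hh
    obtain ⟨C, hC, hpair⟩ := pair_block_upper h hh
    refine ratio_small hV (fun i => C / c / i) (fun i => C * (2 * ρ ^ i + (1 / √2) ^ i))
      (tendsto_const_div_atTop_nhds_zero_nat _) (fun i => by positivity) ?_ (max i1 1) fun i hi => ?_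
    · exact ((hρs.mul_left 2).add (summable_geometric_of_lt_one hq0 hq1)).mul_left C
    · have hi1 : i1 ≤ i := (le_max_left _ _).trans hi
      have hi2 : 1 ≤ i := (le_max_right _ _).trans hi
      have h1 := hpair ε hε0 hε1 i hi2
      have h2 := hlow ε hε0 hε1 i hi1
      rw [hsqrt] at h1
      have hi0 : (1 : ℝ) ≤ i := by exact_mod_cast hi2
      have h3 : ε i ≤ VT (TS (Thin ε) i) / c + 2 * ρ ^ i := by
        have h4 : ε i - 2 * ρ ^ i ≤ VT (TS (Thin ε) i) / c := by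
          rw [le_div_iff₀ hc]; linarith
        linarith
      have hρi : 0 ≤ 2 * ρ ^ i := by positivity
      calc VT (TS (Sh (Thin ε) h) i) ≤ C * (ε i / i + (1 / √2) ^ i) := h1
        _ ≤ C * ((VT (TS (Thin ε) i) / c + 2 * ρ ^ i) / i + (1 / √2) ^ i) := by gcongr
        _ = C / c / i * VT (TS (Thin ε) i) + C * (2 * ρ ^ i / i + (1 / √2) ^ i) := by
            rw [add_div, div_div, div_div]
            ring
        _ ≤ C / c / i * VT (TS (Thin ε) i) + C * (2 * ρ ^ i / 1 + (1 / √2) ^ i) := by gcongr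
        _ = _ := by rw [div_one]

end Pool.Agent.H32x.PL
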