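import Mathlib
import Pool.Agent.H32x.PL.GauE
import Pool.Agent.H32x.PL.GauF
import Pool.Agent.H32x.PL.GauG
import Pool.Agent.H32x.PL.Geo

set_option autoImplicit false

/-!
# The central limit theorem
-/

namespace Pool.Agent.H32x.PL

open Finset Filter Topology MeasureTheory ProbabilityTheory
open Pool.Agent.N176.GP (NB)
open Pool.Agent.N176.OW (cell kap VS S_FM)
open Pool.Agent.H305R2 (roughPart)

lemma measurable_NW (b : ℕ) (S : Set ℕ) (a c : ℝ) : Measurable fun β : ℝ => NW b S β a c := by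
  unfold NW
  simp only [Finset.card_filter]
  refine Finset.measurable_sum _ fun p _ => ?_
  exact (measurable_from_top (f := fun n : ℕ => if (roughPart p n).Prime then 1 else 0)).comp
    (measurable_NB b p)

/-- the event -/
def Ev (b : ℕ) (S : Set ℕ) {r : ℕ} (t : ℕ → ℝ) (y : Fin r → ℝ) (x : ℝ) : Set ℝ :=
  {β | ∀ j : Fin r, (NW b S β (t j * x) (t (j + 1) * x) : ℝ) ≤
    (t (j + 1) - t j) * x + y j * √((t (j + 1) - t j) * x)}

lemma measurableSet_Ev (b : ℕ) (S : Set ℕ) {r : ℕ} (t : ℕ → ℝ) (y : Fin r → ℝ) (x : ℝ) :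
    MeasurableSet (Ev b S t y x) := by
  have : Ev b S t y x = ⋂ j : Fin r, {β | (NW b S β (t j * x) (t (j + 1) * x) : ℝ) ≤
    (t (j + 1) - t j) * x + y j * √((t (j + 1) - t j) * x)} := by
    ext β; simp [Ev]
  rw [this]
  refine MeasurableSet.iInter fun j => measurableSet_le ?_ measurable_const
  exact (measurable_from_top (f := fun n : ℕ => (n : ℝ))).comp (measurable_NW b S _ _)

lemma vol_Icell {b : ℕ} (hb : 2 ≤ b) (z j : ℕ) : volume (Icell b z j) = ENNReal.ofReal ((b : ℝ) ^ z)⁻¹ := by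
  have hb0 : (0 : ℝ) < b := by positivity
  unfold Icell
  rw [Real.volume_Ioc]
  congr 1
  field_simp
  ring

theorem gauss_cell (hFM : S_FM) {b : ℕ} (hb : 2 ≤ b) {S : Set ℕ}
    (hS : Tendsto (fun n => VS S n) atTop atTop)
    (hD : Tendsto (fun n : ℕ => VS S (2 * n) - VS S n) atTop (𝓝 0))
    (hP : ∀ h ≥ 1, Tendsto (fun n => VS (Sh S h) n / VS S n) atTop (𝓝 0))
    {z0 j0 : ℕ} (hj1 : 1 ≤ j0) (hj2 : j0 < b ^ (2 * z0)) {r : ℕ} (hr : 0 < r) {t : ℕ → ℝ} (ht0 : 0 ≤ t 0)
    (ht : ∀ i < r, t i < t (i + 1)) (y : Fin r → ℝ) {x : ℕ → ℝ} (hx : Tendsto x atTop atTop) :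
    Tendsto (fun n => volume.real (Icell b z0 j0 ∩ Ev b S t y (x n))) atTop
      (𝓝 ((∏ j, gaussianReal 0 1 (Set.Iic (y j))).toReal * volume.real (Icell b z0 j0))) := by
  have hb0 : (0 : ℝ) < b := by positivity
  set I := Icell b z0 j0 with hI
  have hIm : MeasurableSet I := measurableSet_Ioc
  have hv := vol_Icell hb z0 j0
  have hI0 : volume I ≠ 0 := by
    rw [hv]
    simp only [ne_eq, ENNReal.ofReal_eq_zero, not_le]
    positivity
  have hIt : volume I ≠ ⊤ := by rw [hv]; exact ENNReal.ofReal_ne_top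
  have hPr : IsProbabilityMeasure (cond volume I) := cond_isProbabilityMeasure_of_finite hI0 hIt
  set Z : ℕ → ℝ → Fin r → ℝ := fun n β j =>
    ((NW b S β (t j * x n) (t (j + 1) * x n) : ℝ) - (t (j + 1) - t j) * x n) /
      √((t (j + 1) - t j) * x n) with hZ
  have hZm : ∀ n, Measurable (Z n) := by
    intro n
    rw [measurable_pi_iff]
    intro j
    refine ((Measurable.sub ?_ measurable_const).div_const _)
    exact (measurable_from_top (f := fun n : ℕ => (n : ℝ))).comp (measurable_NW b S _ _)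
  have hlim := orthant_lim (cond volume I) Z hZm (fun τ => ?_) y
  · have h1 := (ENNReal.tendsto_toReal (ENNReal.prod_ne_top fun j _ => measure_ne_top _ _)).comp hlim
    have h2 := h1.mul_const (volume.real I)
    refine h2.congr' ?_
    filter_upwards [hx.eventually_gt_atTop 0] with n hn
    have hset : {ω | ∀ j, Z n ω j ≤ y j} = Ev b S t y (x n) := by
      ext β
      unfold Ev
      simp only [Set.mem_ofPred_eq, hZ]
      refine forall_congr' fun j => ?_
      have hΔ : 0 < (t (j + 1) - t j) * x n := mul_pos (by have := ht j j.2; linarith) hn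
      rw [div_le_iff₀ (Real.sqrt_pos.2 hΔ)]
      constructor <;> intro h <;> linarith
    simp only [Function.comp]
    rw [hset, cond_apply hIm, ENNReal.toReal_mul, ENNReal.toReal_inv]
    unfold Measure.real
    have : (volume I).toReal ≠ 0 := ENNReal.toReal_ne_zero.2 ⟨hI0, hIt⟩
    field_simp
  · have h1 := (char_lim hFM hb hS hD hP hj1 hj2 hr ht0 ht τ).comp hx
    have h2 := h1.const_mul ((((b : ℝ) ^ z0 : ℝ)) : ℂ)
    have e : ((((b : ℝ) ^ z0 : ℝ)) : ℂ) * (((((b : ℝ) ^ z0)⁻¹ : ℝ) : ℂ) *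
        Complex.exp (-((∑ j, τ j ^ 2) / 2 : ℝ))) = Complex.exp (-((∑ j, τ j ^ 2) / 2 : ℝ)) := by
      rw [← mul_assoc, ← Complex.ofReal_mul, mul_inv_cancel₀ (by positivity), Complex.ofReal_one, one_mul]
    rw [e] at h2
    refine h2.congr fun n => ?_
    unfold ProbabilityTheory.cond
    rw [integral_smul_measure, hv, ENNReal.toReal_inv, ENNReal.toReal_ofReal (by positivity), inv_inv,
      Complex.real_smul]
    rfl

theorem gauss_seq (hFM : S_FM) {b : ℕ} (hb : 2 ≤ b) {S : Set ℕ}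
    (hS : Tendsto (fun n => VS S n) atTop atTop)
    (hD : Tendsto (fun n : ℕ => VS S (2 * n) - VS S n) atTop (𝓝 0))
    (hP : ∀ h ≥ 1, Tendsto (fun n => VS (Sh S h) n / VS S n) atTop (𝓝 0))
    {r : ℕ} {t : ℕ → ℝ} (ht0 : 0 ≤ t 0)
    (ht : ∀ i < r, t i < t (i + 1)) (y : Fin r → ℝ) {x : ℕ → ℝ} (hx : Tendsto x atTop atTop)
    (A : Set ℝ) (hA : MeasurableSet A) (hA0 : A ⊆ Set.Ioi 0) (hfin : volume A ≠ ⊤) :
    Tendsto (fun n => volume.real (A ∩ Ev b S t y (x n))) atTop
      (𝓝 ((∏ j, gaussianReal 0 1 (Set.Iic (y j))).toReal * volume.real A)) := by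
  rcases Nat.eq_zero_or_pos r with hr | hr
  · subst hr
    have : ∀ n, Ev b S t y (x n) = Set.univ := by
      intro n; ext β; simp [Ev]
    simp only [this, Set.inter_univ, Finset.univ_eq_empty, Finset.prod_empty, ENNReal.toReal_one, one_mul]
    exact tendsto_const_nhds
  · exact QQ_all hb (F := fun n => Ev b S t y (x n)) (fun n => measurableSet_Ev b S t y (x n))
      (fun z j hj1 hj2 => gauss_cell hFM hb hS hD hP hj1 hj2 hr ht0 ht y hx) A hA hA0 hfin

lemma NW_ncard {b : ℕ} {S : Set ℕ} (hv : Tendsto (vv b S) atTop atTop) (β a c : ℝ) :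
    ({q | q ∈ Et b S β ∧ a < vv b S q ∧ vv b S q ≤ c}).ncard = NW b S β a c := by
  unfold NW
  rw [← Set.ncard_coe_finset]
  congr 1
  ext q
  rw [Finset.mem_coe, mem_filter, mem_SW hv]
  unfold Et
  simp only [Set.mem_ofPred_eq]
  tauto

/-- the central limit theorem, jointly in disjoint windows, on every measurable set of amplitudes -/
theorem gauss (hFM : S_FM) {b : ℕ} (hb : 2 ≤ b) {S : Set ℕ}
    (hS : Tendsto (fun n => VS S n) atTop atTop)
    (hD : Tendsto (fun n : ℕ => VS S (2 * n) - VS S n) atTop (𝓝 0))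
    (hP : ∀ h ≥ 1, Tendsto (fun n => VS (Sh S h) n / VS S n) atTop (𝓝 0))
    {r : ℕ} {t : ℕ → ℝ} (ht0 : 0 ≤ t 0)
    (ht : ∀ i < r, t i < t (i + 1)) (y : Fin r → ℝ)
    (A : Set ℝ) (hA : MeasurableSet A) (hA0 : A ⊆ Set.Ioi 0) (hfin : volume A ≠ ⊤) :
    Tendsto (fun x : ℝ => volume {β ∈ A | ∀ j : Fin r,
      (({q | q ∈ Et b S β ∧ t j * x < vv b S q ∧ vv b S q ≤ t (j + 1) * x}).ncard : ℝ) ≤
        (t (j + 1) - t j) * x + y j * √((t (j + 1) - t j) * x)}) atTop
      (𝓝 (volume A * ∏ j, gaussianReal 0 1 (Set.Iic (y j)))) := by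
  have hv := vv_tendsto hb hS
  refine tendsto_of_seq_tendsto fun x hx => ?_
  have h1 := gauss_seq hFM hb hS hD hP ht0 ht y hx A hA hA0 hfin
  have hset : ∀ n, {β ∈ A | ∀ j : Fin r,
      (({q | q ∈ Et b S β ∧ t j * x n < vv b S q ∧ vv b S q ≤ t (j + 1) * x n}).ncard : ℝ) ≤
        (t (j + 1) - t j) * x n + y j * √((t (j + 1) - t j) * x n)} = A ∩ Ev b S t y (x n) := by
    intro n
    ext β
    simp only [NW_ncard hv]
    rfl
  refine Tendsto.congr (f₁ := fun n => volume (A ∩ Ev b S t y (x n)))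
    (fun n => by rw [← hset n]; rfl) ?_
  have hne : ∀ n, volume (A ∩ Ev b S t y (x n)) ≠ ⊤ := fun n =>
    measure_ne_top_of_subset Set.inter_subset_left hfin
  have hne2 : volume A * ∏ j, gaussianReal 0 1 (Set.Iic (y j)) ≠ ⊤ :=
    ENNReal.mul_ne_top hfin (ENNReal.prod_ne_top fun j _ => measure_ne_top _ _)
  rw [← ENNReal.tendsto_toReal_iff hne hne2, ENNReal.toReal_mul, mul_comm]
  exact h1

lemma NW_MB {b : ℕ} (hb : 2 ≤ b) {S : Set ℕ} (hv : Tendsto (vv b S) atTop atTop) (β : ℝ) (n : ℕ) :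
    NW b S β 0 (vv b S n) = Pool.Agent.N176.GP.MB b S β n := by
  classical
  unfold NW Pool.Agent.N176.GP.MB
  congr 1
  ext p
  rw [mem_filter, mem_SW hv, mem_filter, mem_range]
  constructor
  · rintro ⟨⟨⟨h1, h2⟩, h3, h4⟩, h5⟩
    refine ⟨?_, h1, h2, h5⟩
    by_contra hcon
    have := vv_lt hb h1 h2 (n := n) (by omega)
    linarith
  · rintro ⟨h1, h2, h3, h4⟩
    refine ⟨⟨⟨h2, h3⟩, ?_, vv_mono b S (by omega)⟩, h4⟩
    have := vv_lt hb h2 h3 (n := 0) h2.pos
    rwa [vv_zero] at this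

/-- the central limit theorem for the counting function -/
theorem clt (hFM : S_FM) {b : ℕ} (hb : 2 ≤ b) {S : Set ℕ}
    (hS : Tendsto (fun n => VS S n) atTop atTop)
    (hD : Tendsto (fun n : ℕ => VS S (2 * n) - VS S n) atTop (𝓝 0))
    (hP : ∀ h ≥ 1, Tendsto (fun n => VS (Sh S h) n / VS S n) atTop (𝓝 0)) (y : ℝ)
    (A : Set ℝ) (hA : MeasurableSet A) (hA0 : A ⊆ Set.Ioi 0) (hfin : volume A ≠ ⊤) :
    Tendsto (fun n : ℕ => volume {β ∈ A | (Pool.Agent.N176.GP.MB b S β n : ℝ) ≤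
      vv b S n + y * √(vv b S n)}) atTop (𝓝 (volume A * gaussianReal 0 1 (Set.Iic y))) := by
  have hv := vv_tendsto hb hS
  have h1 := (gauss hFM hb hS hD hP (r := 1) (t := fun i => (i : ℝ)) (by simp) (by simp)
    (fun _ => y) A hA hA0 hfin).comp hv
  simp only [Finset.univ_unique, Finset.prod_singleton] at h1
  refine h1.congr fun n => ?_
  simp only [Function.comp, NW_ncard hv]
  congr 1
  ext β
  simp only [Set.mem_ofPred_eq]
  refine and_congr_right fun _ => ?_
  constructor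
  · intro h
    have := h 0
    simp only [Fin.val_zero, Nat.cast_zero, zero_mul, zero_add, Nat.cast_one, one_mul, sub_zero,
      NW_MB hb hv] at this
    exact this
  · intro h j
    have hj : (j : ℕ) = 0 := by omega
    simp only [hj, Nat.cast_zero, zero_mul, zero_add, Nat.cast_one, one_mul, sub_zero,
      NW_MB hb hv]
    exact h

end Pool.Agent.H32x.PL
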